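import Mathlib
import Pool.Agent.Results.MP_67f250_co.UnionOfClosed

set_option autoImplicit false

/-! General facts on the fixed point property used for the union of two closed subposets. -/

namespace Pool.Agent.Y485.FenceA

open Pool.Agent.Results.MP_67f250_co.UnionOfClosed (FPP)

theorem conn {C : Type} [PartialOrder C] (hC : FPP C) (U : Set C) (u : C) (hu : u ∈ U)
    (h : ∀ a b : C, a < b → (a ∈ U ↔ b ∈ U)) : ∀ v, v ∈ U := by
  classical
  intro v
  by_contra hv
  obtain ⟨p, hp⟩ := hC (fun c => if c ∈ U then v else u) (by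
    intro a b hab
    have h' : a ∈ U ↔ b ∈ U := by
      rcases hab.eq_or_lt with h0 | h0
      · rw [h0]
      · exact h a b h0
    by_cases ha : a ∈ U
    · have hb : b ∈ U := h'.1 ha
      simp [ha, hb]
    · have hb : b ∉ U := fun hb => ha (h'.2 hb)
      simp [ha, hb])
  by_cases hpU : p ∈ U
  · simp only [hpU, if_true] at hp
    exact hv (hp ▸ hpU)
  · simp only [hpU, if_false] at hp
    exact hpU (hp ▸ hu)

theorem fix_of_le {X : Type} [PartialOrder X] [Finite X] (f : X → X) (hf : Monotone f) (a : X)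
    (ha : a ≤ f a) : ∃ p, f p = p := by
  obtain ⟨m, hm⟩ := (Set.toFinite {x : X | x ≤ f x}).exists_maximal ⟨a, ha⟩
  have h1 : m ≤ f m := hm.1
  have h2 : f m ≤ m := hm.2 (show f m ∈ {x : X | x ≤ f x} from hf h1) h1
  exact ⟨m, le_antisymm h2 h1⟩

theorem half {X : Type} [PartialOrder X] [Finite X] (A B : Set X) (hA : IsLowerSet A)
    (hB : IsLowerSet B) (fA : FPP A) (r : X → X) (g : X) (hgA : g ∈ A)
    (hr : ∀ x y, x ∈ A → x ∈ B → y ∈ A → y ∈ B → x ≤ y → r x ≤ r y)
    (hr1 : ∀ x, x ∈ A → x ∈ B → r x ≤ x) (hr2 : ∀ x, x ∈ A → x ∈ B → r x ≤ g)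
    (hAB : ∀ x, x ∈ A ∨ x ∈ B)
    (f : X → X) (hf : Monotone f) (hfg : f g ∈ A) : ∃ p, f p = p := by
  classical
  let s : X → X := fun x => if x ∈ A then (if x ∈ B then r x else x) else g
  have hsA : ∀ x, s x ∈ A := by
    intro x
    by_cases h1 : x ∈ A
    · by_cases h2 : x ∈ B
      · simp only [s, h1, h2, if_true]
        exact hA (hr1 x h1 h2) h1
      · simp only [s, h1, h2, if_true, if_false]
    · simp only [s, h1, if_false]
      exact hgA
  have hs : Monotone s := by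
    intro x y hxy
    by_cases hyA : y ∈ A
    · have hxA : x ∈ A := hA hxy hyA
      by_cases hyB : y ∈ B
      · have hxB : x ∈ B := hB hxy hyB
        simp only [s, hxA, hxB, hyA, hyB, if_true]
        exact hr x y hxA hxB hyA hyB hxy
      · by_cases hxB : x ∈ B
        · simp only [s, hxA, hxB, hyA, hyB, if_true, if_false]
          exact (hr1 x hxA hxB).trans hxy
        · simp only [s, hxA, hxB, hyA, hyB, if_true, if_false]
          exact hxy
    · have hyB : y ∈ B := (hAB y).resolve_left hyA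
      have hxB : x ∈ B := hB hxy hyB
      by_cases hxA : x ∈ A
      · simp only [s, hxA, hxB, hyA, if_true, if_false]
        exact hr2 x hxA hxB
      · simp only [s, hxA, hyA, if_false]
        exact le_rfl
  obtain ⟨a, ha⟩ := fA (fun a => ⟨s (f a), hsA _⟩) (fun a b hab => hs (hf hab))
  have ha' : s (f a) = a := congrArg Subtype.val ha
  by_cases h1 : f a ∈ A
  · by_cases h2 : f a ∈ B
    · simp only [s, h1, h2, if_true] at ha'
      refine fix_of_le f hf a ?_
      have := hr1 _ h1 h2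
      rw [ha'] at this
      exact this
    · simp only [s, h1, h2, if_true, if_false] at ha'
      exact ⟨a, ha'⟩
  · simp only [s, h1, if_false] at ha'
    rw [← ha'] at h1
    exact absurd hfg h1

/-- the positive criterion -/
theorem positive {X : Type} [PartialOrder X] [Finite X] (A B : Set X) (hA : IsLowerSet A)
    (hB : IsLowerSet B) (hAB : A ∪ B = Set.univ) (fA : FPP A) (fB : FPP B)
    (r : ↥(A ∩ B) → ↥(A ∩ B)) (g : ↥(A ∩ B))
    (hr : Monotone r) (hr1 : ∀ c, r c ≤ c) (hr2 : ∀ c, r c ≤ g) : FPP X := by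
  classical
  intro f hf
  have hAB' : ∀ x, x ∈ A ∨ x ∈ B := fun x => by
    have : x ∈ A ∪ B := by rw [hAB]; exact Set.mem_univ x
    exact this
  let r' : X → X := fun x => if h : x ∈ A ∩ B then (r ⟨x, h⟩ : X) else x
  have e : ∀ x (h : x ∈ A ∩ B), r' x = (r ⟨x, h⟩ : X) := fun x h => by
    simp only [r', h, dif_pos]
  have k1 : ∀ x y, x ∈ A → x ∈ B → y ∈ A → y ∈ B → x ≤ y → r' x ≤ r' y := by
    intro x y h1 h2 h3 h4 h5
    rw [e x ⟨h1, h2⟩, e y ⟨h3, h4⟩]
    exact hr h5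
  have k2 : ∀ x, x ∈ A → x ∈ B → r' x ≤ x := by
    intro x h1 h2
    rw [e x ⟨h1, h2⟩]
    exact hr1 _
  have k3 : ∀ x, x ∈ A → x ∈ B → r' x ≤ g := by
    intro x h1 h2
    rw [e x ⟨h1, h2⟩]
    exact hr2 _
  rcases hAB' (f g) with h | h
  · exact half A B hA hB fA r' g g.2.1 k1 k2 k3 hAB' f hf h
  · exact half B A hB hA fB r' g g.2.2 (fun x y a b c d => k1 x y b a d c)
      (fun x a b => k2 x b a) (fun x a b => k3 x b a) (fun x => (hAB' x).symm) f hf h

/-! ### The wedge lemma -/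

theorem wedge {X X0 : Type} [PartialOrder X] [PartialOrder X0] (i : X0 → X) (R : X → X0)
    (hi : Monotone i) (hR : Monotone R) (hRi : ∀ x, R (i x) = x)
    (hcut : ∀ x y, x ≤ y → R x ≠ R y → x ≤ i (R x) ∧ i (R y) ≤ y)
    (S : Set X0) (hS : FPP S) (hfib : ∀ v ∈ S, FPP (R ⁻¹' {v} : Set X)) :
    FPP (R ⁻¹' S : Set X) := by
  classical
  intro f hf
  have hmem : ∀ s : S, i s ∈ (R ⁻¹' S : Set X) := fun s => by
    show R (i s) ∈ S
    rw [hRi]; exact s.2
  obtain ⟨v, hv⟩ := hS (fun s => ⟨R (f ⟨i s, hmem s⟩).1, (f ⟨i s, hmem s⟩).2⟩)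
    (fun s t hst => hR (hf (show (⟨i s, hmem s⟩ : (R ⁻¹' S : Set X)) ≤ ⟨i t, hmem t⟩ from hi hst)))
  have hv' : R (f ⟨i v, hmem v⟩).1 = v := congrArg Subtype.val hv
  have hsub : ∀ t : (R ⁻¹' {v.1} : Set X), t.1 ∈ (R ⁻¹' S : Set X) := fun t => by
    have : R t.1 = v := t.2
    show R t.1 ∈ S
    rw [this]; exact v.2
  have hiv : i v ∈ (R ⁻¹' {v.1} : Set X) := hRi v
  obtain ⟨t, ht⟩ := hfib v v.2 (fun t => if h : R (f ⟨t.1, hsub t⟩).1 = v then
      ⟨(f ⟨t.1, hsub t⟩).1, h⟩ else ⟨i v, hiv⟩) (by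
    intro t t' htt
    have hle : (f ⟨t.1, hsub t⟩).1 ≤ (f ⟨t'.1, hsub t'⟩).1 :=
      hf (show (⟨t.1, hsub t⟩ : (R ⁻¹' S : Set X)) ≤ ⟨t'.1, hsub t'⟩ from htt)
    by_cases h1 : R (f ⟨t.1, hsub t⟩).1 = v
    · by_cases h2 : R (f ⟨t'.1, hsub t'⟩).1 = v
      · simp only [h1, h2, dif_pos]
        exact hle
      · simp only [h1, h2, dif_pos, dif_neg, not_false_eq_true]
        have := (hcut _ _ hle (by rw [h1]; exact fun h => h2 h.symm)).1
        rw [h1] at this
        exact this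
    · by_cases h2 : R (f ⟨t'.1, hsub t'⟩).1 = v
      · simp only [h1, h2, dif_pos, dif_neg, not_false_eq_true]
        have := (hcut _ _ hle (by rw [h2]; exact h1)).2
        rw [h2] at this
        exact this
      · simp only [h1, h2, dif_neg, not_false_eq_true]
        exact le_rfl)
  by_cases h1 : R (f ⟨t.1, hsub t⟩).1 = v
  · simp only [h1, dif_pos] at ht
    have h5 : (f ⟨t.1, hsub t⟩).1 = t.1 := congrArg Subtype.val ht
    exact ⟨⟨t.1, hsub t⟩, Subtype.ext h5⟩
  · simp only [h1, dif_neg, not_false_eq_true] at ht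
    exfalso
    have h3 : i v = t.1 := congrArg Subtype.val ht
    apply h1
    have h4 : (⟨t.1, hsub t⟩ : (R ⁻¹' S : Set X)) = ⟨i v, hmem v⟩ := Subtype.ext h3.symm
    rw [h4]
    exact hv'

end Pool.Agent.Y485.FenceA
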