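import Mathlib
import Pool.Agent.Y485.FenceA

set_option autoImplicit false

/-! Posets without chains of three elements: fixed point property and cycles. -/

namespace Pool.Agent.Y485.FenceB

open Pool.Agent.Results.MP_67f250_co.UnionOfClosed (FPP)
open Pool.Agent.Y485.FenceA

theorem no_K22 {C : Type} [PartialOrder C] (hC : FPP C) (h1 : ∀ a b c : C, a < b → ¬ b < c)
    (a b y y' : C) (hab : a ≠ b) (hyy : y ≠ y') (h11 : a < y) (h12 : a < y') (h21 : b < y)
    (h22 : b < y') : False := by
  classical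
  obtain ⟨p, hp⟩ := hC (fun c => if ∃ z, z < c then (if c = y then y' else y) else
      (if c = a then b else a)) (by
    intro c c' hcc
    rcases hcc.eq_or_lt with h0 | h0
    · rw [h0]
    · have hl : ¬ ∃ z, z < c := fun ⟨z, hz⟩ => h1 z c c' hz h0
      have hu : ∃ z, z < c' := ⟨c, h0⟩
      simp only [hl, hu, if_true, if_false]
      split_ifs
      · exact h22.le
      · exact h21.le
      · exact h12.le
      · exact h11.le)
  by_cases hu : ∃ z, z < p
  · simp only [hu, if_true] at hp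
    split_ifs at hp with h
    · exact hyy (by rw [hp, ← h])
    · exact h hp.symm
  · simp only [hu, if_false] at hp
    split_ifs at hp with h
    · exact hab (by rw [hp, ← h])
    · exact h hp.symm

/-- `y` has two distinct lower covers -/
def Heavy {C : Type} [PartialOrder C] (y : C) : Prop := ∃ a b : C, a ≠ b ∧ a < y ∧ b < y

theorem share {C : Type} [PartialOrder C] (hC : FPP C) (h1 : ∀ a b c : C, a < b → ¬ b < c)
    (hF : ¬ ∃ x₁ y₁ x₂ y₂ x₃ : C, x₁ < y₁ ∧ x₂ < y₁ ∧ x₂ < y₂ ∧ x₃ < y₂ ∧ ¬ x₁ < y₂ ∧ ¬ x₃ < y₁)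
    (y y' x : C) (hy : Heavy y) (hy' : Heavy y') (hne : y ≠ y') (hx : x < y) (hx' : x < y') :
    False := by
  obtain ⟨a, hax, ha⟩ : ∃ a, a ≠ x ∧ a < y := by
    obtain ⟨a, b, hab, h2, h3⟩ := hy
    by_cases h : a = x
    · exact ⟨b, fun hb => hab (by rw [h, hb]), h3⟩
    · exact ⟨a, h, h2⟩
  obtain ⟨b, hbx, hb⟩ : ∃ b, b ≠ x ∧ b < y' := by
    obtain ⟨a, b, hab, h2, h3⟩ := hy'
    by_cases h : a = x
    · exact ⟨b, fun hb => hab (by rw [h, hb]), h3⟩
    · exact ⟨a, h, h2⟩
  by_cases h2 : a < y'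
  · exact no_K22 hC h1 a x y y' hax hne ha h2 hx hx'
  · by_cases h3 : b < y
    · exact no_K22 hC h1 b x y y' hbx hne h3 hb hx hx'
    · exact hF ⟨a, y, x, y', b, ha, hx, hx', hb, h2, h3⟩

theorem criterion {C : Type} [PartialOrder C] (hC : FPP C) (h1 : ∀ a b c : C, a < b → ¬ b < c)
    (hF : ¬ ∃ x₁ y₁ x₂ y₂ x₃ : C, x₁ < y₁ ∧ x₂ < y₁ ∧ x₂ < y₂ ∧ x₃ < y₂ ∧ ¬ x₁ < y₂ ∧ ¬ x₃ < y₁) :
    ∃ (r : C → C) (g : C), Monotone r ∧ (∀ c, r c ≤ c) ∧ ∀ c, r c ≤ g := by
  classical
  by_cases hH : ∃ g : C, Heavy g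
  · obtain ⟨g, hg⟩ := hH
    have hgu : ∃ z, z < g := by
      obtain ⟨a, b, _, h2, _⟩ := hg
      exact ⟨a, h2⟩
    have hgm : ∀ c, ¬ g < c := fun c hc => by
      obtain ⟨z, hz⟩ := hgu
      exact h1 z g c hz hc
    have hU : ∀ v, v ∈ {c : C | ∃ x, x ≤ g ∧ x ≤ c} := by
      refine conn hC _ g ⟨g, le_rfl, le_rfl⟩ ?_
      intro a b hab
      constructor
      · rintro ⟨x, h2, h3⟩
        exact ⟨x, h2, h3.trans hab.le⟩
      · rintro ⟨x, h2, h3⟩
        by_cases hbg : b = g
        · exact ⟨a, hbg ▸ hab.le, le_rfl⟩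
        · rcases h3.eq_or_lt with h4 | h4
          · exact ⟨a, hab.le.trans (h4 ▸ h2), le_rfl⟩
          · rcases h2.eq_or_lt with h5 | h5
            · exact absurd (h5 ▸ h4) (hgm b)
            · by_cases hax : a = x
              · exact ⟨a, hax ▸ h2, le_rfl⟩
              · exact (share hC h1 hF b g x ⟨a, x, hax, hab, h4⟩ hg hbg h4 h5).elim
    -- for upper elements other than `g`
    have hlow : ∀ c, c ≠ g → (∃ z, z < c) → ∃ z, z < c ∧ z ≤ g ∧ ∀ w, w < c → w = z := by
      intro c hcg hc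
      obtain ⟨x, h2, h3⟩ := hU c
      rcases h3.eq_or_lt with h4 | h4
      · have : c < g := lt_of_le_of_ne (h4 ▸ h2) hcg
        obtain ⟨z, hz⟩ := hc
        exact absurd this (h1 z c g hz)
      · refine ⟨x, h4, h2, ?_⟩
        intro w hw
        by_contra hwx
        have h5 : x < g := lt_of_le_of_ne h2 (fun h => hgm c (h ▸ h4))
        exact share hC h1 hF c g x ⟨w, x, hwx, hw, h4⟩ hg hcg h4 h5
    let r : C → C := fun c => if h : c ≠ g ∧ ∃ z, z < c then (hlow c h.1 h.2).choose else c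
    have r1 : ∀ c (h : c ≠ g ∧ ∃ z, z < c), r c = (hlow c h.1 h.2).choose := fun c h => by
      simp only [r]; rw [dif_pos h]
    have r2 : ∀ c, ¬ (c ≠ g ∧ ∃ z, z < c) → r c = c := fun c h => by
      simp only [r]; rw [dif_neg h]
    refine ⟨r, g, ?_, ?_, ?_⟩
    · intro c c' hcc
      rcases hcc.eq_or_lt with h0 | h0
      · rw [h0]
      · have hcl : ¬ (c ≠ g ∧ ∃ z, z < c) := fun ⟨_, z, hz⟩ => h1 z c c' hz h0
        rw [r2 c hcl]
        by_cases h : c' ≠ g ∧ ∃ z, z < c'
        · rw [r1 c' h]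
          exact ((hlow c' h.1 h.2).choose_spec.2.2 c h0).le
        · rw [r2 c' h]
          exact hcc
    · intro c
      by_cases h : c ≠ g ∧ ∃ z, z < c
      · rw [r1 c h]
        exact (hlow c h.1 h.2).choose_spec.1.le
      · rw [r2 c h]
    · intro c
      by_cases h : c ≠ g ∧ ∃ z, z < c
      · rw [r1 c h]
        exact (hlow c h.1 h.2).choose_spec.2.1
      · rw [r2 c h]
        by_cases hcg : c = g
        · exact hcg.le
        · have hcl : ¬ ∃ z, z < c := fun hz => h ⟨hcg, hz⟩
          obtain ⟨x, h2, h3⟩ := hU c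
          rcases h3.eq_or_lt with h4 | h4
          · exact h4 ▸ h2
          · exact (hcl ⟨x, h4⟩).elim
  · -- no heavy element
    have hne : Nonempty C := by
      obtain ⟨p, _⟩ := hC id monotone_id
      exact ⟨p⟩
    obtain ⟨c0⟩ := hne
    obtain ⟨b, hb⟩ : ∃ b : C, ¬ ∃ z, z < b := by
      by_cases h : ∃ z, z < c0
      · obtain ⟨z, hz⟩ := h
        exact ⟨z, fun ⟨w, hw⟩ => h1 w z c0 hw hz⟩
      · exact ⟨c0, h⟩
    have hU : ∀ v, v ∈ {c : C | b ≤ c} := by
      refine conn hC _ b (show b ≤ b from le_rfl) ?_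
      intro a c hac
      constructor
      · intro (h2 : b ≤ a)
        exact h2.trans hac.le
      · intro (h2 : b ≤ c)
        show b ≤ a
        rcases h2.eq_or_lt with h3 | h3
        · exact (hb ⟨a, h3 ▸ hac⟩).elim
        · by_contra h4
          exact hH ⟨c, a, b, fun h => h4 h.ge, hac, h3⟩
    exact ⟨fun _ => b, b, fun _ _ _ => le_rfl, fun c => hU c, fun _ => le_rfl⟩

/-! ### Every comparability is a bridge -/

/-- comparability of distinct elements, other than the pair `a`, `b` -/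
def Hr {C : Type} [PartialOrder C] (a b x y : C) : Prop :=
  (x < y ∨ y < x) ∧ ¬ ((x = a ∧ y = b) ∨ (x = b ∧ y = a))

theorem Hr_symm {C : Type} [PartialOrder C] {a b x y : C} (h : Hr a b x y) : Hr a b y x := by
  refine ⟨h.1.symm, ?_⟩
  rintro (⟨h2, h3⟩ | ⟨h2, h3⟩)
  · exact h.2 (Or.inr ⟨h3, h2⟩)
  · exact h.2 (Or.inl ⟨h3, h2⟩)

/-- reachable by a walk with `n` steps -/
inductive Reach {C : Type} (R : C → C → Prop) (a : C) : ℕ → C → Prop
  | zero : Reach R a 0 a
  | succ {n : ℕ} {x y : C} : Reach R a n x → R x y → Reach R a (n + 1) y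

theorem reach_of_rtg {C : Type} {R : C → C → Prop} {a b : C} (h : Relation.ReflTransGen R a b) :
    ∃ n, Reach R a n b := by
  induction h with
  | refl => exact ⟨0, Reach.zero⟩
  | tail _ h2 ih =>
    obtain ⟨n, hn⟩ := ih
    exact ⟨n + 1, Reach.succ hn h2⟩

/-- distance -/
noncomputable def dst {C : Type} (R : C → C → Prop) (a c : C) : ℕ := sInf {n | Reach R a n c}

theorem dst_le {C : Type} {R : C → C → Prop} {a c : C} {n : ℕ} (h : Reach R a n c) :
    dst R a c ≤ n := Nat.sInf_le h

theorem dst_reach {C : Type} {R : C → C → Prop} {a c : C} (h : ∃ n, Reach R a n c) :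
    Reach R a (dst R a c) c := Nat.sInf_mem h

theorem geodesic {C : Type} {R : C → C → Prop} {a : C} {n : ℕ} {z : C} (h : Reach R a n z)
    (hd : dst R a z = n) : ∃ c : ℕ → C, c 0 = a ∧ c n = z ∧ (∀ j, j < n → R (c j) (c (j + 1))) ∧
      ∀ j, j ≤ n → Reach R a j (c j) ∧ dst R a (c j) = j := by
  induction h with
  | zero =>
    refine ⟨fun _ => a, rfl, rfl, fun j hj => absurd hj (Nat.not_lt_zero j), ?_⟩
    intro j hj
    obtain rfl : j = 0 := Nat.le_zero.1 hj
    exact ⟨Reach.zero, hd⟩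
  | @succ n x y h1 h2 ih =>
    have hx : dst R a x = n := by
      apply le_antisymm (dst_le h1)
      have := dst_le (Reach.succ (dst_reach ⟨n, h1⟩) h2)
      omega
    obtain ⟨c, c0, cn, c1, c2⟩ := ih hx
    refine ⟨fun j => if j ≤ n then c j else y, ?_, ?_, ?_, ?_⟩
    · simp [c0]
    · simp
    · intro j hj
      by_cases hjn : j + 1 ≤ n
      · have h3 : j ≤ n := by omega
        simp only [hjn, h3, if_true]
        exact c1 j (by omega)
      · have h3 : j = n := by omega
        subst h3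
        simp only [le_refl, if_true, hjn, if_false]
        rw [cn]
        exact h2
    · intro j hj
      by_cases hjn : j ≤ n
      · simp only [hjn, if_true]
        exact c2 j hjn
      · have h3 : j = n + 1 := by omega
        subst h3
        simp only [hjn, if_false]
        exact ⟨Reach.succ h1 h2, hd⟩

theorem parity {C : Type} [PartialOrder C] (h1 : ∀ a b c : C, a < b → ¬ b < c) {a b : C}
    (hab : a < b) {n : ℕ} {c : C} (h : Reach (Hr a b) a n c) : (∃ z, z < c) ↔ n % 2 = 1 := by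
  induction h with
  | zero =>
    constructor
    · rintro ⟨z, hz⟩
      exact absurd hab (h1 z a b hz)
    · intro h; omega
  | @succ n x y _ h2 ih =>
    rcases h2.1 with h3 | h3
    · have hx : ¬ ∃ z, z < x := fun ⟨z, hz⟩ => h1 z x y hz h3
      have hy : ∃ z, z < y := ⟨x, h3⟩
      rw [ih] at hx
      simp only [hy, true_iff]
      omega
    · have hx : ∃ z, z < x := ⟨y, h3⟩
      have hy : ¬ ∃ z, z < y := fun ⟨z, hz⟩ => h1 z y x hz h3
      rw [ih] at hx
      simp only [hy, false_iff]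
      omega

theorem bridge {C : Type} [PartialOrder C] (hC : FPP C) (h1 : ∀ a b c : C, a < b → ¬ b < c)
    (a b : C) (hab : a < b) : ¬ Relation.ReflTransGen (Hr a b) a b := by
  classical
  intro hr
  have hreach := reach_of_rtg hr
  set R := Hr a b with hR
  have hRs : ∀ x y, R x y → R y x := fun x y h => Hr_symm h
  set N := dst R a b with hN
  have hNr : Reach R a N b := dst_reach hreach
  have hNodd : N % 2 = 1 := (parity h1 hab hNr).1 ⟨a, hab⟩
  have hN1 : N ≠ 1 := by
    intro h
    rw [h] at hNr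
    cases hNr with
    | succ h2 h3 =>
      cases h2 with
      | zero => exact h3.2 (Or.inl ⟨rfl, rfl⟩)
  have hN3 : 3 ≤ N := by omega
  obtain ⟨c, c0, cN, c1, c2⟩ := geodesic hNr rfl
  -- adjacency along the path
  have adj : ∀ i j, i ≤ N → j ≤ N → i % 2 = 0 → j % 2 = 1 → (j = i + 1 ∨ i = j + 1) →
      c i < c j := by
    intro i j hi hj h2 h3 h4
    have hlow : ¬ ∃ z, z < c i := fun h => by
      have := (parity h1 hab (c2 i hi).1).1 h
      omega
    have hR' : R (c i) (c j) := by
      rcases h4 with h4 | h4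
      · subst h4
        exact c1 i (by omega)
      · subst h4
        exact hRs _ _ (c1 j (by omega))
    rcases hR'.1 with h5 | h5
    · exact h5
    · exact (hlow ⟨_, h5⟩).elim
  let idx : C → ℕ := fun x => if (∃ n, Reach R a n x) ∧ dst R a x + 2 ≤ N then dst R a x + 2
    else if ∃ z, z < x then 1 else 0
  have idxle : ∀ x, idx x ≤ N := by
    intro x
    simp only [idx]
    split_ifs with h2 h3
    · exact h2.2
    · omega
    · omega
  have key : ∀ x y, x < y → idx x % 2 = 0 ∧ idx y % 2 = 1 ∧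
      (idx y = idx x + 1 ∨ idx x = idx y + 1 ∨ (idx x = 0 ∧ idx y = N)) := by
    intro x y hxy
    have hxl : ¬ ∃ z, z < x := fun ⟨z, hz⟩ => h1 z x y hz hxy
    have hyu : ∃ z, z < y := ⟨x, hxy⟩
    by_cases hxa : x = a ∧ y = b
    · obtain ⟨hx, hy⟩ := hxa
      have e1 : idx x = 2 := by
        have ha : dst R a a = 0 := Nat.le_zero.1 (dst_le Reach.zero)
        have : (∃ n, Reach R a n x) ∧ dst R a x + 2 ≤ N := by
          rw [hx, ha]
          exact ⟨⟨0, Reach.zero⟩, by omega⟩
        simp only [idx]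
        rw [if_pos this, hx, ha]
      have e2 : idx y = 1 := by
        have : ¬ ((∃ n, Reach R a n y) ∧ dst R a y + 2 ≤ N) := by
          rw [hy]
          rintro ⟨_, h⟩
          omega
        simp only [idx]
        rw [if_neg this, if_pos hyu]
      rw [e1, e2]
      omega
    · have hRxy : R x y := by
        refine ⟨Or.inl hxy, ?_⟩
        rintro (h2 | ⟨h2, h3⟩)
        · exact hxa h2
        · rw [h2, h3] at hxy
          exact absurd hab (not_lt_of_gt hxy)
      by_cases hrx : ∃ n, Reach R a n x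
      · have hry : ∃ n, Reach R a n y := by
          obtain ⟨n, hn⟩ := hrx
          exact ⟨n + 1, Reach.succ hn hRxy⟩
        have d1 : dst R a y ≤ dst R a x + 1 := dst_le (Reach.succ (dst_reach hrx) hRxy)
        have d2 : dst R a x ≤ dst R a y + 1 := dst_le (Reach.succ (dst_reach hry) (hRs _ _ hRxy))
        have p1 : ¬ dst R a x % 2 = 1 := fun h => hxl ((parity h1 hab (dst_reach hrx)).2 h)
        have p2 : dst R a y % 2 = 1 := (parity h1 hab (dst_reach hry)).1 hyu
        simp only [idx, hrx, hry, true_and, hxl, hyu, if_true, if_false]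
        split_ifs with q1 q2 q2
        · omega
        · omega
        · omega
        · omega
      · have hry : ¬ ∃ n, Reach R a n y := by
          rintro ⟨n, hn⟩
          exact hrx ⟨n + 1, Reach.succ hn (hRs _ _ hRxy)⟩
        have e1 : idx x = 0 := by
          simp only [idx]
          rw [if_neg (fun h => hrx h.1), if_neg hxl]
        have e2 : idx y = 1 := by
          simp only [idx]
          rw [if_neg (fun h => hry h.1), if_pos hyu]
        rw [e1, e2]
        omega
  obtain ⟨p, hp⟩ := hC (fun x => c (idx x)) (by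
    intro x y hxy
    rcases hxy.eq_or_lt with h0 | h0
    · rw [h0]
    · obtain ⟨k1, k2, k3⟩ := key x y h0
      rcases k3 with k3 | k3 | ⟨k3, k4⟩
      · exact (adj _ _ (idxle x) (idxle y) k1 k2 (Or.inl k3)).le
      · exact (adj _ _ (idxle x) (idxle y) k1 k2 (Or.inr k3)).le
      · show c (idx x) ≤ c (idx y)
        rw [k3, k4, c0, cN]
        exact hab.le)
  have hp' : c (idx p) = p := hp
  obtain ⟨q1, q2⟩ := c2 (idx p) (idxle p)
  rw [hp'] at q1 q2
  have hex : ∃ n, Reach R a n p := ⟨_, q1⟩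
  by_cases h2 : dst R a p + 2 ≤ N
  · have : idx p = dst R a p + 2 := by
      simp only [idx]
      rw [if_pos ⟨hex, h2⟩]
    omega
  · have : idx p ≤ 1 := by
      simp only [idx]
      rw [if_neg (fun h => h2 h.2)]
      split_ifs <;> omega
    omega

end Pool.Agent.Y485.FenceB
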