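import Mathlib
import Pool.Agent.Y485.FenceB

set_option autoImplicit false

/-! The five-element fence, retractions on it, and the gluing construction. -/

namespace Pool.Agent.Y485.FenceC

open Pool.Agent.Results.MP_67f250_co.UnionOfClosed (FPP)
open Pool.Agent.Y485.FenceA Pool.Agent.Y485.FenceB

/-- the order of the fence `0 < 1 > 2 < 3 > 4` -/
def fle (i j : Fin 5) : Bool :=
  decide (i = j) || (decide (i.val % 2 = 0) &&
    (decide (j.val = i.val + 1) || decide (i.val = j.val + 1)))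

/-- the five-element fence `0 < 1 > 2 < 3 > 4` -/
def Fen : Type := Fin 5

instance : PartialOrder Fen where
  le i j := fle i j = true
  le_refl := (by decide : ∀ i : Fin 5, fle i i = true)
  le_trans := (by decide : ∀ i j k : Fin 5, fle i j = true → fle j k = true → fle i k = true)
  le_antisymm := (by decide : ∀ i j : Fin 5, fle i j = true → fle j i = true → i = j)

theorem fen_adj : ∀ k : ℕ, ∀ hk : k + 1 < 5,
    (fle ⟨k, by omega⟩ ⟨k + 1, hk⟩ = true ∧ ¬ fle ⟨k + 1, hk⟩ ⟨k, by omega⟩ = true) ∨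
    (fle ⟨k + 1, hk⟩ ⟨k, by omega⟩ = true ∧ ¬ fle ⟨k, by omega⟩ ⟨k + 1, hk⟩ = true) := by
  intro k hk
  have : k < 4 := by omega
  interval_cases k <;> decide +revert

theorem rtg_symm {C : Type} {R : C → C → Prop} (hs : ∀ x y, R x y → R y x) {a b : C}
    (h : Relation.ReflTransGen R a b) : Relation.ReflTransGen R b a := by
  induction h with
  | refl => exact Relation.ReflTransGen.refl
  | tail _ h2 ih => exact Relation.ReflTransGen.head (hs _ _ h2) ih

theorem rtg_mono {C : Type} {R S : C → C → Prop} (hs : ∀ x y, R x y → S x y) {a b : C}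
    (h : Relation.ReflTransGen R a b) : Relation.ReflTransGen S a b := by
  induction h with
  | refl => exact Relation.ReflTransGen.refl
  | tail _ h2 ih => exact Relation.ReflTransGen.tail ih (hs _ _ h2)

/-- comparability outside the fence -/
def Gp {C : Type} [PartialOrder C] (ι : Fin 5 → C) (x y : C) : Prop :=
  (x < y ∨ y < x) ∧ ¬ ((∃ i, ι i = x) ∧ (∃ j, ι j = y))

theorem Gp_symm {C : Type} [PartialOrder C] (ι : Fin 5 → C) (x y : C) (h : Gp ι x y) :
    Gp ι y x := ⟨h.1.symm, fun h2 => h.2 ⟨h2.2, h2.1⟩⟩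

section

variable {C : Type} [PartialOrder C] (ι : Fin 5 → C) (hι : ∀ i j, ι i ≤ ι j ↔ fle i j = true)

include hι

theorem iota_inj {i j : Fin 5} (h : ι i = ι j) : i = j := by
  have h1 : fle i j = true := (hι i j).1 h.le
  have h2 : fle j i = true := (hι j i).1 h.ge
  revert i j
  intro i j _ h1 h2
  exact (by decide : ∀ i j : Fin 5, fle i j = true → fle j i = true → i = j) i j h1 h2

theorem iota_lt {i j : Fin 5} (h : fle i j = true ∧ ¬ fle j i = true) : ι i < ι j := by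
  rw [lt_iff_le_not_ge, hι, hι]
  exact h

theorem iota_adj (k : ℕ) (hk : k + 1 < 5) :
    ι ⟨k, by omega⟩ < ι ⟨k + 1, hk⟩ ∨ ι ⟨k + 1, hk⟩ < ι ⟨k, by omega⟩ := by
  rcases fen_adj k hk with h | h
  · exact Or.inl (iota_lt ι hι h)
  · exact Or.inr (iota_lt ι hι h)

theorem no_conn (hC : FPP C) (h1 : ∀ a b c : C, a < b → ¬ b < c) (i j : Fin 5) (hij : i < j) :
    ¬ Relation.ReflTransGen (Gp ι) (ι i) (ι j) := by
  intro h
  have hj := j.2
  have hij' : i.val < j.val := hij
  have hi5 : i.val + 1 < 5 := by omega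
  set e := ι i with he
  set e' := ι ⟨i.val + 1, hi5⟩ with he'
  have hmono : ∀ x y, Gp ι x y → Hr e e' x y := by
    intro x y hxy
    refine ⟨hxy.1, ?_⟩
    rintro (⟨h2, h3⟩ | ⟨h2, h3⟩)
    · exact hxy.2 ⟨⟨i, h2.symm⟩, ⟨_, h3.symm⟩⟩
    · exact hxy.2 ⟨⟨_, h2.symm⟩, ⟨i, h3.symm⟩⟩
  have chain : ∀ m : ℕ, ∀ hm : i.val + 1 + m < 5,
      Relation.ReflTransGen (Hr e e') (ι ⟨i.val + 1 + m, hm⟩) e' := by
    intro m
    induction m with
    | zero => intro hm; exact Relation.ReflTransGen.refl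
    | succ m ih =>
      intro hm
      refine Relation.ReflTransGen.head ?_ (ih (by omega))
      refine ⟨(iota_adj ι hι (i.val + 1 + m) hm).symm, ?_⟩
      rintro (⟨h2, h3⟩ | ⟨h2, h3⟩)
      · have := congrArg Fin.val (iota_inj ι hι h2)
        simp at this
        omega
      · have := congrArg Fin.val (iota_inj ι hι h3)
        simp at this
        omega
  have hfin : Relation.ReflTransGen (Hr e e') e e' := by
    have h2 := chain (j.val - i.val - 1) (by omega)
    have h3 : (⟨i.val + 1 + (j.val - i.val - 1), by omega⟩ : Fin 5) = j := by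
      apply Fin.ext
      show i.val + 1 + (j.val - i.val - 1) = j.val
      omega
    rw [h3] at h2
    exact (rtg_mono hmono h).trans h2
  rcases iota_adj ι hι i.val hi5 with h2 | h2
  · exact bridge hC h1 e e' h2 hfin
  · refine bridge hC h1 e' e h2 ?_
    refine rtg_symm (fun x y => Hr_symm) (rtg_mono ?_ hfin)
    intro x y hxy
    exact ⟨hxy.1, fun h3 => hxy.2 h3.symm⟩

theorem fence_retract (hC : FPP C) (h1 : ∀ a b c : C, a < b → ¬ b < c) :
    ∃ ρ : C → Fen, (∀ i : Fin 5, ρ (ι i) = i) ∧ Monotone ρ ∧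
      ∀ c c', c ≤ c' → ρ c ≠ ρ c' → c ≤ ι (ρ c) ∧ ι (ρ c') ≤ c' := by
  classical
  have hex : ∀ c, c ∈ {c : C | ∃ i, Relation.ReflTransGen (Gp ι) (ι i) c} := by
    refine conn hC _ (ι 0) ⟨0, Relation.ReflTransGen.refl⟩ ?_
    intro a b hab
    by_cases hr : (∃ i, ι i = a) ∧ (∃ j, ι j = b)
    · obtain ⟨⟨i, rfl⟩, ⟨j, rfl⟩⟩ := hr
      exact ⟨fun _ => ⟨j, Relation.ReflTransGen.refl⟩, fun _ => ⟨i, Relation.ReflTransGen.refl⟩⟩
    · have h2 : Gp ι a b := ⟨Or.inl hab, hr⟩
      constructor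
      · rintro ⟨i, hi⟩
        exact ⟨i, hi.tail h2⟩
      · rintro ⟨i, hi⟩
        exact ⟨i, hi.tail (Gp_symm ι _ _ h2)⟩
  have huniq : ∀ i j, Relation.ReflTransGen (Gp ι) (ι i) (ι j) → i = j := by
    intro i j h
    rcases lt_trichotomy i j with h2 | h2 | h2
    · exact absurd h (no_conn ι hι hC h1 i j h2)
    · exact h2
    · exact absurd (rtg_symm (Gp_symm ι) h) (no_conn ι hι hC h1 j i h2)
  choose ρ hρ using hex
  have hρι : ∀ i, ρ (ι i) = i := fun i => huniq _ _ (hρ (ι i))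
  have hstep : ∀ c c', c < c' → ρ c ≠ ρ c' → ι (ρ c) = c ∧ ι (ρ c') = c' := by
    intro c c' hcc hne
    by_cases hr : (∃ i, ι i = c) ∧ (∃ j, ι j = c')
    · obtain ⟨⟨i, rfl⟩, ⟨j, rfl⟩⟩ := hr
      rw [hρι, hρι]
      exact ⟨rfl, rfl⟩
    · exfalso
      apply hne
      have h2 : Gp ι c c' := ⟨Or.inl hcc, hr⟩
      exact huniq _ _ (((hρ c).tail h2).trans (rtg_symm (Gp_symm ι) (hρ c')))
  refine ⟨ρ, hρι, ?_, ?_⟩
  · intro c c' hcc
    rcases hcc.eq_or_lt with h0 | h0
    · exact le_of_eq (α := Fen) (congrArg ρ h0)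
    · by_cases hne : ρ c = ρ c'
      · exact le_of_eq (α := Fen) hne
      · obtain ⟨h2, h3⟩ := hstep c c' h0 hne
        have h4 : ι (ρ c) ≤ ι (ρ c') := by rw [h2, h3]; exact hcc
        exact (hι _ _).1 h4
  · intro c c' hcc hne
    rcases hcc.eq_or_lt with h0 | h0
    · exact (hne (by rw [h0])).elim
    · obtain ⟨h2, h3⟩ := hstep c c' h0 hne
      exact ⟨h2.ge, h3.le⟩

end

/-! ### Gluing -/

/-- the underlying set of the glued poset: `X0` outside `K`, and `C` -/
inductive Gl (X0 C : Type) (K : X0 → Prop) : Type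
  | out (x : X0) (h : ¬ K x) : Gl X0 C K
  | mid (c : C) : Gl X0 C K

section

variable {X0 C F : Type} [PartialOrder X0] [PartialOrder C] [PartialOrder F]

/-- the order of the glued poset -/
def gle (κ : F → X0) (ι : F → C) (ρ : C → F) {K : X0 → Prop} : Gl X0 C K → Gl X0 C K → Prop
  | .out x _, .out y _ => x ≤ y
  | .mid c, .mid c' => c ≤ c'
  | .mid c, .out y _ => c ≤ ι (ρ c) ∧ κ (ρ c) ≤ y
  | .out _ _, .mid _ => False

/-- the retraction to `X0` -/
def Rt (κ : F → X0) (ρ : C → F) {K : X0 → Prop} : Gl X0 C K → X0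
  | .out x _ => x
  | .mid c => κ (ρ c)

/-- the glued poset -/
@[reducible] def glOrder (K : X0 → Prop) (κ : F → X0) (hκ : ∀ i j, κ i ≤ κ j ↔ i ≤ j) (ι : F → C)
    (ρ : C → F) (hρ : Monotone ρ)
    (hcut : ∀ c c', c ≤ c' → ρ c ≠ ρ c' → c ≤ ι (ρ c) ∧ ι (ρ c') ≤ c') :
    PartialOrder (Gl X0 C K) where
  le := gle κ ι ρ
  le_refl := by
    rintro (⟨x, h⟩ | c)
    · exact le_refl x
    · exact le_refl c
  le_trans := by
    rintro (⟨x, hx⟩ | c) (⟨y, hy⟩ | d) (⟨z, hz⟩ | e) h1 h2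
    · exact le_trans (α := X0) h1 h2
    · exact h2
    · exact h1.elim
    · exact h1.elim
    · exact ⟨h1.1, h1.2.trans h2⟩
    · exact h2.elim
    · have h1' : c ≤ d := h1
      have h2' : d ≤ ι (ρ d) ∧ κ (ρ d) ≤ z := h2
      show c ≤ ι (ρ c) ∧ κ (ρ c) ≤ z
      by_cases h3 : ρ c = ρ d
      · rw [h3]
        exact ⟨h1'.trans h2'.1, h2'.2⟩
      · exact ⟨(hcut c d h1' h3).1, ((hκ _ _).2 (hρ h1')).trans h2'.2⟩
    · exact le_trans (α := C) h1 h2
  le_antisymm := by
    rintro (⟨x, hx⟩ | c) (⟨y, hy⟩ | d) h1 h2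
    · have : x = y := le_antisymm (α := X0) h1 h2
      subst this
      rfl
    · exact h1.elim
    · exact h2.elim
    · have : c = d := le_antisymm (α := C) h1 h2
      rw [this]

theorem glue [Finite X0] [Finite C] (A0 B0 : Set X0)
    (hA0 : IsLowerSet A0) (hB0 : IsLowerSet B0) (hcov : A0 ∪ B0 = Set.univ)
    (κ : F → X0) (hκ : ∀ i j, κ i ≤ κ j ↔ i ≤ j) (hran : ∀ x, (x ∈ A0 ∧ x ∈ B0) ↔ ∃ i, κ i = x)
    (fA : FPP A0) (fB : FPP B0) (nX : ¬ FPP X0)
    (ι : F → C) (hι : Monotone ι) (ρ : C → F) (hρ : Monotone ρ) (hρι : ∀ i, ρ (ι i) = i)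
    (hcut : ∀ c c', c ≤ c' → ρ c ≠ ρ c' → c ≤ ι (ρ c) ∧ ι (ρ c') ≤ c') (hC : FPP C) :
    ∃ (X : Type) (_ : PartialOrder X) (_ : Finite X) (A B : Set X),
      IsLowerSet A ∧ IsLowerSet B ∧ A ∪ B = Set.univ ∧ FPP A ∧ FPP B ∧
        Nonempty (↥(A ∩ B) ≃o C) ∧ ¬ FPP X := by
  classical
  let K : X0 → Prop := fun x => ∃ i, κ i = x
  let _ : PartialOrder (Gl X0 C K) := glOrder K κ hκ ι ρ hρ hcut
  have hfin : Finite (Gl X0 C K) := by
    refine Finite.of_injective (β := X0 ⊕ C)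
      (fun g => match g with
        | .out x _ => Sum.inl x
        | .mid c => Sum.inr c) ?_
    rintro (⟨x, hx⟩ | c) (⟨y, hy⟩ | d) h
    · simp only [Sum.inl.injEq] at h
      subst h
      rfl
    · simp at h
    · simp at h
    · simp only [Sum.inr.injEq] at h
      rw [h]
  have κinj : ∀ i j, κ i = κ j → i = j := fun i j h =>
    le_antisymm ((hκ i j).1 h.le) ((hκ j i).1 h.ge)
  let R : Gl X0 C K → X0 := Rt κ ρ
  have hR : Monotone R := by
    rintro (⟨x, hx⟩ | c) (⟨y, hy⟩ | d) h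
    · exact h
    · exact (show False from h).elim
    · exact h.2
    · exact (hκ _ _).2 (hρ h)
  let i : X0 → Gl X0 C K := fun x => if h : K x then .mid (ι h.choose) else .out x h
  have i1 : ∀ j, i (κ j) = .mid (ι j) := by
    intro j
    have h : K (κ j) := ⟨j, rfl⟩
    have h2 : h.choose = j := κinj _ _ h.choose_spec
    simp only [i]
    rw [dif_pos h, h2]
  have i2 : ∀ x (h : ¬ K x), i x = .out x h := by
    intro x h
    simp only [i]
    rw [dif_neg h]
  have hi : Monotone i := by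
    intro x y hxy
    by_cases hx : K x
    · obtain ⟨j, rfl⟩ := hx
      rw [i1]
      by_cases hy : K y
      · obtain ⟨k, rfl⟩ := hy
        rw [i1]
        exact hι ((hκ _ _).1 hxy)
      · rw [i2 y hy]
        show ι j ≤ ι (ρ (ι j)) ∧ κ (ρ (ι j)) ≤ y
        rw [hρι]
        exact ⟨le_rfl, hxy⟩
    · by_cases hy : K y
      · exfalso
        have h2 := (hran y).2 hy
        exact hx ((hran x).1 ⟨hA0 hxy h2.1, hB0 hxy h2.2⟩)
      · rw [i2 x hx, i2 y hy]
        exact hxy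
  have hRi : ∀ x, R (i x) = x := by
    intro x
    by_cases hx : K x
    · obtain ⟨j, rfl⟩ := hx
      rw [i1]
      show κ (ρ (ι j)) = κ j
      rw [hρι]
    · rw [i2 x hx]
      rfl
  have hcut' : ∀ x y : Gl X0 C K, x ≤ y → R x ≠ R y → x ≤ i (R x) ∧ i (R y) ≤ y := by
    rintro (⟨x, hx⟩ | c) (⟨y, hy⟩ | d) h hne
    · have e1 : i (R (.out x hx)) = .out x hx := i2 x hx
      have e2 : i (R (.out y hy)) = .out y hy := i2 y hy
      rw [e1, e2]
      exact ⟨le_rfl, le_rfl⟩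
    · exact (show False from h).elim
    · have e1 : i (R (.mid c)) = .mid (ι (ρ c)) := i1 (ρ c)
      have e2 : i (R (.out y hy)) = .out y hy := i2 y hy
      rw [e1, e2]
      exact ⟨h.1, le_rfl⟩
    · have e1 : i (R (.mid c)) = .mid (ι (ρ c)) := i1 (ρ c)
      have e2 : i (R (.mid d)) = .mid (ι (ρ d)) := i1 (ρ d)
      rw [e1, e2]
      have hne' : ρ c ≠ ρ d := fun h2 => hne (show κ (ρ c) = κ (ρ d) by rw [h2])
      exact hcut c d h hne'
  have hfib : ∀ v, FPP (R ⁻¹' {v} : Set (Gl X0 C K)) := by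
    intro v f hf
    by_cases hv : K v
    · obtain ⟨u, rfl⟩ := hv
      have hm : ∀ c, ρ c = u → Gl.mid c ∈ (R ⁻¹' {κ u} : Set (Gl X0 C K)) := fun c hc => by
        show κ (ρ c) = κ u
        rw [hc]
      have hm' : Gl.mid (ι u) ∈ (R ⁻¹' {κ u} : Set (Gl X0 C K)) := hm _ (hρι u)
      have hback : ∀ g : (R ⁻¹' {κ u} : Set (Gl X0 C K)), ∃ c, ρ c = u ∧ g.1 = .mid c := by
        rintro ⟨(⟨x, hx⟩ | c), hg⟩
        · have : x = κ u := hg
          exact (hx ⟨u, this.symm⟩).elim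
        · exact ⟨c, κinj _ _ hg, rfl⟩
      choose pr hpr1 hpr2 using hback
      let ret : C → (R ⁻¹' {κ u} : Set (Gl X0 C K)) := fun c =>
        if h : ρ c = u then ⟨.mid c, hm c h⟩ else ⟨.mid (ι u), hm'⟩
      have hret : Monotone ret := by
        intro c d hcd
        by_cases h1 : ρ c = u
        · by_cases h2 : ρ d = u
          · simp only [ret, h1, h2, dif_pos]
            exact hcd
          · simp only [ret, h1, h2, dif_pos, dif_neg, not_false_eq_true]
            have := (hcut c d hcd (by rw [h1]; exact fun h => h2 h.symm)).1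
            rw [h1] at this
            exact this
        · by_cases h2 : ρ d = u
          · simp only [ret, h1, h2, dif_pos, dif_neg, not_false_eq_true]
            have := (hcut c d hcd (by rw [h2]; exact h1)).2
            rw [h2] at this
            exact this
          · simp only [ret, h1, h2, dif_neg, not_false_eq_true]
            exact le_rfl
      have hprm : Monotone pr := by
        intro g g' hgg
        have h2 : g.1 ≤ g'.1 := hgg
        rw [hpr2 g, hpr2 g'] at h2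
        exact h2
      obtain ⟨c, hc⟩ := hC (fun c => pr (f (ret c))) (fun a b hab => hprm (hf (hret hab)))
      have hc' : pr (f (ret c)) = c := hc
      have h3 : ρ c = u := by rw [← hc']; exact hpr1 _
      have h4 : ret c = ⟨.mid c, hm c h3⟩ := by simp only [ret, h3, dif_pos]
      refine ⟨ret c, Subtype.ext ?_⟩
      rw [hpr2 (f (ret c)), hc', h4]
    · refine ⟨⟨.out v hv, rfl⟩, Subtype.ext ?_⟩
      obtain ⟨(⟨x, hx⟩ | c), hg⟩ := f ⟨.out v hv, rfl⟩
      · have : x = v := hg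
        subst this
        rfl
      · exact (hv ⟨ρ c, hg⟩).elim
  have hlA : IsLowerSet (R ⁻¹' A0 : Set (Gl X0 C K)) := fun x y hyx hx => hA0 (hR hyx) hx
  have hlB : IsLowerSet (R ⁻¹' B0 : Set (Gl X0 C K)) := fun x y hyx hx => hB0 (hR hyx) hx
  refine ⟨Gl X0 C K, inferInstance, hfin, R ⁻¹' A0, R ⁻¹' B0, hlA, hlB, ?_,
    wedge i R hi hR hRi hcut' A0 fA (fun v _ => hfib v),
    wedge i R hi hR hRi hcut' B0 fB (fun v _ => hfib v), ?_, ?_⟩
  · rw [← Set.preimage_union, hcov, Set.preimage_univ]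
  · have hmid : ∀ c, Gl.mid c ∈ (R ⁻¹' A0 ∩ R ⁻¹' B0 : Set (Gl X0 C K)) := fun c =>
      (hran (κ (ρ c))).2 ⟨ρ c, rfl⟩
    let e : C ↪o ↥(R ⁻¹' A0 ∩ R ⁻¹' B0 : Set (Gl X0 C K)) :=
      OrderEmbedding.ofMapLEIff (fun c => ⟨.mid c, hmid c⟩) (fun c c' => Iff.rfl)
    have hsurj : Function.Surjective e := by
      rintro ⟨(⟨x, hx⟩ | c), hg⟩
      · exact (hx ((hran x).1 hg)).elim
      · exact ⟨c, rfl⟩
    exact ⟨(RelIso.ofSurjective e hsurj).symm⟩
  · intro h
    apply nX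
    intro f hf
    obtain ⟨p, hp⟩ := h (fun x => i (f (R x))) (fun a b hab => hi (hf (hR hab)))
    refine ⟨R p, ?_⟩
    have h2 : i (f (R p)) = p := hp
    have h3 := congrArg R h2
    rw [hRi] at h3
    exact h3

end

end Pool.Agent.Y485.FenceC
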