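import Mathlib
import Pool.Agent.Y485.FenceC

set_option autoImplicit false

/-! Changing the intersection along retractions comparable with the identity. -/

namespace Pool.Agent.Y485.FenceD

open Pool.Agent.Results.MP_67f250_co.UnionOfClosed (FPP)
open Pool.Agent.Y485.FenceA Pool.Agent.Y485.FenceB Pool.Agent.Y485.FenceC

theorem fpp_retract {P Q : Type} [PartialOrder P] [PartialOrder Q] (hQ : FPP Q) (i : P → Q)
    (r : Q → P) (hi : Monotone i) (hr : Monotone r) (h : ∀ x, r (i x) = x) : FPP P := by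
  intro f hf
  obtain ⟨q, hq⟩ := hQ (fun q => i (f (r q))) (fun a b hab => hi (hf (hr hab)))
  refine ⟨r q, ?_⟩
  have h2 : r (i (f (r q))) = r q := congrArg r hq
  rwa [h] at h2

theorem cmp_fpp {X X0 : Type} [PartialOrder X] [PartialOrder X0] [Finite X] (i : X0 → X)
    (R : X → X0) (hi : Monotone i) (hR : Monotone R) (hRi : ∀ x, R (i x) = x)
    (h : (∀ x, i (R x) ≤ x) ∨ (∀ x, x ≤ i (R x))) (S : Set X0) (hS : FPP S) :
    FPP (R ⁻¹' S : Set X) := by
  intro f hf
  have hmem : ∀ s : S, i s ∈ (R ⁻¹' S : Set X) := fun s => by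
    show R (i s) ∈ S
    rw [hRi]; exact s.2
  obtain ⟨v, hv⟩ := hS (fun s => ⟨R (f ⟨i s, hmem s⟩).1, (f ⟨i s, hmem s⟩).2⟩)
    (fun s t hst => hR (hf (show (⟨i s, hmem s⟩ : (R ⁻¹' S : Set X)) ≤ ⟨i t, hmem t⟩ from hi hst)))
  have hv' : R (f ⟨i v, hmem v⟩).1 = v := congrArg Subtype.val hv
  rcases h with h | h
  · refine fix_of_le f hf ⟨i v, hmem v⟩ ?_
    have := h (f ⟨i v, hmem v⟩).1
    rw [hv'] at this
    exact this
  · refine Pool.Agent.H8R2.Mob.fix_of_ge ⟨f, hf⟩ ⟨i v, hmem v⟩ ?_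
    have := h (f ⟨i v, hmem v⟩).1
    rw [hv'] at this
    exact this

section

variable {X0 C F : Type} [PartialOrder X0] [PartialOrder C] [PartialOrder F]

/-- the order of the glued poset -/
def gle2 (κ : F → X0) (ι : F → C) {K : X0 → Prop} : Gl X0 C K → Gl X0 C K → Prop
  | .out x _, .out y _ => x ≤ y
  | .mid c, .mid c' => c ≤ c'
  | .mid c, .out y _ => ∃ d, c ≤ ι d ∧ κ d ≤ y
  | .out _ _, .mid _ => False

/-- the glued poset -/
@[reducible] def glOrder2 (K : X0 → Prop) (κ : F → X0) (ι : F → C) :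
    PartialOrder (Gl X0 C K) where
  le := gle2 κ ι
  le_refl := by
    rintro (⟨x, h⟩ | c)
    · exact le_refl x
    · exact le_refl c
  le_trans := by
    rintro (⟨x, hx⟩ | c) (⟨y, hy⟩ | d) (⟨z, hz⟩ | e) h1 h2
    · exact le_trans (α := X0) h1 h2
    · exact h2
    · exact h1.elim
    · exact h1.elim
    · obtain ⟨u, hu1, hu2⟩ := h1
      exact ⟨u, hu1, hu2.trans h2⟩
    · exact h2.elim
    · obtain ⟨u, hu1, hu2⟩ := h2
      exact ⟨u, le_trans (α := C) h1 hu1, hu2⟩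
    · exact le_trans (α := C) h1 h2
  le_antisymm := by
    rintro (⟨x, hx⟩ | c) (⟨y, hy⟩ | d) h1 h2
    · have : x = y := le_antisymm (α := X0) h1 h2
      subst this
      rfl
    · exact h1.elim
    · exact h2.elim
    · have : c = d := le_antisymm (α := C) h1 h2
      rw [this]

theorem glue2 [Finite X0] [Finite C] (A0 B0 : Set X0)
    (hA0 : IsLowerSet A0) (hB0 : IsLowerSet B0) (hcov : A0 ∪ B0 = Set.univ)
    (κ : F → X0) (hκ : ∀ i j, κ i ≤ κ j ↔ i ≤ j) (hran : ∀ x, (x ∈ A0 ∧ x ∈ B0) ↔ ∃ i, κ i = x)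
    (fA : FPP A0) (fB : FPP B0) (nX : ¬ FPP X0)
    (ι : F → C) (hι : Monotone ι) (ρ : C → F) (hρ : Monotone ρ) (hρι : ∀ i, ρ (ι i) = i)
    (hcmp : (∀ c, ι (ρ c) ≤ c) ∨ (∀ c, c ≤ ι (ρ c))) :
    ∃ (X : Type) (_ : PartialOrder X) (_ : Finite X) (A B : Set X),
      IsLowerSet A ∧ IsLowerSet B ∧ A ∪ B = Set.univ ∧ FPP A ∧ FPP B ∧
        Nonempty (↥(A ∩ B) ≃o C) ∧ ¬ FPP X := by
  classical
  let K : X0 → Prop := fun x => ∃ i, κ i = x
  let _ : PartialOrder (Gl X0 C K) := glOrder2 K κ ι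
  have hfin : Finite (Gl X0 C K) := by
    refine Finite.of_injective (β := X0 ⊕ C)
      (fun g => match g with
        | .out x _ => Sum.inl x
        | .mid c => Sum.inr c) ?_
    rintro (⟨x, hx⟩ | c) (⟨y, hy⟩ | d) h
    · simp only [Sum.inl.injEq] at h
      subst h
      rfl
    · simp at h
    · simp at h
    · simp only [Sum.inr.injEq] at h
      rw [h]
  have κinj : ∀ i j, κ i = κ j → i = j := fun i j h =>
    le_antisymm ((hκ i j).1 h.le) ((hκ j i).1 h.ge)
  let R : Gl X0 C K → X0 := Rt κ ρ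
  have hR : Monotone R := by
    rintro (⟨x, hx⟩ | c) (⟨y, hy⟩ | d) h
    · exact h
    · exact (show False from h).elim
    · obtain ⟨u, hu1, hu2⟩ := h
      have h2 : ρ c ≤ u := by
        have := hρ hu1
        rwa [hρι] at this
      exact ((hκ _ _).2 h2).trans hu2
    · exact (hκ _ _).2 (hρ h)
  let i : X0 → Gl X0 C K := fun x => if h : K x then .mid (ι h.choose) else .out x h
  have i1 : ∀ j, i (κ j) = .mid (ι j) := by
    intro j
    have h : K (κ j) := ⟨j, rfl⟩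
    have h2 : h.choose = j := κinj _ _ h.choose_spec
    simp only [i]
    rw [dif_pos h, h2]
  have i2 : ∀ x (h : ¬ K x), i x = .out x h := by
    intro x h
    simp only [i]
    rw [dif_neg h]
  have hi : Monotone i := by
    intro x y hxy
    by_cases hx : K x
    · obtain ⟨j, rfl⟩ := hx
      rw [i1]
      by_cases hy : K y
      · obtain ⟨k, rfl⟩ := hy
        rw [i1]
        exact hι ((hκ _ _).1 hxy)
      · rw [i2 y hy]
        exact ⟨j, le_rfl, hxy⟩
    · by_cases hy : K y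
      · exfalso
        have h2 := (hran y).2 hy
        exact hx ((hran x).1 ⟨hA0 hxy h2.1, hB0 hxy h2.2⟩)
      · rw [i2 x hx, i2 y hy]
        exact hxy
  have hRi : ∀ x, R (i x) = x := by
    intro x
    by_cases hx : K x
    · obtain ⟨j, rfl⟩ := hx
      rw [i1]
      show κ (ρ (ι j)) = κ j
      rw [hρι]
    · rw [i2 x hx]
      rfl
  have hcmp' : (∀ x, i (R x) ≤ x) ∨ (∀ x, x ≤ i (R x)) := by
    rcases hcmp with h | h
    · left
      rintro (⟨x, hx⟩ | c)
      · have e1 : i (R (.out x hx)) = .out x hx := i2 x hx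
        rw [e1]
      · have e1 : i (R (.mid c)) = .mid (ι (ρ c)) := i1 (ρ c)
        rw [e1]
        exact h c
    · right
      rintro (⟨x, hx⟩ | c)
      · have e1 : i (R (.out x hx)) = .out x hx := i2 x hx
        rw [e1]
      · have e1 : i (R (.mid c)) = .mid (ι (ρ c)) := i1 (ρ c)
        rw [e1]
        exact h c
  have hlA : IsLowerSet (R ⁻¹' A0 : Set (Gl X0 C K)) := fun x y hyx hx => hA0 (hR hyx) hx
  have hlB : IsLowerSet (R ⁻¹' B0 : Set (Gl X0 C K)) := fun x y hyx hx => hB0 (hR hyx) hx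
  refine ⟨Gl X0 C K, inferInstance, hfin, R ⁻¹' A0, R ⁻¹' B0, hlA, hlB, ?_,
    cmp_fpp i R hi hR hRi hcmp' A0 fA, cmp_fpp i R hi hR hRi hcmp' B0 fB, ?_, ?_⟩
  · rw [← Set.preimage_union, hcov, Set.preimage_univ]
  · have hmid : ∀ c, Gl.mid c ∈ (R ⁻¹' A0 ∩ R ⁻¹' B0 : Set (Gl X0 C K)) := fun c =>
      (hran (κ (ρ c))).2 ⟨ρ c, rfl⟩
    let e : C ↪o ↥(R ⁻¹' A0 ∩ R ⁻¹' B0 : Set (Gl X0 C K)) :=
      OrderEmbedding.ofMapLEIff (fun c => ⟨.mid c, hmid c⟩) (fun c c' => Iff.rfl)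
    have hsurj : Function.Surjective e := by
      rintro ⟨(⟨x, hx⟩ | c), hg⟩
      · exact (hx ((hran x).1 hg)).elim
      · exact ⟨c, rfl⟩
    exact ⟨(RelIso.ofSurjective e hsurj).symm⟩
  · intro h
    exact nX (fpp_retract h i R hi hR hRi)

end

/-- Reduction: the total poset, the two closed sets and the intersection can be retracted along
a retraction of the intersection below the identity. -/
theorem down {C D : Type} [PartialOrder C] [PartialOrder D] (ι : D → C) (ρ : C → D)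
    (hι : Monotone ι) (hρ : Monotone ρ) (hρι : ∀ d, ρ (ι d) = d) (hle : ∀ c, ι (ρ c) ≤ c)
    (hD : ∀ (X : Type) [PartialOrder X] [Finite X] (A B : Set X), IsLowerSet A → IsLowerSet B →
      A ∪ B = Set.univ → FPP A → FPP B → Nonempty (↥(A ∩ B) ≃o D) → FPP X)
    (X : Type) [PartialOrder X] [Finite X] (A B : Set X) (hA : IsLowerSet A) (hB : IsLowerSet B)
    (hAB : A ∪ B = Set.univ) (fA : FPP A) (fB : FPP B) (e : ↥(A ∩ B) ≃o C) : FPP X := by
  classical
  let q : X → X := fun x => if h : x ∈ A ∩ B then (e.symm (ι (ρ (e ⟨x, h⟩)))).1 else x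
  have q1 : ∀ x (h : x ∈ A ∩ B), q x = (e.symm (ι (ρ (e ⟨x, h⟩)))).1 := fun x h => by
    simp only [q]; rw [dif_pos h]
  have q2 : ∀ x, x ∉ A ∩ B → q x = x := fun x h => by
    simp only [q]; rw [dif_neg h]
  have qle : ∀ x, q x ≤ x := by
    intro x
    by_cases h : x ∈ A ∩ B
    · rw [q1 x h]
      have := e.symm.monotone (hle (e ⟨x, h⟩))
      rw [OrderIso.symm_apply_apply] at this
      exact this
    · rw [q2 x h]
  have qm : Monotone q := by
    intro x y hxy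
    by_cases hy : y ∈ A ∩ B
    · have hx : x ∈ A ∩ B := ⟨hA hxy hy.1, hB hxy hy.2⟩
      rw [q1 x hx, q1 y hy]
      exact e.symm.monotone (hι (hρ (e.monotone hxy)))
    · rw [q2 y hy]
      exact (qle x).trans hxy
  have qfix : ∀ d, q (e.symm (ι d)).1 = (e.symm (ι d)).1 := by
    intro d
    rw [q1 _ (e.symm (ι d)).2]
    have h2 : (⟨(e.symm (ι d)).1, (e.symm (ι d)).2⟩ : ↥(A ∩ B)) = e.symm (ι d) := rfl
    rw [h2, OrderIso.apply_symm_apply, hρι]
  have qq : ∀ x, q (q x) = q x := by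
    intro x
    by_cases h : x ∈ A ∩ B
    · rw [q1 x h]
      exact qfix _
    · rw [q2 x h, q2 x h]
  have hAB' : ∀ x, x ∈ A ∨ x ∈ B := fun x => by
    have : x ∈ A ∪ B := by rw [hAB]; exact Set.mem_univ x
    exact this
  let X' : Type := {x : X // q x = x}
  let A' : Set X' := {x | x.1 ∈ A}
  let B' : Set X' := {x | x.1 ∈ B}
  have fA' : FPP A' := fpp_retract fA (fun x => ⟨x.1.1, x.2⟩)
    (fun a => ⟨⟨q a.1, qq _⟩, hA (qle _) a.2⟩) (fun _ _ h => h) (fun _ _ h => qm h)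
    (fun x => Subtype.ext (Subtype.ext x.1.2))
  have fB' : FPP B' := fpp_retract fB (fun x => ⟨x.1.1, x.2⟩)
    (fun a => ⟨⟨q a.1, qq _⟩, hB (qle _) a.2⟩) (fun _ _ h => h) (fun _ _ h => qm h)
    (fun x => Subtype.ext (Subtype.ext x.1.2))
  have hX' : FPP X' := by
    refine hD X' A' B' (fun x y hyx hx => hA hyx hx) (fun x y hyx hx => hB hyx hx) ?_ fA' fB' ?_
    · rw [Set.eq_univ_iff_forall]
      exact fun x => hAB' x.1
    · have hιle : ∀ d d', ι d ≤ ι d' ↔ d ≤ d' := fun d d' =>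
        ⟨fun h => by have := hρ h; rwa [hρι, hρι] at this, fun h => hι h⟩
      let e2 : D ↪o ↥(A' ∩ B') := OrderEmbedding.ofMapLEIff
        (fun d => ⟨⟨(e.symm (ι d)).1, qfix d⟩, (e.symm (ι d)).2⟩)
        (fun d d' => by
          show e.symm (ι d) ≤ e.symm (ι d') ↔ d ≤ d'
          rw [OrderIso.le_iff_le, hιle])
      have hsurj : Function.Surjective e2 := by
        rintro ⟨⟨x, hx⟩, hx2⟩
        have hx3 : x ∈ A ∩ B := hx2
        refine ⟨ρ (e ⟨x, hx3⟩), Subtype.ext (Subtype.ext ?_)⟩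
        show (e.symm (ι (ρ (e ⟨x, hx3⟩)))).1 = x
        rw [← q1 x hx3]
        exact hx
      exact ⟨(RelIso.ofSurjective e2 hsurj).symm⟩
  intro f hf
  obtain ⟨p, hp⟩ := hX' (fun x => ⟨q (f x.1), qq _⟩) (fun a b hab => qm (hf hab))
  have hp' : q (f p.1) = p.1 := congrArg Subtype.val hp
  refine fix_of_le f hf p.1 ?_
  have := qle (f p.1)
  rw [hp'] at this
  exact this

end Pool.Agent.Y485.FenceD
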