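import Pool.Agent.Y485.PolyList

/-!
# The explicit polynomials of the counterexample and the identities and inequalities they satisfy

Polynomials in `p = x₀² + x₁²` and `q = x₂²`. All checks are integer computations.
-/

set_option autoImplicit false
set_option maxRecDepth 100000

namespace Pool.Agent.Y485.EData

open PL

/-- the function `ψ` -/
def psi : PL :=
    [(-88267, 0, 0, 0), (-31764, 0, 1, 0), (-516, 0, 2, 0), (3003, 0, 4, 0), (8909, 0, 5, 0),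
    (12153, 0, 6, 0), (31260, 1, 0, 0), (20188, 1, 1, 0), (28425, 1, 2, 0), (34441, 1, 3, 0),
    (23893, 1, 4, 0), (10788, 1, 5, 0), (-25836, 2, 0, 0), (24816, 2, 2, 0), (1877, 2, 4, 0),
    (34157, 3, 1, 0), (43, 3, 2, 0), (1749, 3, 3, 0), (20401, 4, 0, 0), (-9885, 4, 1, 0),
    (-2833, 4, 2, 0), (-9000, 5, 0, 0), (1283, 6, 0, 0)]

/-- the function `ν₁`, a polynomial in `q` -/
def nu : PL :=
    [(-46466, 0, 0, 0), (-37365, 0, 1, 0), (-27148, 0, 2, 0), (-17155, 0, 3, 0), (-15534, 0, 4, 0),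
    (399, 0, 5, 0)]

/-- the function `D₁` -/
def d1 : PL :=
    [(-52275, 0, 0, 0), (-40380, 0, 1, 0), (-28060, 0, 2, 0), (-17779, 0, 3, 0), (-15181, 0, 4, 0),
    (-23112, 1, 0, 0), (-35427, 1, 1, 0), (-20461, 1, 2, 0), (-21285, 1, 3, 0), (-11932, 2, 0, 0),
    (-1219, 2, 2, 0), (-12093, 3, 0, 0)]

/-- the function `C₁` -/
def c1 : PL :=
    [(-59357, 0, 2, 0), (-62458, 0, 3, 0), (-74724, 0, 4, 0), (-31296, 1, 1, 0), (12181, 1, 3, 0),
    (-3605, 2, 1, 0), (-9615, 2, 2, 0), (9864, 3, 0, 0), (6575, 3, 1, 0), (-10, 4, 0, 0)]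

/-- twice the `δ_ij` part of the linearised Ricci tensor -/
def rA : PL :=
    [(372, 0, 0, 0), (178324, 0, 1, 0), (328976, 0, 2, 0), (-70496, 0, 3, 0), (287840, 0, 4, 0),
    (-159804, 0, 5, 0), (1507210, 1, 0, 0), (1485312, 1, 1, 0), (-1408086, 1, 2, 0),
    (1503416, 1, 3, 0), (-1501848, 1, 4, 0), (89302, 2, 0, 0), (-5120352, 2, 1, 0),
    (176646, 2, 2, 0), (-460296, 2, 3, 0), (-5737566, 3, 0, 0), (3200744, 3, 1, 0),
    (1227930, 3, 2, 0), (5477300, 4, 0, 0), (270348, 4, 1, 0), (-1293146, 5, 0, 0)]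

/-- twice the `x_i x_j` part of the linearised Ricci tensor -/
def rB : PL :=
    [(-84020, 0, 0, 0), (-734212, 0, 1, 0), (377258, 0, 2, 0), (-2437808, 0, 3, 0),
    (2107376, 0, 4, 0), (-168564, 1, 0, 0), (985248, 1, 1, 0), (-542262, 1, 2, 0),
    (1143992, 1, 3, 0), (371138, 2, 0, 0), (-80064, 2, 1, 0), (118536, 2, 2, 0),
    (-158580, 3, 0, 0), (-226532, 3, 1, 0), (-2998, 4, 0, 0)]

/-- twice the mixed part of the linearised Ricci tensor -/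
def rC : PL :=
    [(168424, 0, 0, 0), (564828, 0, 1, 0), (-140430, 0, 2, 0), (761064, 0, 3, 0),
    (-509640, 0, 4, 0), (502588, 1, 0, 0), (-1245640, 1, 1, 0), (87894, 1, 2, 0),
    (-524312, 1, 3, 0), (-1477478, 2, 0, 0), (134896, 2, 1, 0), (171252, 2, 2, 0),
    (786660, 3, 0, 0), (532732, 3, 1, 0), (19778, 4, 0, 0)]

/-- twice the `zz` part of the linearised Ricci tensor -/
def rD : PL :=
    [(192, 0, 0, 0), (19800, 0, 1, 0), (93124, 0, 2, 0), (-47372, 0, 3, 0), (195148, 0, 4, 0),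
    (-115752, 0, 5, 0), (384, 1, 0, 0), (226060, 1, 1, 0), (52366, 1, 2, 0), (451832, 1, 3, 0),
    (-372008, 1, 4, 0), (-1552, 2, 0, 0), (-390588, 2, 1, 0), (-593658, 2, 2, 0),
    (-119104, 2, 3, 0), (2358, 3, 0, 0), (28144, 3, 1, 0), (443468, 3, 2, 0), (-1560, 4, 0, 0),
    (116384, 4, 1, 0), (358, 5, 0, 0)]

/-- twice the `δ_ij` part of the linearisation of `ρ - g` -/
def pA : PL :=
    [(187758, 0, 0, 0), (52304, 0, 1, 0), (10826, 0, 2, 0), (5358, 0, 3, 0), (432, 0, 4, 0),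
    (-21880, 0, 5, 0), (-21820, 0, 6, 0), (798, 0, 7, 0), (-216215, 1, 0, 0), (-293626, 1, 1, 0),
    (-414159, 1, 2, 0), (-114321, 1, 3, 0), (-383427, 1, 4, 0), (221428, 1, 5, 0),
    (160992, 1, 6, 0), (-121725, 2, 0, 0), (-228451, 2, 1, 0), (581664, 2, 2, 0),
    (288999, 2, 3, 0), (444001, 2, 4, 0), (138059, 2, 5, 0), (-66972, 3, 0, 0), (695521, 3, 1, 0),
    (146055, 3, 2, 0), (-42490, 3, 3, 0), (10573, 3, 4, 0), (490083, 4, 0, 0), (-156402, 4, 1, 0),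
    (-155009, 4, 2, 0), (15283, 4, 3, 0), (-317792, 5, 0, 0), (-79972, 5, 1, 0), (-26396, 5, 2, 0),
    (35930, 6, 0, 0), (10, 6, 1, 0), (8981, 7, 0, 0)]

/-- twice the `x_i x_j` part of the linearisation of `ρ - g` -/
def pB : PL :=
    [(-244396, 0, 0, 0), (-59724, 0, 1, 0), (55014, 0, 2, 0), (-361256, 0, 3, 0),
    (159494, 0, 4, 0), (-333312, 0, 5, 0), (611376, 1, 0, 0), (150004, 1, 1, 0),
    (-1045216, 1, 2, 0), (29298, 1, 3, 0), (-208348, 1, 4, 0), (1932, 2, 0, 0),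
    (-2019008, 2, 1, 0), (42376, 2, 2, 0), (-26028, 2, 3, 0), (-1631224, 3, 0, 0),
    (946660, 3, 1, 0), (343780, 3, 2, 0), (1079890, 4, 0, 0), (10788, 4, 1, 0), (-215664, 5, 0, 0)]

/-- twice the mixed part of the linearisation of `ρ - g` -/
def pC : PL :=
    [(127152, 0, 0, 0), (30852, 0, 1, 0), (53474, 0, 2, 0), (-24838, 0, 3, 0), (-140766, 0, 4, 0),
    (-301668, 0, 5, 0), (-185946, 1, 0, 0), (-539492, 1, 1, 0), (-824924, 1, 2, 0),
    (-961460, 1, 3, 0), (-358052, 1, 4, 0), (-92786, 2, 0, 0), (-487494, 2, 1, 0),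
    (-113592, 2, 2, 0), (380, 2, 3, 0), (-364900, 3, 0, 0), (-7576, 3, 1, 0), (-34814, 3, 2, 0),
    (118510, 4, 0, 0), (76982, 4, 1, 0), (-120, 5, 0, 0)]

/-- twice the `zz` part of the linearisation of `ρ - g` -/
def pD : PL :=
    [(22448, 0, 0, 0), (-33576, 0, 1, 0), (-19648, 0, 2, 0), (-402, 0, 3, 0), (-18964, 0, 4, 0),
    (20002, 0, 5, 0), (-12676, 0, 6, 0), (798, 0, 7, 0), (-30351, 1, 0, 0), (-54012, 1, 1, 0),
    (92359, 1, 2, 0), (-102403, 1, 3, 0), (-669743, 1, 4, 0), (-1547936, 1, 5, 0),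
    (160992, 1, 6, 0), (55651, 2, 0, 0), (-230111, 2, 1, 0), (-864710, 2, 2, 0),
    (-1116011, 2, 3, 0), (-723067, 2, 4, 0), (138059, 2, 5, 0), (-67616, 3, 0, 0),
    (-246265, 3, 1, 0), (195199, 3, 2, 0), (-66032, 3, 3, 0), (10573, 3, 4, 0), (-69117, 4, 0, 0),
    (217332, 4, 1, 0), (-55091, 4, 2, 0), (15283, 4, 3, 0), (133956, 5, 0, 0), (-40582, 5, 1, 0),
    (-26396, 5, 2, 0), (-53900, 6, 0, 0), (10, 6, 1, 0), (8981, 7, 0, 0)]

/-- `p` -/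
def pp : PL := [(1, 1, 0, 0)]

/-- `q` -/
def qq : PL := [(1, 0, 1, 0)]

/-- `1 - q` -/
def omq : PL := [(1, 0, 0, 0), (-1, 0, 1, 0)]

/-- `1 - p - q` -/
def omr : PL := [(1, 0, 0, 0), (-1, 0, 1, 0), (-1, 1, 0, 0)]

/-- `∂_q ψ` -/
def be : PL := der 1 psi

/-- `ψ + p ∂_p ψ` -/
def ap : PL := mrg psi (mul pp (der 0 psi))

/-- `τ - (1 - q) ν₁ + (1 - p - q) D₁` -/
def dd : PL := mrg [(197, 0, 0, 0)] (mrg (smul (-1) (mul omq nu)) (mul omr d1))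

/-- `2 ν₁ - ∂_q ψ + (1 - p - q) C₁` -/
def cc : PL := mrg (smul 2 nu) (mrg (smul (-1) be) (mul omr c1))

/-- `D + p C + A` -/
def ss : PL := mrg dd (mrg (mul pp cc) ap)

/-- `2 D + p C` -/
def tt : PL := mrg (smul 2 dd) (mul pp cc)

/-- a polynomial in `p, q` as a polynomial in `x` -/
def X (f : PL) : PL := comp [(1, 0, 2, 0), (1, 2, 0, 0)] [(1, 0, 0, 2)] [] f

/-- the component `0 0` of the linearised metric, expanded -/
def h00 : PL :=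
    [(-93879, 0, 0, 0), (-28970, 0, 0, 2), (1587, 0, 0, 4), (288, 0, 0, 6), (3980, 0, 0, 8),
    (8157, 0, 0, 10), (12552, 0, 0, 12), (30515, 0, 2, 0), (-5257, 0, 2, 2), (-13777, 0, 2, 4),
    (36414, 0, 2, 6), (-3627, 0, 2, 8), (24180, 0, 2, 10), (-86516, 0, 4, 0), (-40787, 0, 4, 2),
    (81020, 0, 4, 4), (1571, 0, 4, 6), (14234, 0, 4, 8), (-161, 0, 6, 0), (126780, 0, 6, 2),
    (-4619, 0, 6, 4), (-3078, 0, 6, 6), (89805, 0, 8, 0), (-49195, 0, 8, 2), (-16372, 0, 8, 4),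
    (-53989, 0, 10, 0), (-899, 0, 10, 2), (8991, 0, 12, 0), (91683, 2, 0, 0), (68441, 2, 0, 2),
    (99876, 2, 0, 4), (85837, 2, 0, 6), (84252, 2, 0, 8), (21576, 2, 0, 10), (-152844, 2, 2, 0),
    (6572, 2, 2, 2), (174710, 2, 2, 4), (24075, 2, 2, 6), (19865, 2, 2, 8), (-483, 2, 4, 0),
    (402281, 2, 4, 2), (-7847, 2, 4, 4), (840, 2, 4, 6), (383513, 2, 6, 0), (-197010, 2, 6, 2),
    (-63281, 2, 6, 4), (-269956, 2, 8, 0), (-3596, 2, 8, 2), (53936, 2, 10, 0), (-66328, 4, 0, 0),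
    (47359, 4, 0, 2), (93690, 4, 0, 4), (22504, 4, 0, 6), (5631, 4, 0, 8), (-483, 4, 2, 0),
    (424222, 4, 2, 2), (-1837, 4, 2, 4), (10914, 4, 2, 6), (611709, 4, 4, 0), (-295860, 4, 4, 2),
    (-91611, 4, 4, 4), (-539934, 4, 6, 0), (-5394, 4, 6, 2), (134815, 4, 8, 0), (-161, 6, 0, 0),
    (148721, 6, 0, 2), (1391, 6, 0, 4), (6996, 6, 0, 6), (432099, 6, 2, 0), (-197470, 6, 2, 2),
    (-58867, 6, 2, 4), (-539956, 6, 4, 0), (-3596, 6, 4, 2), (179720, 6, 6, 0), (114098, 8, 0, 0),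
    (-49425, 8, 0, 2), (-14165, 8, 0, 4), (-269989, 8, 2, 0), (-899, 8, 2, 2), (134765, 8, 4, 0),
    (-54000, 10, 0, 0), (53896, 10, 2, 0), (8981, 12, 0, 0)]

/-- the component `1 1` of the linearised metric, expanded -/
def h11 : PL :=
    [(-93879, 0, 0, 0), (-28970, 0, 0, 2), (1587, 0, 0, 4), (288, 0, 0, 6), (3980, 0, 0, 8),
    (8157, 0, 0, 10), (12552, 0, 0, 12), (91683, 0, 2, 0), (68441, 0, 2, 2), (99876, 0, 2, 4),
    (85837, 0, 2, 6), (84252, 0, 2, 8), (21576, 0, 2, 10), (-66328, 0, 4, 0), (47359, 0, 4, 2),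
    (93690, 0, 4, 4), (22504, 0, 4, 6), (5631, 0, 4, 8), (-161, 0, 6, 0), (148721, 0, 6, 2),
    (1391, 0, 6, 4), (6996, 0, 6, 6), (114098, 0, 8, 0), (-49425, 0, 8, 2), (-14165, 0, 8, 4),
    (-54000, 0, 10, 0), (8981, 0, 12, 0), (30515, 2, 0, 0), (-5257, 2, 0, 2), (-13777, 2, 0, 4),
    (36414, 2, 0, 6), (-3627, 2, 0, 8), (24180, 2, 0, 10), (-152844, 2, 2, 0), (6572, 2, 2, 2),
    (174710, 2, 2, 4), (24075, 2, 2, 6), (19865, 2, 2, 8), (-483, 2, 4, 0), (424222, 2, 4, 2),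
    (-1837, 2, 4, 4), (10914, 2, 4, 6), (432099, 2, 6, 0), (-197470, 2, 6, 2), (-58867, 2, 6, 4),
    (-269989, 2, 8, 0), (-899, 2, 8, 2), (53896, 2, 10, 0), (-86516, 4, 0, 0), (-40787, 4, 0, 2),
    (81020, 4, 0, 4), (1571, 4, 0, 6), (14234, 4, 0, 8), (-483, 4, 2, 0), (402281, 4, 2, 2),
    (-7847, 4, 2, 4), (840, 4, 2, 6), (611709, 4, 4, 0), (-295860, 4, 4, 2), (-91611, 4, 4, 4),
    (-539956, 4, 6, 0), (-3596, 4, 6, 2), (134765, 4, 8, 0), (-161, 6, 0, 0), (126780, 6, 0, 2),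
    (-4619, 6, 0, 4), (-3078, 6, 0, 6), (383513, 6, 2, 0), (-197010, 6, 2, 2), (-63281, 6, 2, 4),
    (-539934, 6, 4, 0), (-5394, 6, 4, 2), (179720, 6, 6, 0), (89805, 8, 0, 0), (-49195, 8, 0, 2),
    (-16372, 8, 0, 4), (-269956, 8, 2, 0), (-3596, 8, 2, 2), (134815, 8, 4, 0), (-53989, 10, 0, 0),
    (-899, 10, 0, 2), (53936, 10, 2, 0), (8991, 12, 0, 0)]

/-- the component `0 1` of the linearised metric, expanded -/
def h01 : PL :=
    [(61168, 1, 1, 0), (73698, 1, 1, 2), (113653, 1, 1, 4), (49423, 1, 1, 6), (87879, 1, 1, 8),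
    (-2604, 1, 1, 10), (20188, 1, 3, 0), (88146, 1, 3, 2), (12670, 1, 3, 4), (20933, 1, 3, 6),
    (-8603, 1, 3, 8), (21941, 1, 5, 2), (6010, 1, 5, 4), (10074, 1, 5, 6), (24293, 1, 7, 0),
    (-230, 1, 7, 2), (2207, 1, 7, 4), (-11, 1, 9, 0), (899, 1, 9, 2), (-10, 1, 11, 0),
    (20188, 3, 1, 0), (88146, 3, 1, 2), (12670, 3, 1, 4), (20933, 3, 1, 6), (-8603, 3, 1, 8),
    (43882, 3, 3, 2), (12020, 3, 3, 4), (20148, 3, 3, 6), (72879, 3, 5, 0), (-690, 3, 5, 2),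
    (6621, 3, 5, 4), (-44, 3, 7, 0), (3596, 3, 7, 2), (-50, 3, 9, 0), (21941, 5, 1, 2),
    (6010, 5, 1, 4), (10074, 5, 1, 6), (72879, 5, 3, 0), (-690, 5, 3, 2), (6621, 5, 3, 4),
    (-66, 5, 5, 0), (5394, 5, 5, 2), (-100, 5, 7, 0), (24293, 7, 1, 0), (-230, 7, 1, 2),
    (2207, 7, 1, 4), (-44, 7, 3, 0), (3596, 7, 3, 2), (-100, 7, 5, 0), (-11, 9, 1, 0),
    (899, 9, 1, 2), (-50, 9, 3, 0), (-10, 11, 1, 0)]

/-- the component `0 2` of the linearised metric, expanded -/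
def h02 : PL :=
    [(-31764, 1, 0, 1), (-1032, 1, 0, 3), (12012, 1, 0, 7), (44545, 1, 0, 9), (72918, 1, 0, 11),
    (20188, 1, 2, 1), (56850, 1, 2, 3), (103323, 1, 2, 5), (95572, 1, 2, 7), (53940, 1, 2, 9),
    (49632, 1, 4, 3), (7508, 1, 4, 7), (34157, 1, 6, 1), (86, 1, 6, 3), (5247, 1, 6, 5),
    (-9885, 1, 8, 1), (-5666, 1, 8, 3), (20188, 3, 0, 1), (56850, 3, 0, 3), (103323, 3, 0, 5),
    (95572, 3, 0, 7), (53940, 3, 0, 9), (99264, 3, 2, 3), (15016, 3, 2, 7), (102471, 3, 4, 1),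
    (258, 3, 4, 3), (15741, 3, 4, 5), (-39540, 3, 6, 1), (-22664, 3, 6, 3), (49632, 5, 0, 3),
    (7508, 5, 0, 7), (102471, 5, 2, 1), (258, 5, 2, 3), (15741, 5, 2, 5), (-59310, 5, 4, 1),
    (-33996, 5, 4, 3), (34157, 7, 0, 1), (86, 7, 0, 3), (5247, 7, 0, 5), (-39540, 7, 2, 1),
    (-22664, 7, 2, 3), (-9885, 9, 0, 1), (-5666, 9, 0, 3)]

/-- the component `1 2` of the linearised metric, expanded -/
def h12 : PL :=
    [(-31764, 0, 1, 1), (-1032, 0, 1, 3), (12012, 0, 1, 7), (44545, 0, 1, 9), (72918, 0, 1, 11),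
    (20188, 0, 3, 1), (56850, 0, 3, 3), (103323, 0, 3, 5), (95572, 0, 3, 7), (53940, 0, 3, 9),
    (49632, 0, 5, 3), (7508, 0, 5, 7), (34157, 0, 7, 1), (86, 0, 7, 3), (5247, 0, 7, 5),
    (-9885, 0, 9, 1), (-5666, 0, 9, 3), (20188, 2, 1, 1), (56850, 2, 1, 3), (103323, 2, 1, 5),
    (95572, 2, 1, 7), (53940, 2, 1, 9), (99264, 2, 3, 3), (15016, 2, 3, 7), (102471, 2, 5, 1),
    (258, 2, 5, 3), (15741, 2, 5, 5), (-39540, 2, 7, 1), (-22664, 2, 7, 3), (49632, 4, 1, 3),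
    (7508, 4, 1, 7), (102471, 4, 3, 1), (258, 4, 3, 3), (15741, 4, 3, 5), (-59310, 4, 5, 1),
    (-33996, 4, 5, 3), (34157, 6, 1, 1), (86, 6, 1, 3), (5247, 6, 1, 5), (-39540, 6, 3, 1),
    (-22664, 6, 3, 3), (-9885, 8, 1, 1), (-5666, 8, 1, 3)]

/-- the component `2 2` of the linearised metric, expanded -/
def h22 : PL :=
    [(-11224, 0, 0, 0), (5588, 0, 0, 2), (4206, 0, 0, 4), (576, 0, 0, 6), (1954, 0, 0, 8),
    (-1504, 0, 0, 10), (798, 0, 0, 12), (-2842, 0, 2, 0), (-17568, 0, 2, 2), (-27601, 0, 2, 4),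
    (-15513, 0, 2, 6), (-14947, 0, 2, 8), (2604, 0, 2, 10), (2172, 0, 4, 0), (6572, 0, 4, 2),
    (25814, 0, 4, 4), (24075, 0, 4, 6), (8603, 0, 4, 8), (-322, 0, 6, 0), (2245, 0, 6, 2),
    (-3572, 0, 6, 4), (-10074, 0, 6, 6), (-107, 0, 8, 0), (230, 0, 8, 2), (-2207, 0, 8, 4),
    (11, 0, 10, 0), (-899, 0, 10, 2), (10, 0, 12, 0), (-2842, 2, 0, 0), (-17568, 2, 0, 2),
    (-27601, 2, 0, 4), (-15513, 2, 0, 6), (-14947, 2, 0, 8), (2604, 2, 0, 10), (4344, 2, 2, 0),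
    (13144, 2, 2, 2), (51628, 2, 2, 4), (48150, 2, 2, 6), (17206, 2, 2, 8), (-966, 2, 4, 0),
    (6735, 2, 4, 2), (-10716, 2, 4, 4), (-30222, 2, 4, 6), (-428, 2, 6, 0), (920, 2, 6, 2),
    (-8828, 2, 6, 4), (55, 2, 8, 0), (-4495, 2, 8, 2), (60, 2, 10, 0), (2172, 4, 0, 0),
    (6572, 4, 0, 2), (25814, 4, 0, 4), (24075, 4, 0, 6), (8603, 4, 0, 8), (-966, 4, 2, 0),
    (6735, 4, 2, 2), (-10716, 4, 2, 4), (-30222, 4, 2, 6), (-642, 4, 4, 0), (1380, 4, 4, 2),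
    (-13242, 4, 4, 4), (110, 4, 6, 0), (-8990, 4, 6, 2), (150, 4, 8, 0), (-322, 6, 0, 0),
    (2245, 6, 0, 2), (-3572, 6, 0, 4), (-10074, 6, 0, 6), (-428, 6, 2, 0), (920, 6, 2, 2),
    (-8828, 6, 2, 4), (110, 6, 4, 0), (-8990, 6, 4, 2), (200, 6, 6, 0), (-107, 8, 0, 0),
    (230, 8, 0, 2), (-2207, 8, 0, 4), (55, 8, 2, 0), (-4495, 8, 2, 2), (150, 8, 4, 0),
    (11, 10, 0, 0), (-899, 10, 0, 2), (60, 10, 2, 0), (10, 12, 0, 0)]


theorem h00_eq : peq h00 (mrg (mul [(-1, 2, 0, 0)] (X cc)) (X ss)) = true := by decide +kernel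
theorem h11_eq : peq h11 (mrg (mul [(-1, 0, 2, 0)] (X cc)) (X ss)) = true := by decide +kernel
theorem h01_eq : peq h01 (mul [(-1, 1, 1, 0)] (X cc)) = true := by decide +kernel
theorem h02_eq : peq h02 (mul [(1, 1, 0, 1)] (X be)) = true := by decide +kernel
theorem h12_eq : peq h12 (mul [(1, 0, 1, 1)] (X be)) = true := by decide +kernel
theorem h22_eq : peq h22 (X tt) = true := by decide +kernel

/-- the linearised metric -/
def H (i j : Fin 3) : PL :=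
  match i, j with
  | 0, 0 => h00
  | 0, 1 => h01
  | 1, 0 => h01
  | 1, 1 => h11
  | 0, 2 => h02
  | 2, 0 => h02
  | 1, 2 => h12
  | 2, 1 => h12
  | 2, 2 => h22

/-- twice the linearised Christoffel symbols -/
def G2 (k i j : Fin 3) : PL :=
  mrg (der i (H k j)) (mrg (der j (H k i)) (smul (-1) (der k (H i j))))

/-- twice the linearised Ricci tensor -/
def R2 (i j : Fin 3) : PL :=
  mrg (mrg (der 0 (G2 0 i j)) (smul (-1) (der j (G2 0 i 0))))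
    (mrg (mrg (der 1 (G2 1 i j)) (smul (-1) (der j (G2 1 i 1))))
      (mrg (der 2 (G2 2 i j)) (smul (-1) (der j (G2 2 i 2)))))

theorem R2_00 : peq (R2 0 0) (mrg (X rA) (mul [(1, 2, 0, 0)] (X rB))) = true := by decide +kernel
theorem R2_11 : peq (R2 1 1) (mrg (X rA) (mul [(1, 0, 2, 0)] (X rB))) = true := by decide +kernel
theorem R2_01 : peq (R2 0 1) (mul [(1, 1, 1, 0)] (X rB)) = true := by decide +kernel
theorem R2_10 : peq (R2 1 0) (mul [(1, 1, 1, 0)] (X rB)) = true := by decide +kernel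
theorem R2_02 : peq (R2 0 2) (mul [(1, 1, 0, 1)] (X rC)) = true := by decide +kernel
theorem R2_20 : peq (R2 2 0) (mul [(1, 1, 0, 1)] (X rC)) = true := by decide +kernel
theorem R2_12 : peq (R2 1 2) (mul [(1, 0, 1, 1)] (X rC)) = true := by decide +kernel
theorem R2_21 : peq (R2 2 1) (mul [(1, 0, 1, 1)] (X rC)) = true := by decide +kernel
theorem R2_22 : peq (R2 2 2) (X rD) = true := by decide +kernel

/-- `x_m` as a polynomial -/
def xv (m : Fin 3) : PL :=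
  match m with
  | 0 => [(1, 1, 0, 0)]
  | 1 => [(1, 0, 1, 0)]
  | 2 => [(1, 0, 0, 1)]

/-- `xᵀ H x` -/
def xhx : PL :=
  mrg (mrg (mul (xv 0) (mrg (mul (xv 0) (H 0 0)) (mrg (mul (xv 1) (H 0 1)) (mul (xv 2) (H 0 2)))))
    (mul (xv 1) (mrg (mul (xv 0) (H 1 0)) (mrg (mul (xv 1) (H 1 1)) (mul (xv 2) (H 1 2))))))
    (mul (xv 2) (mrg (mul (xv 0) (H 2 0)) (mrg (mul (xv 1) (H 2 1)) (mul (xv 2) (H 2 2)))))

/-- twice the linearisation of `ρ - g`, without the term `xᵀ H x δ_ij` -/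
def Q2 (i j : Fin 3) : PL :=
  mrg (smul (-1) (mrg (mul (xv 0) (G2 0 i j)) (mrg (mul (xv 1) (G2 1 i j)) (mul (xv 2) (G2 2 i j)))))
    (smul (-2) (H i j))

theorem Q2_00 : peq (mrg xhx (Q2 0 0)) (mrg (X pA) (mul [(1, 2, 0, 0)] (X pB))) = true := by
  decide +kernel
theorem Q2_11 : peq (mrg xhx (Q2 1 1)) (mrg (X pA) (mul [(1, 0, 2, 0)] (X pB))) = true := by
  decide +kernel
theorem Q2_01 : peq (Q2 0 1) (mul [(1, 1, 1, 0)] (X pB)) = true := by decide +kernel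
theorem Q2_10 : peq (Q2 1 0) (mul [(1, 1, 1, 0)] (X pB)) = true := by decide +kernel
theorem Q2_02 : peq (Q2 0 2) (mul [(1, 1, 0, 1)] (X pC)) = true := by decide +kernel
theorem Q2_20 : peq (Q2 2 0) (mul [(1, 1, 0, 1)] (X pC)) = true := by decide +kernel
theorem Q2_12 : peq (Q2 1 2) (mul [(1, 0, 1, 1)] (X pC)) = true := by decide +kernel
theorem Q2_21 : peq (Q2 2 1) (mul [(1, 0, 1, 1)] (X pC)) = true := by decide +kernel
theorem Q2_22 : peq (mrg xhx (Q2 2 2)) (X pD) = true := by decide +kernel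

/-! ### Positivity -/

/-- `p + q + r` -/
def one3 : PL := [(1, 0, 0, 1), (1, 0, 1, 0), (1, 1, 0, 0)]

/-- `p + q` -/
def one2 : PL := [(1, 0, 1, 0), (1, 1, 0, 0)]

theorem rA_pos : isNN (homog one3 5 (mrg [(-1, 0, 0, 0)] rA)) = true := by decide +kernel

theorem rD_pos : isNN (homog one3 5 (mrg [(-1, 0, 0, 0)] rD)) = true := by decide +kernel

/-- the determinant -/
def rdet : PL :=
  mrg (mul (mrg rA (mul pp rB)) rD) (smul (-1) (mul (mul pp qq) (mul rC rC)))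

theorem rdet_pos : isNN (homog one3 10 (mrg [(-1, 0, 0, 0)] rdet)) = true := by decide +kernel

theorem pA_pos : isNN (homog one2 8 (mrg [(-1, 0, 0, 0)] pA)) = true := by decide +kernel

/-- `a + p (d - a + q b - 2 q c)` -/
def pE : PL :=
  mrg pA (mul pp (mrg (mrg pD (smul (-1) pA)) (mrg (mul qq pB) (smul (-2) (mul qq pC)))))

theorem pE_pos : isNN (homog one2 8 (mrg [(-1, 0, 0, 0)] pE)) = true := by decide +kernel

/-- harmonicity of the third coordinate -/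
theorem harm : isZero (mrg (mrg (der 0 (mul [(-1, 1, 0, 1)] (X be)))
    (der 1 (mul [(-1, 0, 1, 1)] (X be)))) (der 2 (X ap))) = true := by decide +kernel

/-- the relation defining `ν₁` on the sphere -/
theorem nu_rel : peq (homog one2 7 (mul pp nu))
    (homog one2 7 (mrg (mrg ap (mul qq be)) [(-197, 0, 0, 0)])) = true := by decide +kernel

end Pool.Agent.Y485.EData
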