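import Pool.Agent.Y485.FromB
import Pool.Agent.Y485.EData

/-!
# The counterexample to Escobar's conjecture
-/

set_option autoImplicit false

namespace Pool.Agent.Y485

open scoped ContDiff Topology
open Set Filter PL EData

/-- the point `(p, q)` -/
noncomputable def pq (x : V3) : V3 := ![x 0 ^ 2 + x 1 ^ 2, x 2 ^ 2, 0]

/-- a polynomial in `p, q` as a function of `x` -/
noncomputable def P (f : PL) (x : V3) : ℝ := ev f (pq x)

theorem ev_X (f : PL) (x : V3) : ev (X f) x = P f x := by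
  have h0 : ev [(1, 0, 2, 0), (1, 2, 0, 0)] x = x 0 ^ 2 + x 1 ^ 2 := by
    simp [ev_cons, mv]; ring
  have h1 : ev [(1, 0, 0, 2)] x = x 2 ^ 2 := by
    simp [ev_cons, mv]
  rw [X, ev_comp, h0, h1]
  rfl

theorem P_fun (f : PL) : (fun x => P f x) = fun x => ev (X f) x := by
  funext x; rw [ev_X]

theorem contDiff_P (f : PL) : ContDiff ℝ ∞ (fun x => P f x) := by
  rw [P_fun]
  exact (contDiff_ev _).of_le le_top

theorem P_mrg (f g : PL) (x : V3) : P (mrg f g) x = P f x + P g x := ev_mrg _ _ _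
theorem P_mul (f g : PL) (x : V3) : P (mul f g) x = P f x * P g x := ev_mul _ _ _
theorem P_smul (c : ℤ) (f : PL) (x : V3) : P (smul c f) x = c * P f x := ev_smul _ _ _
theorem P_pp (x : V3) : P pp x = x 0 ^ 2 + x 1 ^ 2 := by simp [P, pp, ev_cons, mv, pq]
theorem P_qq (x : V3) : P qq x = x 2 ^ 2 := by simp [P, qq, ev_cons, mv, pq]
theorem P_omq (x : V3) : P omq x = 1 - x 2 ^ 2 := by
  simp [P, omq, ev_cons, mv, pq]; ring
theorem P_omr (x : V3) : P omr x = 1 - x 0 ^ 2 - x 1 ^ 2 - x 2 ^ 2 := by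
  simp [P, omr, ev_cons, mv, pq]; ring
theorem P_tau (x : V3) : P [(197, 0, 0, 0)] x = 197 := by simp [P, ev_cons, mv]

theorem P_dd (x : V3) : P dd x = 197 - (1 - x 2 ^ 2) * P nu x +
    (1 - x 0 ^ 2 - x 1 ^ 2 - x 2 ^ 2) * P d1 x := by
  rw [dd, P_mrg, P_mrg, P_smul, P_mul, P_mul, P_omq, P_omr, P_tau]
  push_cast
  ring

theorem P_cc (x : V3) : P cc x = 2 * P nu x - P be x +
    (1 - x 0 ^ 2 - x 1 ^ 2 - x 2 ^ 2) * P c1 x := by
  rw [cc, P_mrg, P_mrg, P_smul, P_smul, P_mul, P_omr]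
  push_cast
  ring

theorem P_ss (x : V3) : P ss x = P dd x + (x 0 ^ 2 + x 1 ^ 2) * P cc x + P ap x := by
  rw [ss, P_mrg, P_mrg, P_mul, P_pp]
  ring

theorem P_tt (x : V3) : P tt x = 2 * P dd x + (x 0 ^ 2 + x 1 ^ 2) * P cc x := by
  rw [tt, P_mrg, P_smul, P_mul, P_pp]
  push_cast
  ring

/-! ### The family -/

/-- `κ = 1 + τ ε` -/
noncomputable def kap (ε : ℝ) : ℝ := 1 + ε * 197

/-- the denominator of `θ` -/
noncomputable def den (ε : ℝ) (x : V3) : ℝ := kap ε + ε * ((1 - x 2 ^ 2) * P nu x)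

/-- `θ` -/
noncomputable def th (ε : ℝ) (x : V3) : ℝ := kap ε / den ε x

/-- `(𝒟 - 1) / ε` -/
noncomputable def fd (ε : ℝ) (x : V3) : ℝ :=
  197 - (1 - x 2 ^ 2) * P nu x * th ε x + (1 - x 0 ^ 2 - x 1 ^ 2 - x 2 ^ 2) * P d1 x

/-- `𝒞 / ε` -/
noncomputable def fc (ε : ℝ) (x : V3) : ℝ :=
  P nu x * (1 + th ε x) - P be x + (1 - x 0 ^ 2 - x 1 ^ 2 - x 2 ^ 2) * P c1 x

/-- the matrix `b` -/
noncomputable def bb (i j : Fin 3) : ℝ → V3 → ℝ :=
  match i, j with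
  | 0, 0 => fun ε x => fd ε x + x 0 ^ 2 * fc ε x
  | 0, 1 => fun ε x => x 0 * x 1 * fc ε x
  | 1, 0 => fun ε x => x 0 * x 1 * fc ε x
  | 1, 1 => fun ε x => fd ε x + x 1 ^ 2 * fc ε x
  | 0, 2 => fun _ x => -(x 0 * x 2 * P be x)
  | 2, 0 => fun _ x => -(x 0 * x 2 * P be x)
  | 1, 2 => fun _ x => -(x 1 * x 2 * P be x)
  | 2, 1 => fun _ x => -(x 1 * x 2 * P be x)
  | 2, 2 => fun _ x => P ap x

theorem bb_symm (i j : Fin 3) : bb i j = bb j i := by
  fin_cases i <;> fin_cases j <;> rfl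

/-- the domain of smoothness -/
def W1 : Set (ℝ × V3) := {z | 0 < kap z.1 ∧ 0 < den z.1 z.2}

theorem sm_P {W : Set (ℝ × V3)} (f : PL) : Sm W (fun _ x => P f x) := Sm.of_contDiff (contDiff_P f)

theorem sm_kap {W : Set (ℝ × V3)} : Sm W (fun ε _ => kap ε) :=
  (Sm.const 1).add (Sm.eps.mul (Sm.const 197))

theorem sm_den {W : Set (ℝ × V3)} : Sm W den :=
  sm_kap.add (Sm.eps.mul (((Sm.const 1).sub
    (Sm.of_contDiff (by fun_prop : ContDiff ℝ ∞ fun x : V3 => x 2 ^ 2))).mul (sm_P nu)))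

theorem isOpen_W1 : IsOpen W1 := by
  have h1 : Continuous fun z : ℝ × V3 => kap z.1 := by
    have := (sm_kap (W := univ)).continuousOn
    exact continuousOn_univ.1 this
  have h2 : Continuous fun z : ℝ × V3 => den z.1 z.2 := by
    have := (sm_den (W := univ)).continuousOn
    exact continuousOn_univ.1 this
  exact (isOpen_lt continuous_const h1).inter (isOpen_lt continuous_const h2)

theorem sm_th : Sm W1 th := Sm.div sm_kap sm_den fun _ hz => hz.2.ne'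

theorem sm_fd : Sm W1 fd := by
  refine ((Sm.const 197).sub ((Sm.of_contDiff ?_).mul sm_th)).add (Sm.of_contDiff ?_)
  · exact (by fun_prop : ContDiff ℝ ∞ fun x : V3 => 1 - x 2 ^ 2).mul (contDiff_P nu)
  · exact (by fun_prop : ContDiff ℝ ∞ fun x : V3 => 1 - x 0 ^ 2 - x 1 ^ 2 - x 2 ^ 2).mul
      (contDiff_P d1)

theorem sm_fc : Sm W1 fc := by
  refine (((sm_P nu).mul ((Sm.const 1).add sm_th)).sub (sm_P be)).add (Sm.of_contDiff ?_)
  exact (by fun_prop : ContDiff ℝ ∞ fun x : V3 => 1 - x 0 ^ 2 - x 1 ^ 2 - x 2 ^ 2).mul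
      (contDiff_P c1)

theorem sm_bb (i j : Fin 3) : Sm W1 (bb i j) := by
  have s2 (i : Fin 3) : Sm W1 (fun _ x => x i ^ 2) := Sm.of_contDiff (by fun_prop)
  have sxy (i j : Fin 3) : Sm W1 (fun _ x => x i * x j) := Sm.of_contDiff (by fun_prop)
  have h00 : Sm W1 (bb 0 0) := sm_fd.add ((s2 0).mul sm_fc)
  have h11 : Sm W1 (bb 1 1) := sm_fd.add ((s2 1).mul sm_fc)
  have h01 : Sm W1 (bb 0 1) := (sxy 0 1).mul sm_fc
  have h02 : Sm W1 (bb 0 2) := ((sxy 0 2).mul (sm_P be)).neg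
  have h12 : Sm W1 (bb 1 2) := ((sxy 1 2).mul (sm_P be)).neg
  have h22 : Sm W1 (bb 2 2) := sm_P ap
  fin_cases i <;> fin_cases j <;> assumption

/-- the domain of the family -/
def WW : Set (ℝ × V3) := WD bb W1

theorem zero_mem (x : V3) : ((0 : ℝ), x) ∈ WW := by
  refine ⟨⟨?_, ?_⟩, ?_⟩
  · simp [kap]
  · simp [den, kap]
  · simp [DtR]

theorem DtR_ne : ∀ z ∈ WW, DtR z.1 (fun i j => bb i j z.1 z.2) ≠ 0 := by
  intro z hz
  have : 0 < DtR z.1 (fun i j => bb i j z.1 z.2) := hz.2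
  exact this.ne'

/-! ### First order data -/

theorem th_zero (x : V3) : th 0 x = 1 := by simp [th, den, kap]

theorem fd_zero (x : V3) : fd 0 x = P dd x := by
  rw [fd, th_zero, P_dd]; ring

theorem fc_zero (x : V3) : fc 0 x = P cc x := by
  rw [fc, th_zero, P_cc]; ring

theorem kk00 : kd 0 0 = 1 := if_pos rfl
theorem kk11 : kd 1 1 = 1 := if_pos rfl
theorem kk22 : kd 2 2 = 1 := if_pos rfl
theorem kk01 : kd 0 1 = 0 := if_neg (by decide)
theorem kk02 : kd 0 2 = 0 := if_neg (by decide)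
theorem kk12 : kd 1 2 = 0 := if_neg (by decide)
theorem kk10 : kd 1 0 = 0 := if_neg (by decide)
theorem kk20 : kd 2 0 = 0 := if_neg (by decide)
theorem kk21 : kd 2 1 = 0 := if_neg (by decide)

theorem ev_h00 (x : V3) : ev h00 x = P ss x - x 0 ^ 2 * P cc x := by
  rw [ev_peq h00_eq, ev_mrg, ev_mul, ev_X, ev_X]
  simp [ev_cons, mv]; ring

theorem ev_h11 (x : V3) : ev h11 x = P ss x - x 1 ^ 2 * P cc x := by
  rw [ev_peq h11_eq, ev_mrg, ev_mul, ev_X, ev_X]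
  simp [ev_cons, mv]; ring

theorem ev_h01 (x : V3) : ev h01 x = -(x 0 * x 1 * P cc x) := by
  rw [ev_peq h01_eq, ev_mul, ev_X]
  simp [ev_cons, mv]

theorem ev_h02 (x : V3) : ev h02 x = x 0 * x 2 * P be x := by
  rw [ev_peq h02_eq, ev_mul, ev_X]
  simp [ev_cons, mv]

theorem ev_h12 (x : V3) : ev h12 x = x 1 * x 2 * P be x := by
  rw [ev_peq h12_eq, ev_mul, ev_X]
  simp [ev_cons, mv]

theorem ev_h22 (x : V3) : ev h22 x = P tt x := by
  rw [ev_peq h22_eq, ev_X]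

theorem KB_zero (i j : Fin 3) (x : V3) : KB bb i j 0 x = ev (H i j) x := by
  have hb00 : bb 0 0 0 x = P dd x + x 0 ^ 2 * P cc x := by
    simp only [bb, fd_zero, fc_zero]
  have hb11 : bb 1 1 0 x = P dd x + x 1 ^ 2 * P cc x := by
    simp only [bb, fd_zero, fc_zero]
  have hb01 : bb 0 1 0 x = x 0 * x 1 * P cc x := by
    simp only [bb, fc_zero]
  have hb10 : bb 1 0 0 x = x 0 * x 1 * P cc x := by
    simp only [bb, fc_zero]
  have hb02 : bb 0 2 0 x = -(x 0 * x 2 * P be x) := rfl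
  have hb20 : bb 2 0 0 x = -(x 0 * x 2 * P be x) := rfl
  have hb12 : bb 1 2 0 x = -(x 1 * x 2 * P be x) := rfl
  have hb21 : bb 2 1 0 x = -(x 1 * x 2 * P be x) := rfl
  have hb22 : bb 2 2 0 x = P ap x := rfl
  have h1 : KB bb i j 0 x = (bb 0 0 0 x + bb 1 1 0 x + bb 2 2 0 x) * kd i j - bb i j 0 x := by
    simp [KB, trR]
  rw [h1, hb00, hb11, hb22]
  fin_cases i <;> fin_cases j
  · change _ * kd 0 0 - bb 0 0 0 x = ev h00 x
    rw [hb00, kk00, ev_h00, P_ss]; ring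
  · change _ * kd 0 1 - bb 0 1 0 x = ev h01 x
    rw [hb01, kk01, ev_h01]; ring
  · change _ * kd 0 2 - bb 0 2 0 x = ev h02 x
    rw [hb02, kk02, ev_h02]; ring
  · change _ * kd 1 0 - bb 1 0 0 x = ev h01 x
    rw [hb10, kk10, ev_h01]; ring
  · change _ * kd 1 1 - bb 1 1 0 x = ev h11 x
    rw [hb11, kk11, ev_h11, P_ss]; ring
  · change _ * kd 1 2 - bb 1 2 0 x = ev h12 x
    rw [hb12, kk12, ev_h12]; ring
  · change _ * kd 2 0 - bb 2 0 0 x = ev h02 x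
    rw [hb20, kk20, ev_h02]; ring
  · change _ * kd 2 1 - bb 2 1 0 x = ev h12 x
    rw [hb21, kk21, ev_h12]; ring
  · change _ * kd 2 2 - bb 2 2 0 x = ev h22 x
    rw [hb22, kk22, ev_h22, P_tt]; ring

theorem KB_zero_fun (i j : Fin 3) : KB bb i j 0 = fun x => ev (H i j) x :=
  funext fun x => KB_zero i j x

theorem GT_zero (k i j : Fin 3) :
    GT (KB bb) (MB bb) k i j 0 = fun x => (1 / 2) * ev (G2 k i j) x := by
  funext x
  have h1 : ev (G2 k i j) x = pd i (KB bb k j 0) x + pd j (KB bb k i 0) x -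
      pd k (KB bb i j 0) x := by
    rw [G2, ev_mrg, ev_mrg, ev_smul, KB_zero_fun, KB_zero_fun, KB_zero_fun, pd_ev, pd_ev, pd_ev]
    push_cast
    ring
  rw [GT, h1]
  congr 1
  rw [Finset.sum_eq_single k]
  · rw [kd, if_pos rfl]; ring
  · intro l _ hl
    rw [kd, if_neg (Ne.symm hl)]; ring
  · intro h
    exact absurd (Finset.mem_univ _) h

theorem RT_zero (i j : Fin 3) (x : V3) :
    RT (KB bb) (MB bb) i j 0 x = (1 / 2) * ev (R2 i j) x := by
  have h1 (m k i j : Fin 3) : pd m (GT (KB bb) (MB bb) k i j 0) x =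
      (1 / 2) * ev (der m (G2 k i j)) x := by
    rw [GT_zero, pd_const_mul _ _ (differentiable_ev _ x), pd_ev]
  rw [RT, R2]
  simp only [h1, Fin.sum_univ_three, ev_mrg, ev_smul]
  push_cast
  ring

/-! ### Positivity of the linearised Ricci tensor -/

/-- the point `(p, q, r)` with `r = 1 - p - q` -/
noncomputable def pqr (x : V3) : V3 :=
  ![x 0 ^ 2 + x 1 ^ 2, x 2 ^ 2, 1 - (x 0 ^ 2 + x 1 ^ 2) - x 2 ^ 2]

/-- polynomials without third variable -/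
def no2 (f : PL) : Bool := f.all fun m => Nat.beq m.2.2.2 0

theorem ev_no2 {f : PL} (h : no2 f = true) {x y : V3} (h0 : x 0 = y 0) (h1 : x 1 = y 1) :
    ev f x = ev f y := by
  induction f with
  | nil => rfl
  | cons m f ih =>
    simp only [no2, List.all_cons, Bool.and_eq_true] at h
    rw [ev_cons, ev_cons, ih (by simpa [no2] using h.2)]
    have := Nat.eq_of_beq_eq_true h.1
    simp only [mv, this, h0, h1, pow_zero]

theorem pos3 {f : PL} {d : ℕ} (h : isNN (homog one3 d (mrg [(-1, 0, 0, 0)] f)) = true)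
    (h2 : no2 (mrg [(-1, 0, 0, 0)] f) = true) {x : V3}
    (hx : x ∈ ball3) : 1 ≤ P f x := by
  simp only [ball3, Fin.sum_univ_three, mem_ofPred_eq] at hx
  have h3 : 0 ≤ ev (homog one3 d (mrg [(-1, 0, 0, 0)] f)) (pqr x) := by
    refine ev_isNN h fun i => ?_
    fin_cases i
    · simp [pqr]; positivity
    · simp [pqr]; positivity
    · simp only [pqr, Fin.reduceFinMk, Matrix.cons_val]; linarith
  have h4 : ev one3 (pqr x) = 1 := by
    simp [one3, ev_cons, mv, pqr]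
    ring
  rw [ev_homog _ _ _ _ h4, ev_no2 h2 (y := pq x) (by simp [pq, pqr]) (by simp [pq, pqr]),
    ev_mrg] at h3
  have h5 : ev [(-1, 0, 0, 0)] (pq x) = -1 := by simp [ev_cons, mv]
  rw [h5] at h3
  change 1 ≤ ev f (pq x)
  linarith

theorem pos2 {f : PL} {d : ℕ} (h : isNN (homog one2 d (mrg [(-1, 0, 0, 0)] f)) = true) {x : V3}
    (hx : x ∈ sph2) : 1 ≤ P f x := by
  simp only [sph2, Fin.sum_univ_three, mem_ofPred_eq] at hx
  have h3 : 0 ≤ ev (homog one2 d (mrg [(-1, 0, 0, 0)] f)) (pq x) := by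
    refine ev_isNN h fun i => ?_
    fin_cases i
    · simp [pq]; positivity
    · simp [pq]; positivity
    · simp [pq]
  have h4 : ev one2 (pq x) = 1 := by
    simp [one2, ev_cons, mv, pq]
    linarith
  rw [ev_homog _ _ _ _ h4, ev_mrg] at h3
  have h5 : ev [(-1, 0, 0, 0)] (pq x) = -1 := by simp [ev_cons, mv]
  rw [h5] at h3
  change 1 ≤ ev f (pq x)
  linarith

theorem no2_rA : no2 (mrg [(-1, 0, 0, 0)] rA) = true := by decide +kernel
theorem no2_rD : no2 (mrg [(-1, 0, 0, 0)] rD) = true := by decide +kernel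
theorem no2_rdet : no2 (mrg [(-1, 0, 0, 0)] rdet) = true := by decide +kernel

theorem P_rdet (x : V3) : P rdet x = (P rA x + (x 0 ^ 2 + x 1 ^ 2) * P rB x) * P rD x -
    (x 0 ^ 2 + x 1 ^ 2) * x 2 ^ 2 * P rC x ^ 2 := by
  rw [rdet, P_mrg, P_smul, P_mul, P_mul, P_mul, P_mul, P_mrg, P_mul, P_pp, P_qq]
  push_cast
  ring

theorem quad_pos {A B C D p q : ℝ} (hA : 1 ≤ A) (hD : 1 ≤ D)
    (hdet : 1 ≤ (A + p * B) * D - p * q * C ^ 2) {n w z t : ℝ} (hn : 0 ≤ n)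
    (hw : w ^ 2 ≤ p * n) (hz : z ^ 2 = q) (hne : 0 < n + t ^ 2) :
    0 < A * n + B * w ^ 2 + 2 * C * z * w * t + D * t ^ 2 := by
  have h1 : D * (A * n + B * w ^ 2 + 2 * C * z * w * t + D * t ^ 2) =
      D * A * n + (D * B - C ^ 2 * q) * w ^ 2 + (D * t + C * z * w) ^ 2 := by
    rw [← hz]; ring
  have h2 : 0 < D * A * n + (D * B - C ^ 2 * q) * w ^ 2 + (D * t + C * z * w) ^ 2 := by
    have hAD : 1 ≤ D * A := by nlinarith
    rcases hn.lt_or_eq with hn0 | hn0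
    · rcases le_total 0 (D * B - C ^ 2 * q) with h | h
      · have : 0 ≤ (D * B - C ^ 2 * q) * w ^ 2 := by positivity
        nlinarith [sq_nonneg (D * t + C * z * w)]
      · have h3 : (D * B - C ^ 2 * q) * (p * n) ≤ (D * B - C ^ 2 * q) * w ^ 2 :=
          mul_le_mul_of_nonpos_left hw h
        have h4 : n ≤ ((A + p * B) * D - p * q * C ^ 2) * n := by nlinarith
        nlinarith [sq_nonneg (D * t + C * z * w)]
    · rw [← hn0] at hw hne ⊢
      have hw0 : w = 0 := by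
        have : w ^ 2 ≤ 0 := by simpa using hw
        exact pow_eq_zero_iff (two_ne_zero) |>.1 (le_antisymm this (sq_nonneg w))
      have ht : 0 < t ^ 2 := by simpa using hne
      rw [hw0]
      have : 0 < (D * t) ^ 2 := by
        rw [mul_pow]
        positivity
      simpa using this
  rw [← h1] at h2
  exact pos_of_mul_pos_right h2 (by linarith)

theorem norm_pos {v : V3} (hv : v ≠ 0) : 0 < v 0 ^ 2 + v 1 ^ 2 + v 2 ^ 2 := by
  obtain ⟨t, u, ht, rfl, hu⟩ := unit_vec hv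
  have h1 : (t • u) 0 ^ 2 + (t • u) 1 ^ 2 + (t • u) 2 ^ 2 = t ^ 2 * ∑ i, u i ^ 2 := by
    simp only [Pi.smul_apply, smul_eq_mul, Fin.sum_univ_three]
    ring
  rw [h1, hu]
  positivity

theorem ric_pos {x : V3} (hx : x ∈ ball3) {v : V3} (hv : v ≠ 0) :
    0 < qf (fun i j => RT (KB bb) (MB bb) i j 0 x) v := by
  have hA := pos3 rA_pos no2_rA hx
  have hD := pos3 rD_pos no2_rD hx
  have hdet := pos3 rdet_pos no2_rdet hx
  rw [P_rdet] at hdet
  have m20 : ev [(1, 2, 0, 0)] x = x 0 ^ 2 := by simp [ev_cons, mv]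
  have m02 : ev [(1, 0, 2, 0)] x = x 1 ^ 2 := by simp [ev_cons, mv]
  have m11 : ev [(1, 1, 1, 0)] x = x 0 * x 1 := by simp [ev_cons, mv]
  have m101 : ev [(1, 1, 0, 1)] x = x 0 * x 2 := by simp [ev_cons, mv]
  have m011 : ev [(1, 0, 1, 1)] x = x 1 * x 2 := by simp [ev_cons, mv]
  have e00 : ev (R2 0 0) x = P rA x + x 0 ^ 2 * P rB x := by
    rw [ev_peq R2_00, ev_mrg, ev_mul, ev_X, ev_X, m20]
  have e11 : ev (R2 1 1) x = P rA x + x 1 ^ 2 * P rB x := by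
    rw [ev_peq R2_11, ev_mrg, ev_mul, ev_X, ev_X, m02]
  have e01 : ev (R2 0 1) x = x 0 * x 1 * P rB x := by rw [ev_peq R2_01, ev_mul, ev_X, m11]
  have e10 : ev (R2 1 0) x = x 0 * x 1 * P rB x := by rw [ev_peq R2_10, ev_mul, ev_X, m11]
  have e02 : ev (R2 0 2) x = x 0 * x 2 * P rC x := by rw [ev_peq R2_02, ev_mul, ev_X, m101]
  have e20 : ev (R2 2 0) x = x 0 * x 2 * P rC x := by rw [ev_peq R2_20, ev_mul, ev_X, m101]
  have e12 : ev (R2 1 2) x = x 1 * x 2 * P rC x := by rw [ev_peq R2_12, ev_mul, ev_X, m011]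
  have e21 : ev (R2 2 1) x = x 1 * x 2 * P rC x := by rw [ev_peq R2_21, ev_mul, ev_X, m011]
  have e22 : ev (R2 2 2) x = P rD x := by rw [ev_peq R2_22, ev_X]
  have hq : qf (fun i j => RT (KB bb) (MB bb) i j 0 x) v = (1 / 2) *
      (P rA x * (v 0 ^ 2 + v 1 ^ 2) + P rB x * (x 0 * v 0 + x 1 * v 1) ^ 2 +
        2 * P rC x * x 2 * (x 0 * v 0 + x 1 * v 1) * v 2 + P rD x * v 2 ^ 2) := by
    simp only [qf, RT_zero, Fin.sum_univ_three, e00, e11, e01, e10, e02, e20, e12, e21, e22]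
    ring
  rw [hq]
  have hne : 0 < v 0 ^ 2 + v 1 ^ 2 + v 2 ^ 2 := norm_pos hv
  have := quad_pos (p := x 0 ^ 2 + x 1 ^ 2) (q := x 2 ^ 2) hA hD hdet
    (n := v 0 ^ 2 + v 1 ^ 2) (w := x 0 * v 0 + x 1 * v 1) (z := x 2) (t := v 2)
    (by positivity) (by nlinarith [sq_nonneg (x 0 * v 1 - x 1 * v 0)]) rfl hne
  positivity

/-! ### Positivity of the linearisation of `ρ - g` -/

theorem P_pE (x : V3) : P pE x = P pA x + (x 0 ^ 2 + x 1 ^ 2) *
    (P pD x - P pA x + x 2 ^ 2 * P pB x - 2 * (x 2 ^ 2 * P pC x)) := by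
  rw [pE, P_mrg, P_mul, P_mrg, P_mrg, P_mrg, P_smul, P_smul, P_mul, P_mul, P_pp, P_qq]
  push_cast
  ring

theorem MB_zero (i j : Fin 3) (x : V3) : MB bb i j 0 x = -ev (H i j) x := by
  rw [← KB_zero]
  simp [MB, KB, DtR, trR]
  ring

theorem lin_pos {a e p N t : ℝ} (ha : 1 ≤ a) (hE : 1 ≤ a + p * e) (hN : 0 < N)
    (ht : t ≤ p * N) (h0 : 0 ≤ t) : 0 < a * N + e * t := by
  rcases le_total 0 e with h | h
  · have h1 : 0 ≤ e * t := by positivity
    have h2 : 0 < a * N := by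
      have : 0 < a := by linarith
      positivity
    linarith
  · have h1 : e * (p * N) ≤ e * t := mul_le_mul_of_nonpos_left ht h
    have h2 : N ≤ (a + p * e) * N := by nlinarith
    nlinarith

theorem sph_pos {x : V3} (hx : x ∈ sph2) {v : V3} (hv : v ≠ 0) (hxv : ∑ l, x l * v l = 0) :
    0 < PT (KB bb) (MB bb) 0 x v := by
  have hA := pos2 pA_pos hx
  have hE := pos2 pE_pos hx
  rw [P_pE] at hE
  have hx' : ∑ i, x i ^ 2 = 1 := hx
  rw [PT_zero hx' v]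
  have m20 : ev [(1, 2, 0, 0)] x = x 0 ^ 2 := by simp [ev_cons, mv]
  have m02 : ev [(1, 0, 2, 0)] x = x 1 ^ 2 := by simp [ev_cons, mv]
  have m11 : ev [(1, 1, 1, 0)] x = x 0 * x 1 := by simp [ev_cons, mv]
  have m101 : ev [(1, 1, 0, 1)] x = x 0 * x 2 := by simp [ev_cons, mv]
  have m011 : ev [(1, 0, 1, 1)] x = x 1 * x 2 := by simp [ev_cons, mv]
  have x0 : ev (xv 0) x = x 0 := by simp [xv, ev_cons, mv]
  have x1 : ev (xv 1) x = x 1 := by simp [xv, ev_cons, mv]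
  have x2 : ev (xv 2) x = x 2 := by simp [xv, ev_cons, mv]
  have hxhx : ev xhx x = qf (fun i j => ev (H i j) x) x := by
    simp only [xhx, ev_mrg, ev_mul, x0, x1, x2, qf, Fin.sum_univ_three]
    ring
  have hQ (i j : Fin 3) : ev (Q2 i j) x = -(∑ m, x m * ev (G2 m i j) x) - 2 * ev (H i j) x := by
    simp only [Q2, ev_mrg, ev_mul, ev_smul, x0, x1, x2, Fin.sum_univ_three]
    push_cast
    ring
  have e00 : ev xhx x + ev (Q2 0 0) x = P pA x + x 0 ^ 2 * P pB x := by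
    rw [← ev_mrg, ev_peq Q2_00, ev_mrg, ev_mul, ev_X, ev_X, m20]
  have e11 : ev xhx x + ev (Q2 1 1) x = P pA x + x 1 ^ 2 * P pB x := by
    rw [← ev_mrg, ev_peq Q2_11, ev_mrg, ev_mul, ev_X, ev_X, m02]
  have e22 : ev xhx x + ev (Q2 2 2) x = P pD x := by
    rw [← ev_mrg, ev_peq Q2_22, ev_X]
  have e01 : ev (Q2 0 1) x = x 0 * x 1 * P pB x := by rw [ev_peq Q2_01, ev_mul, ev_X, m11]
  have e10 : ev (Q2 1 0) x = x 0 * x 1 * P pB x := by rw [ev_peq Q2_10, ev_mul, ev_X, m11]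
  have e02 : ev (Q2 0 2) x = x 0 * x 2 * P pC x := by rw [ev_peq Q2_02, ev_mul, ev_X, m101]
  have e20 : ev (Q2 2 0) x = x 0 * x 2 * P pC x := by rw [ev_peq Q2_20, ev_mul, ev_X, m101]
  have e12 : ev (Q2 1 2) x = x 1 * x 2 * P pC x := by rw [ev_peq Q2_12, ev_mul, ev_X, m011]
  have e21 : ev (Q2 2 1) x = x 1 * x 2 * P pC x := by rw [ev_peq Q2_21, ev_mul, ev_X, m011]
  have hM : qf (fun k l => MB bb k l 0 x) x = -ev xhx x := by
    rw [hxhx]
    simp only [MB_zero, qf, Fin.sum_univ_three]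
    ring
  have hG : qf (fun i l => ∑ m, x m * GT (KB bb) (MB bb) m i l 0 x) v =
      (1 / 2) * qf (fun i l => ∑ m, x m * ev (G2 m i l) x) v := by
    simp only [GT_zero, qf, Fin.sum_univ_three]
    ring
  have hK : qf (fun i j => KB bb i j 0 x) v = qf (fun i j => ev (H i j) x) v := by
    simp only [KB_zero]
  have hsum : -(1 / 2) * qf (fun k l => MB bb k l 0 x) x * (∑ i, v i ^ 2) -
      qf (fun i l => ∑ m, x m * GT (KB bb) (MB bb) m i l 0 x) v - qf (fun i j => KB bb i j 0 x) v =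
      (1 / 2) * (ev xhx x * (∑ i, v i ^ 2) + qf (fun i j => ev (Q2 i j) x) v) := by
    rw [hM, hG, hK]
    simp only [hQ, qf, Fin.sum_univ_three]
    ring
  rw [hsum]
  have hform : ev xhx x * (∑ i, v i ^ 2) + qf (fun i j => ev (Q2 i j) x) v =
      P pA x * (v 0 ^ 2 + v 1 ^ 2) + P pB x * (x 0 * v 0 + x 1 * v 1) ^ 2 +
        2 * P pC x * x 2 * (x 0 * v 0 + x 1 * v 1) * v 2 + P pD x * v 2 ^ 2 := by
    simp only [qf, Fin.sum_univ_three, e01, e10, e02, e20, e12, e21]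
    linear_combination (v 0 ^ 2) * e00 + (v 1 ^ 2) * e11 + (v 2 ^ 2) * e22
  rw [hform]
  simp only [Fin.sum_univ_three] at hx' hxv
  have hw : x 0 * v 0 + x 1 * v 1 = -(x 2 * v 2) := by linarith
  rw [hw]
  set N := v 0 ^ 2 + v 1 ^ 2 + v 2 ^ 2 with hN
  have hNpos : 0 < N := norm_pos hv
  have hv2 : v 2 ^ 2 ≤ (x 0 ^ 2 + x 1 ^ 2) * N := by
    have h1 : (x 2 * v 2) ^ 2 ≤ (x 0 ^ 2 + x 1 ^ 2) * (v 0 ^ 2 + v 1 ^ 2) := by
      have h0 : (x 2 * v 2) ^ 2 = (x 0 * v 0 + x 1 * v 1) ^ 2 := by rw [hw]; ring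
      have h3 : (x 0 ^ 2 + x 1 ^ 2) * (v 0 ^ 2 + v 1 ^ 2) - (x 0 * v 0 + x 1 * v 1) ^ 2 =
        (x 0 * v 1 - x 1 * v 0) ^ 2 := by ring
      rw [h0]
      linarith [sq_nonneg (x 0 * v 1 - x 1 * v 0)]
    have h2 : (x 2 * v 2) ^ 2 = (1 - (x 0 ^ 2 + x 1 ^ 2)) * v 2 ^ 2 := by
      have h4 : x 2 ^ 2 = 1 - (x 0 ^ 2 + x 1 ^ 2) := by linarith
      rw [mul_pow, h4]
    rw [h2] at h1
    have h5 : (x 0 ^ 2 + x 1 ^ 2) * N = (x 0 ^ 2 + x 1 ^ 2) * (v 0 ^ 2 + v 1 ^ 2) +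
        (x 0 ^ 2 + x 1 ^ 2) * v 2 ^ 2 := by rw [hN]; ring
    rw [h5]
    linarith
  set e := P pD x - P pA x + x 2 ^ 2 * P pB x - 2 * (x 2 ^ 2 * P pC x) with he
  have hfin : P pA x * (v 0 ^ 2 + v 1 ^ 2) + P pB x * (-(x 2 * v 2)) ^ 2 +
        2 * P pC x * x 2 * (-(x 2 * v 2)) * v 2 + P pD x * v 2 ^ 2 =
      P pA x * N + e * v 2 ^ 2 := by
    rw [hN, he]; ring
  rw [hfin]
  have := lin_pos hA hE hNpos hv2 (sq_nonneg (v 2))
  positivity

/-! ### The eigenfunction -/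

theorem harm_sum (ε : ℝ) (x : V3) : ∑ i, pd i (bb i 2 ε) x = 0 := by
  have h0 : bb 0 2 ε = fun y => ev (mul [(-1, 1, 0, 1)] (X be)) y := by
    funext y
    rw [ev_mul, ev_X]
    simp [bb, ev_cons, mv]
  have h1 : bb 1 2 ε = fun y => ev (mul [(-1, 0, 1, 1)] (X be)) y := by
    funext y
    rw [ev_mul, ev_X]
    simp [bb, ev_cons, mv]
  have h2 : bb 2 2 ε = fun y => ev (X ap) y := by
    funext y
    rw [ev_X]
    rfl
  rw [Fin.sum_univ_three, h0, h1, h2, pd_ev, pd_ev, pd_ev]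
  have := ev_isZero harm x
  rw [ev_mrg, ev_mrg] at this
  exact this

/-- the relation defining `ν₁` -/
theorem nu_sph {x : V3} (hx : x ∈ sph2) :
    (x 0 ^ 2 + x 1 ^ 2) * P nu x = P ap x + x 2 ^ 2 * P be x - 197 := by
  simp only [sph2, Fin.sum_univ_three, mem_ofPred_eq] at hx
  have h4 : ev one2 (pq x) = 1 := by
    simp [one2, ev_cons, mv, pq]
    linarith
  have h := ev_peq nu_rel (pq x)
  rw [ev_homog _ _ _ _ h4, ev_homog _ _ _ _ h4, ev_mul, ev_mrg, ev_mrg, ev_mul] at h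
  have h5 : ev [(-197, 0, 0, 0)] (pq x) = -197 := by simp [ev_cons, mv]
  have h6 : ev pp (pq x) = x 0 ^ 2 + x 1 ^ 2 := P_pp x
  have h7 : ev qq (pq x) = x 2 ^ 2 := P_qq x
  rw [h5, h6, h7] at h
  change _ * ev nu (pq x) = ev ap (pq x) + _ * ev be (pq x) - 197
  linarith

theorem dnu_z {ε : ℝ} {x : V3} (hx : x ∈ sph2) (h : (ε, x) ∈ WW) :
    dnu (gm (KB bb) ε) (fun y => y 2) x = 1 / kap ε * x 2 := by
  have hrel := nu_sph hx
  have hκ : 0 < kap ε := h.1.1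
  have hden : 0 < den ε x := h.1.2
  have hD : 0 < DtR ε (fun i j => bb i j ε x) := h.2
  have hx' : ∑ i, x i ^ 2 = 1 := hx
  have hs : x 0 ^ 2 + x 1 ^ 2 + x 2 ^ 2 = 1 := by
    rw [← hx', Fin.sum_univ_three]
  have hth : th ε x * (kap ε + ε * ((x 0 ^ 2 + x 1 ^ 2) * P nu x)) = kap ε := by
    have e1 : kap ε + ε * ((x 0 ^ 2 + x 1 ^ 2) * P nu x) = den ε x := by
      rw [den]
      have : 1 - x 2 ^ 2 = x 0 ^ 2 + x 1 ^ 2 := by linarith
      rw [this]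
    rw [e1, th]
    field_simp
  have hfd : fd ε x = 197 - (x 0 ^ 2 + x 1 ^ 2) * P nu x * th ε x := by
    rw [fd]
    have e1 : 1 - x 2 ^ 2 = x 0 ^ 2 + x 1 ^ 2 := by linarith
    have e2 : 1 - x 0 ^ 2 - x 1 ^ 2 - x 2 ^ 2 = 0 := by linarith
    rw [e1, e2]
    ring
  have hfc : fc ε x = P nu x * (1 + th ε x) - P be x := by
    rw [fc]
    have e2 : 1 - x 0 ^ 2 - x 1 ^ 2 - x 2 ^ 2 = 0 := by linarith
    rw [e2]
    ring
  have b00 : bb 0 0 ε x = fd ε x + x 0 ^ 2 * fc ε x := rfl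
  have b11 : bb 1 1 ε x = fd ε x + x 1 ^ 2 * fc ε x := rfl
  have b01 : bb 0 1 ε x = x 0 * x 1 * fc ε x := rfl
  have b10 : bb 1 0 ε x = x 0 * x 1 * fc ε x := rfl
  have b02 : bb 0 2 ε x = -(x 0 * x 2 * P be x) := rfl
  have b20 : bb 2 0 ε x = -(x 0 * x 2 * P be x) := rfl
  have b12 : bb 1 2 ε x = -(x 1 * x 2 * P be x) := rfl
  have b21 : bb 2 1 ε x = -(x 1 * x 2 * P be x) := rfl
  have b22 : bb 2 2 ε x = P ap x := rfl
  have hap : P ap x = (x 0 ^ 2 + x 1 ^ 2) * P nu x - x 2 ^ 2 * P be x + 197 := by linarith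
  have hkap : kap ε = 1 + ε * 197 := rfl
  have hq : x 2 ^ 2 = 1 - (x 0 ^ 2 + x 1 ^ 2) := by linarith
  refine dnu_gm hD (κ := kap ε) (μ := kap ε + ε * ((x 0 ^ 2 + x 1 ^ 2) * P nu x - P be x)) hκ hx'
    ?_ ?_
  · intro i
    have key0 : 1 + ε * (fd ε x + (x 0 ^ 2 + x 1 ^ 2) * fc ε x - x 2 ^ 2 * P be x) =
        kap ε + ε * ((x 0 ^ 2 + x 1 ^ 2) * P nu x - P be x) := by
      rw [hfd, hfc, hkap, hq]; ring
    have key2 : 1 + ε * (P ap x - (x 0 ^ 2 + x 1 ^ 2) * P be x) =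
        kap ε + ε * ((x 0 ^ 2 + x 1 ^ 2) * P nu x - P be x) := by
      rw [hap, hkap, hq]; ring
    fin_cases i
    · change ∑ j, (kd 0 j + ε * bb 0 j ε x) * x j = _ * x 0
      rw [Fin.sum_univ_three, kk00, kk01, kk02, b00, b01, b02, ← key0]
      ring
    · change ∑ j, (kd 1 j + ε * bb 1 j ε x) * x j = _ * x 1
      rw [Fin.sum_univ_three, kk10, kk11, kk12, b10, b11, b12, ← key0]
      ring
    · change ∑ j, (kd 2 j + ε * bb 2 j ε x) * x j = _ * x 2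
      rw [Fin.sum_univ_three, kk20, kk21, kk22, b20, b21, b22, ← key2]
      ring
  · have f11 : (1 : Fin 3) + 1 = 2 := rfl
    have f12 : (1 : Fin 3) + 2 = 0 := rfl
    have f21 : (2 : Fin 3) + 1 = 0 := rfl
    have f22 : (2 : Fin 3) + 2 = 1 := rfl
    have f01 : (0 : Fin 3) + 1 = 1 := rfl
    have f02 : (0 : Fin 3) + 2 = 2 := rfl
    have hdet : DtR ε (fun i j => bb i j ε x) = (1 + ε * fd ε x) *
        ((1 + ε * fd ε x + (x 0 ^ 2 + x 1 ^ 2) * (ε * fc ε x)) * (1 + ε * P ap x) -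
          (x 0 ^ 2 + x 1 ^ 2) * x 2 ^ 2 * (ε * P be x) ^ 2) := by
      simp only [DtR, trR, e2R, d3R, cofR, f11, f12, f21, f22, f01, f02, b00, b11, b01, b10, b02,
        b20, b12, b21, b22]
      ring
    have h1 : 1 + ε * fd ε x = kap ε * th ε x := by
      rw [hfd]
      linear_combination -hkap - hth
    have h2 : 1 + ε * fd ε x + (x 0 ^ 2 + x 1 ^ 2) * (ε * fc ε x) =
        (kap ε + ε * ((x 0 ^ 2 + x 1 ^ 2) * P nu x - P be x)) + x 2 ^ 2 * (ε * P be x) := by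
      rw [hfd, hfc, hkap, hq]
      ring
    have h3 : 1 + ε * P ap x =
        (kap ε + ε * ((x 0 ^ 2 + x 1 ^ 2) * P nu x - P be x)) +
          (x 0 ^ 2 + x 1 ^ 2) * (ε * P be x) := by
      rw [hap, hkap, hq]
      ring
    rw [hdet, h2, h3, h1]
    set μ := kap ε + ε * ((x 0 ^ 2 + x 1 ^ 2) * P nu x - P be x) with hμ
    have h4 : (μ + x 2 ^ 2 * (ε * P be x)) * (μ + (x 0 ^ 2 + x 1 ^ 2) * (ε * P be x)) -
        (x 0 ^ 2 + x 1 ^ 2) * x 2 ^ 2 * (ε * P be x) ^ 2 =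
        μ * (kap ε + ε * ((x 0 ^ 2 + x 1 ^ 2) * P nu x)) := by
      rw [hq, hμ]
      ring
    rw [h4]
    linear_combination (kap ε * μ) * hth

/-- **Escobar's conjecture fails in dimension three.** -/
theorem escobar_false :
    ∃ (g : Met) (U : Set V3), IsOpen U ∧ ball3 ⊆ U ∧
      (∀ i j, ContDiffOn ℝ ∞ (fun x => g x i j) U) ∧
      (∀ x ∈ U, (g x).PosDef) ∧
      (∀ x ∈ ball3, ∀ v : V3, v ≠ 0 → 0 < ∑ i, ∑ j, Ric g i j x * v i * v j) ∧
      (∀ x ∈ sph2, ∀ v : V3, v ≠ 0 → ∑ i, x i * v i = 0 →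
        ∑ i, ∑ j, g x i j * v i * v j < sff g x v v) ∧
      ∃ σ : ℝ, 0 < σ ∧ σ < 1 ∧ IsSteklov g σ := by
  have hW : IsOpen WW := isOpen_WD isOpen_W1 sm_bb
  have hbW : ∀ i j, Sm WW (bb i j) := fun i j => (sm_bb i j).mono inter_subset_left
  have hK : ∀ i j, Sm WW (KB bb i j) := sm_KB hbW
  have hM : ∀ i j, Sm WW (MB bb i j) := sm_MB hbW DtR_ne
  have hinv : ∀ z ∈ WW, gm (KB bb) z.1 z.2 * gm (MB bb) z.1 z.2 = 1 :=
    fun z hz => gm_mul (DtR_ne z hz)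
  have main := perturb hW hK hM (KB_symm bb_symm) (MB_symm bb_symm) hinv zero_mem
    (fun x hx v hv => ric_pos hx hv) (fun x hx v hv hxv => sph_pos hx hv hxv)
  obtain ⟨r, hr, hball⟩ := Metric.eventually_nhds_iff_ball.1 main
  have hε : (r / 2) ∈ Metric.ball (0 : ℝ) r := by
    rw [mem_ball_zero_iff, Real.norm_eq_abs, abs_of_pos (by positivity)]
    linarith
  have hpos : 0 < r / 2 := by positivity
  obtain ⟨h1, h2, h3⟩ := hball (r / 2) hε hpos
  set ε := r / 2 with hεdef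
  have hsub : ∀ x ∈ ball3, (ε, x) ∈ WW := fun x hx => by
    have hx' : ∑ i, x i ^ 2 ≤ 1 := hx
    exact (h1 x (by linarith)).1
  refine ⟨gm (KB bb) ε, {x | ∑ i, x i ^ 2 < 2}, ?_, ?_, ?_, ?_, h2, h3, 1 / kap ε, ?_, ?_,
    fun y => y 2, by fun_prop, ?_, ?_, ?_⟩
  · exact isOpen_lt (by fun_prop) continuous_const
  · intro x hx
    have hx' : ∑ i, x i ^ 2 ≤ 1 := hx
    exact lt_of_le_of_lt hx' (by norm_num)
  · intro i j
    have hg : Sm WW (fun ε x => gm (KB bb) ε x i j) :=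
      (Sm.const _).add (Sm.eps.mul (hK i j))
    have hc : ContDiff ℝ ∞ (fun y : V3 => (ε, y)) := by fun_prop
    refine ContDiffOn.comp (g := fun z : ℝ × V3 => gm (KB bb) z.1 z.2 i j)
      (f := fun y : V3 => (ε, y)) (t := WW) hg hc.contDiffOn ?_
    intro x hx
    exact (h1 x (le_of_lt hx)).1
  · intro x hx
    exact (h1 x (le_of_lt hx)).2
  · have : 0 < kap ε := by unfold kap; positivity
    positivity
  · have : 1 < kap ε := by
      unfold kap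
      linarith
    rw [div_lt_one (by linarith)]
    exact this
  · refine ⟨Pi.single 2 1, ?_, by simp⟩
    simp [ball3, Fin.sum_univ_three]
  · intro x hx
    exact lap_gm isOpen_W1 sm_bb (hsub x hx) (harm_sum ε x)
  · intro x hx
    refine dnu_z hx (hsub x ?_)
    have hx' : ∑ i, x i ^ 2 = 1 := hx
    exact hx'.le

end Pool.Agent.Y485
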