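import Pool.Agent.Y485.GeoDefs

/-!
# Smooth one parameter families of functions and partial derivatives
-/

set_option autoImplicit false

namespace Pool.Agent.Y485

open scoped ContDiff Topology
open Set Filter

/-- `F ε x` is smooth in `(ε, x) ∈ W`. -/
def Sm (W : Set (ℝ × V3)) (F : ℝ → V3 → ℝ) : Prop :=
  ContDiffOn ℝ ∞ (fun z : ℝ × V3 => F z.1 z.2) W

variable {W : Set (ℝ × V3)} {F G : ℝ → V3 → ℝ}

theorem Sm.add (hF : Sm W F) (hG : Sm W G) : Sm W (fun ε x => F ε x + G ε x) :=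
  ContDiffOn.add hF hG

theorem Sm.sub (hF : Sm W F) (hG : Sm W G) : Sm W (fun ε x => F ε x - G ε x) :=
  ContDiffOn.sub hF hG

theorem Sm.mul (hF : Sm W F) (hG : Sm W G) : Sm W (fun ε x => F ε x * G ε x) :=
  ContDiffOn.mul hF hG

theorem Sm.neg (hF : Sm W F) : Sm W (fun ε x => -F ε x) := ContDiffOn.neg hF

theorem Sm.const (c : ℝ) : Sm W (fun _ _ => c) := contDiffOn_const

theorem Sm.eps : Sm W (fun ε _ => ε) := contDiff_fst.contDiffOn

theorem Sm.coord (i : Fin 3) : Sm W (fun _ x => x i) := by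
  unfold Sm
  have : ContDiff ℝ ∞ (fun z : ℝ × V3 => z.2 i) := by fun_prop
  exact this.contDiffOn

theorem Sm.of_contDiff {f : V3 → ℝ} (hf : ContDiff ℝ ∞ f) : Sm W (fun _ x => f x) :=
  (hf.comp contDiff_snd).contDiffOn

theorem Sm.sum {ι : Type*} {s : Finset ι} {F : ι → ℝ → V3 → ℝ} (h : ∀ i ∈ s, Sm W (F i)) :
    Sm W (fun ε x => ∑ i ∈ s, F i ε x) :=
  ContDiffOn.sum (fun i hi => h i hi)

theorem Sm.inv (hF : Sm W F) (h : ∀ z ∈ W, F z.1 z.2 ≠ 0) : Sm W (fun ε x => (F ε x)⁻¹) :=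
  ContDiffOn.inv hF h

theorem Sm.div (hF : Sm W F) (hG : Sm W G) (h : ∀ z ∈ W, G z.1 z.2 ≠ 0) :
    Sm W (fun ε x => F ε x / G ε x) :=
  ContDiffOn.div hF hG h

theorem Sm.continuousOn (hF : Sm W F) : ContinuousOn (fun z : ℝ × V3 => F z.1 z.2) W :=
  ContDiffOn.continuousOn hF

/-- the slice of an open set is a neighbourhood -/
theorem slice_mem (hW : IsOpen W) {ε : ℝ} {x : V3} (h : (ε, x) ∈ W) :
    ∀ᶠ y in 𝓝 x, (ε, y) ∈ W := by
  have hc : Continuous (fun y : V3 => (ε, y)) := by fun_prop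
  exact hc.continuousAt.eventually_mem (hW.mem_nhds h)

theorem Sm.hasFDerivAt (hW : IsOpen W) (hF : Sm W F) {ε : ℝ} {x : V3} (h : (ε, x) ∈ W) :
    HasFDerivAt (F ε)
      ((fderiv ℝ (fun z : ℝ × V3 => F z.1 z.2) (ε, x)).comp (ContinuousLinearMap.inr ℝ ℝ V3)) x := by
  have h1 : DifferentiableAt ℝ (fun z : ℝ × V3 => F z.1 z.2) (ε, x) :=
    ((ContDiffOn.contDiffAt hF (hW.mem_nhds h)).differentiableAt (by simp))
  have h2 : HasFDerivAt (fun y : V3 => (ε, y)) (ContinuousLinearMap.inr ℝ ℝ V3) x :=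
    hasFDerivAt_prodMk_right ε x
  exact h1.hasFDerivAt.comp x h2

theorem Sm.differentiableAt (hW : IsOpen W) (hF : Sm W F) {ε : ℝ} {x : V3} (h : (ε, x) ∈ W) :
    DifferentiableAt ℝ (F ε) x := (hF.hasFDerivAt hW h).differentiableAt

theorem Sm.pd_eq (hW : IsOpen W) (hF : Sm W F) {ε : ℝ} {x : V3} (h : (ε, x) ∈ W) (i : Fin 3) :
    pd i (F ε) x = fderiv ℝ (fun z : ℝ × V3 => F z.1 z.2) (ε, x) (0, Pi.single i 1) := by
  rw [pd, (hF.hasFDerivAt hW h).fderiv]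
  rfl

theorem Sm.pd (hW : IsOpen W) (hF : Sm W F) (i : Fin 3) : Sm W (fun ε x => pd i (F ε) x) := by
  have h1 : ContDiffOn ℝ ∞ (fun z : ℝ × V3 =>
      fderiv ℝ (fun z : ℝ × V3 => F z.1 z.2) z (0, Pi.single i 1)) W :=
    (ContDiffOn.fderiv_of_isOpen hF hW (by simp)).clm_apply contDiffOn_const
  exact h1.congr fun z hz => hF.pd_eq hW (ε := z.1) (x := z.2) hz i

/-! ### calculus of `pd` -/

theorem pd_const (i : Fin 3) (c : ℝ) (x : V3) : pd i (fun _ => c) x = 0 := by simp [pd]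

theorem pd_add (i : Fin 3) {f g : V3 → ℝ} {x : V3} (hf : DifferentiableAt ℝ f x)
    (hg : DifferentiableAt ℝ g x) : pd i (fun y => f y + g y) x = pd i f x + pd i g x := by
  rw [pd, fderiv_fun_add hf hg]; rfl

theorem pd_sub (i : Fin 3) {f g : V3 → ℝ} {x : V3} (hf : DifferentiableAt ℝ f x)
    (hg : DifferentiableAt ℝ g x) : pd i (fun y => f y - g y) x = pd i f x - pd i g x := by
  rw [pd, fderiv_fun_sub hf hg]; rfl

theorem pd_mul (i : Fin 3) {f g : V3 → ℝ} {x : V3} (hf : DifferentiableAt ℝ f x)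
    (hg : DifferentiableAt ℝ g x) :
    pd i (fun y => f y * g y) x = f x * pd i g x + g x * pd i f x := by
  rw [pd, fderiv_fun_mul hf hg]; rfl

theorem pd_const_mul (i : Fin 3) {f : V3 → ℝ} {x : V3} (c : ℝ) (hf : DifferentiableAt ℝ f x) :
    pd i (fun y => c * f y) x = c * pd i f x := by
  rw [pd, fderiv_const_mul hf]; rfl

theorem pd_const_add (i : Fin 3) {f : V3 → ℝ} {x : V3} (c : ℝ) :
    pd i (fun y => c + f y) x = pd i f x := by
  rw [pd, fderiv_const_add]; rfl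

theorem pd_sum (i : Fin 3) {ι : Type*} {s : Finset ι} {f : ι → V3 → ℝ} {x : V3}
    (hf : ∀ j ∈ s, DifferentiableAt ℝ (f j) x) :
    pd i (fun y => ∑ j ∈ s, f j y) x = ∑ j ∈ s, pd i (f j) x := by
  rw [pd, fderiv_fun_sum hf, _root_.sum_apply]; rfl

theorem pd_coord (i j : Fin 3) (x : V3) : pd i (fun y => y j) x = if i = j then 1 else 0 := by
  rw [pd, (hasFDerivAt_apply (𝕜 := ℝ) j x).fderiv]
  simp [Pi.single_apply, eq_comm]

theorem pd_congr (i : Fin 3) {f g : V3 → ℝ} {x : V3} (h : f =ᶠ[𝓝 x] g) : pd i f x = pd i g x := by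
  rw [pd, h.fderiv_eq]; rfl

end Pool.Agent.Y485
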