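import Pool.Agent.Y485.PerturbMain

/-!
# Metrics `g` with `(det g)^{1/2} g^{-1} = 1 + ε b(ε, x)`
-/

set_option autoImplicit false

namespace Pool.Agent.Y485

open scoped ContDiff Topology
open Set Filter

/-- cofactors -/
def cofR (b : Fin 3 → Fin 3 → ℝ) (i j : Fin 3) : ℝ :=
  b (i + 1) (j + 1) * b (i + 2) (j + 2) - b (i + 1) (j + 2) * b (i + 2) (j + 1)

/-- trace -/
def trR (b : Fin 3 → Fin 3 → ℝ) : ℝ := b 0 0 + b 1 1 + b 2 2

/-- second elementary symmetric function -/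
def e2R (b : Fin 3 → Fin 3 → ℝ) : ℝ := cofR b 0 0 + cofR b 1 1 + cofR b 2 2

/-- determinant -/
def d3R (b : Fin 3 → Fin 3 → ℝ) : ℝ := b 0 0 * cofR b 0 0 + b 0 1 * cofR b 0 1 + b 0 2 * cofR b 0 2

/-- `det (1 + ε b)` -/
def DtR (ε : ℝ) (b : Fin 3 → Fin 3 → ℝ) : ℝ := 1 + ε * (trR b + ε * (e2R b + ε * d3R b))

variable (b : Fin 3 → Fin 3 → ℝ → V3 → ℝ)

/-- the matrix `1 + ε b` -/
noncomputable def amat (ε : ℝ) (x : V3) : Matrix (Fin 3) (Fin 3) ℝ :=
  Matrix.of fun i j => kd i j + ε * b i j ε x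

/-- `(adj (1 + ε b) - 1) / ε` -/
noncomputable def KB (i j : Fin 3) (ε : ℝ) (x : V3) : ℝ :=
  trR (fun i j => b i j ε x) * kd i j - b i j ε x + ε * cofR (fun i j => b i j ε x) j i

/-- `((1 + ε b) / det (1 + ε b) - 1) / ε` -/
noncomputable def MB (i j : Fin 3) (ε : ℝ) (x : V3) : ℝ :=
  (b i j ε x - kd i j * (trR (fun i j => b i j ε x) + ε * (e2R (fun i j => b i j ε x) +
    ε * d3R (fun i j => b i j ε x)))) / DtR ε (fun i j => b i j ε x)

variable {b}

theorem det_amat (ε : ℝ) (x : V3) : (amat b ε x).det = DtR ε (fun i j => b i j ε x) := by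
  rw [Matrix.det_fin_three]
  have k00 : kd 0 0 = 1 := if_pos rfl
  have k11 : kd 1 1 = 1 := if_pos rfl
  have k22 : kd 2 2 = 1 := if_pos rfl
  have k01 : kd 0 1 = 0 := if_neg (by decide)
  have k02 : kd 0 2 = 0 := if_neg (by decide)
  have k12 : kd 1 2 = 0 := if_neg (by decide)
  have k10 : kd 1 0 = 0 := if_neg (by decide)
  have k20 : kd 2 0 = 0 := if_neg (by decide)
  have k21 : kd 2 1 = 0 := if_neg (by decide)
  have f11 : (1 : Fin 3) + 1 = 2 := rfl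
  have f12 : (1 : Fin 3) + 2 = 0 := rfl
  have f21 : (2 : Fin 3) + 1 = 0 := rfl
  have f22 : (2 : Fin 3) + 2 = 1 := rfl
  have f01 : (0 : Fin 3) + 1 = 1 := rfl
  have f02 : (0 : Fin 3) + 2 = 2 := rfl
  simp only [amat, Matrix.of_apply, k00, k11, k22, k01, k02, k12, k10, k20, k21, DtR, trR, e2R,
    d3R, cofR, f11, f12, f21, f22, f01, f02]
  ring

theorem gm_KB (ε : ℝ) (x : V3) : gm (KB b) ε x = (amat b ε x).adjugate := by
  rw [Matrix.adjugate_fin_three]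
  have k00 : kd 0 0 = 1 := if_pos rfl
  have k11 : kd 1 1 = 1 := if_pos rfl
  have k22 : kd 2 2 = 1 := if_pos rfl
  have k01 : kd 0 1 = 0 := if_neg (by decide)
  have k02 : kd 0 2 = 0 := if_neg (by decide)
  have k12 : kd 1 2 = 0 := if_neg (by decide)
  have k10 : kd 1 0 = 0 := if_neg (by decide)
  have k20 : kd 2 0 = 0 := if_neg (by decide)
  have k21 : kd 2 1 = 0 := if_neg (by decide)
  ext i j
  rw [gm_apply, KB]
  fin_cases i <;> fin_cases j <;>
    simp [amat, k00, k11, k22, k01, k02, k12, k10, k20, k21, trR, cofR] <;> ring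

theorem gm_MB {ε : ℝ} {x : V3} (h : DtR ε (fun i j => b i j ε x) ≠ 0) (i j : Fin 3) :
    gm (MB b) ε x i j = (kd i j + ε * b i j ε x) / DtR ε (fun i j => b i j ε x) := by
  rw [gm_apply, MB]
  field_simp
  unfold DtR
  ring

theorem gm_mul {ε : ℝ} {x : V3} (h : DtR ε (fun i j => b i j ε x) ≠ 0) :
    gm (KB b) ε x * gm (MB b) ε x = 1 := by
  have h1 : gm (MB b) ε x = (DtR ε (fun i j => b i j ε x))⁻¹ • amat b ε x := by
    ext i j
    rw [gm_MB h, Matrix.smul_apply, smul_eq_mul, amat, Matrix.of_apply, div_eq_inv_mul]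
  rw [h1, gm_KB, Matrix.mul_smul, Matrix.adjugate_mul, det_amat, smul_smul, inv_mul_cancel₀ h,
    one_smul]

theorem det_gm (ε : ℝ) (x : V3) :
    (gm (KB b) ε x).det = (DtR ε (fun i j => b i j ε x)) ^ 2 := by
  rw [gm_KB, Matrix.det_adjugate, det_amat]
  rfl

variable {W1 : Set (ℝ × V3)}

theorem sm_cofR (hb : ∀ i j, Sm W1 (b i j)) (i j : Fin 3) :
    Sm W1 (fun ε x => cofR (fun i j => b i j ε x) i j) :=
  ((hb _ _).mul (hb _ _)).sub ((hb _ _).mul (hb _ _))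

theorem sm_trR (hb : ∀ i j, Sm W1 (b i j)) : Sm W1 (fun ε x => trR (fun i j => b i j ε x)) :=
  ((hb _ _).add (hb _ _)).add (hb _ _)

theorem sm_e2R (hb : ∀ i j, Sm W1 (b i j)) : Sm W1 (fun ε x => e2R (fun i j => b i j ε x)) :=
  ((sm_cofR hb 0 0).add (sm_cofR hb 1 1)).add (sm_cofR hb 2 2)

theorem sm_d3R (hb : ∀ i j, Sm W1 (b i j)) : Sm W1 (fun ε x => d3R (fun i j => b i j ε x)) :=
  (((hb 0 0).mul (sm_cofR hb 0 0)).add ((hb 0 1).mul (sm_cofR hb 0 1))).add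
    ((hb 0 2).mul (sm_cofR hb 0 2))

theorem sm_DtR (hb : ∀ i j, Sm W1 (b i j)) :
    Sm W1 (fun ε x => DtR ε (fun i j => b i j ε x)) :=
  (Sm.const 1).add (Sm.eps.mul ((sm_trR hb).add (Sm.eps.mul ((sm_e2R hb).add
    (Sm.eps.mul (sm_d3R hb))))))

theorem sm_KB (hb : ∀ i j, Sm W1 (b i j)) (i j : Fin 3) : Sm W1 (KB b i j) :=
  (((sm_trR hb).mul (Sm.const _)).sub (hb i j)).add (Sm.eps.mul (sm_cofR hb j i))

theorem sm_MB (hb : ∀ i j, Sm W1 (b i j))
    (h : ∀ z ∈ W1, DtR z.1 (fun i j => b i j z.1 z.2) ≠ 0) (i j : Fin 3) : Sm W1 (MB b i j) :=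
  Sm.div ((hb i j).sub ((Sm.const _).mul ((sm_trR hb).add (Sm.eps.mul ((sm_e2R hb).add
    (Sm.eps.mul (sm_d3R hb))))))) (sm_DtR hb) h

theorem KB_symm (hs : ∀ i j, b i j = b j i) (i j : Fin 3) : KB b i j = KB b j i := by
  funext ε x
  have e1 : b i j = b j i := hs i j
  have e2 : b (i + 1) (j + 1) = b (j + 1) (i + 1) := hs _ _
  have e3 : b (i + 2) (j + 2) = b (j + 2) (i + 2) := hs _ _
  have e4 : b (i + 1) (j + 2) = b (j + 2) (i + 1) := hs _ _
  have e5 : b (i + 2) (j + 1) = b (j + 1) (i + 2) := hs _ _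
  have e6 : kd i j = kd j i := by unfold kd; simp only [eq_comm]
  unfold KB cofR
  simp only [e1, e2, e3, e4, e5, e6]
  ring

theorem MB_symm (hs : ∀ i j, b i j = b j i) (i j : Fin 3) : MB b i j = MB b j i := by
  funext ε x
  unfold MB kd
  rw [hs i j]
  simp only [eq_comm]

/-- the set where `det (1 + ε b) > 0` -/
def WD (b : Fin 3 → Fin 3 → ℝ → V3 → ℝ) (W1 : Set (ℝ × V3)) : Set (ℝ × V3) :=
  W1 ∩ (fun z : ℝ × V3 => DtR z.1 (fun i j => b i j z.1 z.2)) ⁻¹' (Ioi 0)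

theorem isOpen_WD (h1 : IsOpen W1) (hb : ∀ i j, Sm W1 (b i j)) : IsOpen (WD b W1) :=
  (sm_DtR hb).continuousOn.isOpen_inter_preimage h1 isOpen_Ioi

theorem Sm.mono {W W' : Set (ℝ × V3)} {F : ℝ → V3 → ℝ} (h : Sm W F) (hs : W' ⊆ W) : Sm W' F :=
  ContDiffOn.mono h hs

/-- the Laplacian of the third coordinate -/
theorem lap_gm (h1 : IsOpen W1) (hb : ∀ i j, Sm W1 (b i j)) {ε : ℝ} {x : V3}
    (h : (ε, x) ∈ WD b W1) (hz : ∑ i, pd i (b i 2 ε) x = 0) :
    lap (gm (KB b) ε) (fun y => y 2) x = 0 := by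
  have hW := isOpen_WD h1 hb
  have e (i : Fin 3) : (fun y => √(gm (KB b) ε y).det *
      ∑ j, (gm (KB b) ε y)⁻¹ i j * pd j (fun y => y 2) y) =ᶠ[𝓝 x]
      fun y => kd i 2 + ε * b i 2 ε y := by
    filter_upwards [slice_mem hW h] with y hy
    have hD : 0 < DtR ε (fun i j => b i j ε y) := hy.2
    have hi : (gm (KB b) ε y)⁻¹ = gm (MB b) ε y := Matrix.inv_eq_right_inv (gm_mul hD.ne')
    rw [det_gm, Real.sqrt_sq hD.le, hi]
    have h2 : ∑ j, gm (MB b) ε y i j * pd j (fun y => y 2) y = gm (MB b) ε y i 2 := by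
      rw [Finset.sum_eq_single (2 : Fin 3)]
      · rw [pd_coord, if_pos rfl, mul_one]
      · intro j _ hj
        rw [pd_coord, if_neg hj, mul_zero]
      · intro h3
        exact absurd (Finset.mem_univ _) h3
    rw [h2, gm_MB hD.ne']
    field_simp
  rw [lap]
  have h3 (i : Fin 3) : pd i (fun y => √(gm (KB b) ε y).det *
      ∑ j, (gm (KB b) ε y)⁻¹ i j * pd j (fun y => y 2) y) x = ε * pd i (b i 2 ε) x := by
    rw [pd_congr i (e i), pd_const_add, pd_const_mul]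
    exact (hb i 2).differentiableAt h1 h.1
  simp only [h3, ← Finset.mul_sum, hz, mul_zero]

/-- the normal derivative of the third coordinate -/
theorem dnu_gm {ε : ℝ} {x : V3} (hD : 0 < DtR ε (fun i j => b i j ε x)) {κ μ : ℝ} (hκ : 0 < κ)
    (hx : ∑ i, x i ^ 2 = 1) (hμ : ∀ i, ∑ j, (kd i j + ε * b i j ε x) * x j = μ * x i)
    (hdet : DtR ε (fun i j => b i j ε x) = κ ^ 2 * μ) :
    dnu (gm (KB b) ε) (fun y => y 2) x = 1 / κ * x 2 := by
  have hi : (gm (KB b) ε x)⁻¹ = gm (MB b) ε x := Matrix.inv_eq_right_inv (gm_mul hD.ne')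
  have hμ0 : 0 < μ := by
    rw [hdet] at hD
    exact pos_of_mul_pos_right hD (by positivity)
  have h1 : dnu (gm (KB b) ε) (fun y => y 2) x = nrm (gm (KB b) ε) 2 x := by
    rw [dnu, Finset.sum_eq_single (2 : Fin 3)]
    · rw [pd_coord, if_pos rfl, mul_one]
    · intro j _ hj
      rw [pd_coord, if_neg hj, mul_zero]
    · intro h3
      exact absurd (Finset.mem_univ _) h3
  have hrow (i : Fin 3) : ∑ j, gm (MB b) ε x i j * x j = x i / κ ^ 2 := by
    have h2 : ∑ j, gm (MB b) ε x i j * x j =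
        (∑ j, (kd i j + ε * b i j ε x) * x j) / DtR ε (fun i j => b i j ε x) := by
      rw [Finset.sum_div]
      refine Finset.sum_congr rfl fun j _ => ?_
      rw [gm_MB hD.ne']
      ring
    rw [h2, hμ, hdet]
    field_simp
  have hq : ∑ k, ∑ l, gm (MB b) ε x k l * x k * x l = (1 / κ) ^ 2 := by
    have h3 : ∑ k, ∑ l, gm (MB b) ε x k l * x k * x l = ∑ k, x k * ∑ l, gm (MB b) ε x k l * x l := by
      refine Finset.sum_congr rfl fun k _ => ?_
      rw [Finset.mul_sum]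
      refine Finset.sum_congr rfl fun l _ => ?_
      ring
    rw [h3]
    simp only [hrow]
    have h4 : ∑ k, x k * (x k / κ ^ 2) = (∑ k, x k ^ 2) / κ ^ 2 := by
      rw [Finset.sum_div]
      refine Finset.sum_congr rfl fun k _ => ?_
      ring
    rw [h4, hx]
    ring
  rw [h1, nrm, hi, hrow, hq, Real.sqrt_sq (by positivity)]
  field_simp

end Pool.Agent.Y485
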