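import Mathlib

/-!
# Riemannian geometry of metrics on open subsets of `ℝ³`, in coordinates

The metric is given by its matrix `g x` of coefficients at the point `x`. We define the Christoffel
symbols, the Ricci tensor, the Laplace-Beltrami operator, the outward unit normal of the unit sphere
(the boundary of the closed unit ball), its second fundamental form, and Steklov eigenvalues of the
closed unit ball with the metric `g`.
-/

set_option autoImplicit false

namespace Pool.Agent.Y485

open scoped ContDiff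

/-- Points of `ℝ³` and tangent vectors. -/
abbrev V3 : Type := Fin 3 → ℝ

/-- The matrix of coefficients `g_ij` of a metric, as a function of the point. -/
abbrev Met : Type := V3 → Matrix (Fin 3) (Fin 3) ℝ

/-- The closed unit ball of `ℝ³`. -/
def ball3 : Set V3 := {x | ∑ i, x i ^ 2 ≤ 1}

/-- The unit sphere of `ℝ³`, the boundary of `ball3`. -/
def sph2 : Set V3 := {x | ∑ i, x i ^ 2 = 1}

/-- The partial derivative `∂_i f`. -/
noncomputable def pd (i : Fin 3) (f : V3 → ℝ) (x : V3) : ℝ := fderiv ℝ f x (Pi.single i 1)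

/-- The Christoffel symbols `Γ^k_ij = ½ g^{kl} (∂_i g_lj + ∂_j g_li - ∂_l g_ij)`. -/
noncomputable def Gam (g : Met) (k i j : Fin 3) (x : V3) : ℝ :=
  (1 / 2) * ∑ l, (g x)⁻¹ k l *
    (pd i (fun y => g y l j) x + pd j (fun y => g y l i) x - pd l (fun y => g y i j) x)

/-- The Ricci tensor
`R_ij = ∂_k Γ^k_ij - ∂_j Γ^k_ik + Γ^k_kl Γ^l_ij - Γ^k_jl Γ^l_ik` (summed over `k`, `l`). -/
noncomputable def Ric (g : Met) (i j : Fin 3) (x : V3) : ℝ :=
  ∑ k, (pd k (Gam g k i j) x - pd j (Gam g k i k) x) +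
    ∑ k, ∑ l, (Gam g k k l x * Gam g l i j x - Gam g k j l x * Gam g l i k x)

/-- The Laplace-Beltrami operator `Δ u = (det g)^{-1/2} ∂_i ((det g)^{1/2} g^{ij} ∂_j u)`. -/
noncomputable def lap (g : Met) (u : V3 → ℝ) (x : V3) : ℝ :=
  1 / √(g x).det * ∑ i, pd i (fun y => √(g y).det * ∑ j, (g y)⁻¹ i j * pd j u y) x

/-- The components `ν^i = g^{ij} x_j / (g^{kl} x_k x_l)^{1/2}` of the outward unit normal at `x` of
the sphere with centre `0` through `x`. -/
noncomputable def nrm (g : Met) (i : Fin 3) (x : V3) : ℝ :=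
  (∑ j, (g x)⁻¹ i j * x j) / √(∑ k, ∑ l, (g x)⁻¹ k l * x k * x l)

/-- The derivative `∂_ν u` of a function in the direction of the outward unit normal. -/
noncomputable def dnu (g : Met) (u : V3 → ℝ) (x : V3) : ℝ := ∑ i, nrm g i x * pd i u x

/-- The second fundamental form `ρ(v, w) = ⟨∇_v ν, w⟩`, with
`(∇_v ν)^k = v^i ∂_i ν^k + Γ^k_ij v^i ν^j`. -/
noncomputable def sff (g : Met) (x v w : V3) : ℝ :=
  ∑ k, ∑ l, g x k l *
    (∑ i, v i * pd i (nrm g k) x + ∑ i, ∑ j, Gam g k i j x * v i * nrm g j x) * w l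

/-- `σ` is a Steklov eigenvalue of the closed unit ball with the metric `g`: there is a smooth
function `u`, not identically zero on the ball, with `Δ u = 0` on the ball and `∂_ν u = σ u` on the
boundary. -/
def IsSteklov (g : Met) (σ : ℝ) : Prop :=
  ∃ u : V3 → ℝ, ContDiff ℝ ∞ u ∧ (∃ x ∈ ball3, u x ≠ 0) ∧ (∀ x ∈ ball3, lap g u x = 0) ∧
    ∀ x ∈ sph2, dnu g u x = σ * u x

end Pool.Agent.Y485
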