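import Pool.Agent.Y485.Family

/-!
# Families of metrics `1 + ε K(ε, x)`: Christoffel symbols and Ricci tensor divided by `ε`
-/

set_option autoImplicit false

namespace Pool.Agent.Y485

open scoped ContDiff Topology
open Set Filter

/-- Kronecker symbol -/
def kd (i j : Fin 3) : ℝ := if i = j then 1 else 0

/-- the metric `1 + ε K` -/
noncomputable def gm (K : Fin 3 → Fin 3 → ℝ → V3 → ℝ) (ε : ℝ) : Met :=
  fun x => Matrix.of fun i j => kd i j + ε * K i j ε x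

theorem gm_apply (K : Fin 3 → Fin 3 → ℝ → V3 → ℝ) (ε : ℝ) (x : V3) (i j : Fin 3) :
    gm K ε x i j = kd i j + ε * K i j ε x := rfl

/-- Christoffel symbols divided by `ε` -/
noncomputable def GT (K M : Fin 3 → Fin 3 → ℝ → V3 → ℝ) (k i j : Fin 3) (ε : ℝ) (x : V3) : ℝ :=
  (1 / 2) * ∑ l, (kd k l + ε * M k l ε x) *
    (pd i (K l j ε) x + pd j (K l i ε) x - pd l (K i j ε) x)

/-- Ricci tensor divided by `ε` -/
noncomputable def RT (K M : Fin 3 → Fin 3 → ℝ → V3 → ℝ) (i j : Fin 3) (ε : ℝ) (x : V3) : ℝ :=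
  ∑ k, (pd k (GT K M k i j ε) x - pd j (GT K M k i k ε) x) +
    ε * ∑ k, ∑ l, (GT K M k k l ε x * GT K M l i j ε x - GT K M k j l ε x * GT K M l i k ε x)

variable {W : Set (ℝ × V3)} {K M : Fin 3 → Fin 3 → ℝ → V3 → ℝ}

theorem inv_gm (hinv : ∀ z ∈ W, gm K z.1 z.2 * gm M z.1 z.2 = 1) {ε : ℝ} {x : V3}
    (h : (ε, x) ∈ W) : (gm K ε x)⁻¹ = gm M ε x :=
  Matrix.inv_eq_right_inv (hinv _ h)

theorem sm_GT (hW : IsOpen W) (hK : ∀ i j, Sm W (K i j)) (hM : ∀ i j, Sm W (M i j))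
    (k i j : Fin 3) : Sm W (GT K M k i j) := by
  refine (Sm.const _).mul (Sm.sum fun l _ => ?_)
  exact ((Sm.const _).add (Sm.eps.mul (hM k l))).mul
    ((((hK l j).pd hW i).add ((hK l i).pd hW j)).sub ((hK i j).pd hW l))

theorem sm_RT (hW : IsOpen W) (hK : ∀ i j, Sm W (K i j)) (hM : ∀ i j, Sm W (M i j))
    (i j : Fin 3) : Sm W (RT K M i j) := by
  have hG := sm_GT hW hK hM
  refine (Sm.sum fun k _ => ?_).add (Sm.eps.mul (Sm.sum fun k _ => Sm.sum fun l _ => ?_))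
  · exact ((hG k i j).pd hW k).sub ((hG k i k).pd hW j)
  · exact ((hG k k l).mul (hG l i j)).sub ((hG k j l).mul (hG l i k))

theorem pd_gm (hW : IsOpen W) (hK : ∀ i j, Sm W (K i j)) {ε : ℝ} {x : V3} (h : (ε, x) ∈ W)
    (l i j : Fin 3) : pd l (fun y => gm K ε y i j) x = ε * pd l (K i j ε) x := by
  have h1 := (hK i j).differentiableAt hW h
  have : (fun y => gm K ε y i j) = fun y => kd i j + ε * K i j ε y := rfl
  rw [this, pd_const_add, pd_const_mul _ _ h1]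

theorem gam_gm (hW : IsOpen W) (hK : ∀ i j, Sm W (K i j))
    (hinv : ∀ z ∈ W, gm K z.1 z.2 * gm M z.1 z.2 = 1) {ε : ℝ} {x : V3} (h : (ε, x) ∈ W)
    (k i j : Fin 3) : Gam (gm K ε) k i j x = ε * GT K M k i j ε x := by
  rw [Gam, GT, inv_gm hinv h]
  simp only [pd_gm hW hK h]
  simp only [Fin.sum_univ_three, gm_apply]
  ring

theorem ric_gm (hW : IsOpen W) (hK : ∀ i j, Sm W (K i j)) (hM : ∀ i j, Sm W (M i j))
    (hinv : ∀ z ∈ W, gm K z.1 z.2 * gm M z.1 z.2 = 1) {ε : ℝ} {x : V3} (h : (ε, x) ∈ W)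
    (i j : Fin 3) : Ric (gm K ε) i j x = ε * RT K M i j ε x := by
  have hG := sm_GT hW hK hM
  have h1 (m k i j : Fin 3) : pd m (Gam (gm K ε) k i j) x = ε * pd m (GT K M k i j ε) x := by
    have e : Gam (gm K ε) k i j =ᶠ[𝓝 x] fun y => ε * GT K M k i j ε y := by
      filter_upwards [slice_mem hW h] with y hy
      exact gam_gm hW hK hinv hy k i j
    rw [pd_congr m e, pd_const_mul _ _ ((hG k i j).differentiableAt hW h)]
  rw [Ric, RT]
  simp only [h1, gam_gm hW hK hinv h]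
  simp only [Fin.sum_univ_three]
  ring

end Pool.Agent.Y485
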