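import Pool.Agent.Y485.SecondForm

/-!
# Small perturbations of the flat unit ball

If the linearised Ricci tensor is positive on the unit ball and the linearisation of
`ρ - g` is positive on the unit sphere, then for all small `ε > 0` the metric `1 + ε K(ε, x)` has
positive Ricci curvature and `ρ > g` on the unit sphere.
-/

set_option autoImplicit false

namespace Pool.Agent.Y485

open scoped ContDiff Topology
open Set Filter

theorem pos_near {X : Type*} [TopologicalSpace X] {C : Set X} (hC : IsCompact C)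
    {W' : Set (ℝ × X)} (hW' : IsOpen W') {F : ℝ × X → ℝ} (hF : ContinuousOn F W')
    (h : ∀ c ∈ C, ((0 : ℝ), c) ∈ W' ∧ 0 < F (0, c)) :
    ∀ᶠ ε in 𝓝 (0 : ℝ), ∀ c ∈ C, (ε, c) ∈ W' ∧ 0 < F (ε, c) := by
  refine hC.eventually_forall_of_forall_eventually (P := fun ε c => (ε, c) ∈ W' ∧ 0 < F (ε, c)) ?_
  intro c hc
  obtain ⟨h1, h2⟩ := h c hc
  have h3 := hF.continuousAt (hW'.mem_nhds h1)
  filter_upwards [hW'.mem_nhds h1, h3.eventually (lt_mem_nhds h2)] with z hz1 hz2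
  exact ⟨hz1, hz2⟩

theorem isCompact_sq (r : ℝ) : IsCompact {x : V3 | ∑ i, x i ^ 2 ≤ r} := by
  refine Metric.isCompact_of_isClosed_isBounded ?_ ?_
  · exact isClosed_le (by fun_prop) continuous_const
  · refine (Metric.isBounded_closedBall (x := (0 : V3)) (r := √r)).subset ?_
    intro x hx
    rw [mem_closedBall_zero_iff, pi_norm_le_iff_of_nonneg (Real.sqrt_nonneg _)]
    intro i
    rw [Real.norm_eq_abs]
    refine Real.abs_le_sqrt ?_
    exact (Finset.single_le_sum (f := fun i => x i ^ 2) (fun i _ => sq_nonneg (x i))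
      (Finset.mem_univ i)).trans hx

theorem isCompact_sq_eq (r : ℝ) : IsCompact {x : V3 | ∑ i, x i ^ 2 = r} := by
  refine (isCompact_sq r).of_isClosed_subset ?_ ?_
  · exact isClosed_eq (by fun_prop) continuous_const
  · intro x hx
    exact le_of_eq hx

/-- reduction of a statement on nonzero vectors to unit vectors -/
theorem unit_vec {v : V3} (hv : v ≠ 0) :
    ∃ t : ℝ, ∃ u : V3, 0 < t ∧ v = t • u ∧ ∑ i, u i ^ 2 = 1 := by
  have h1 : 0 < ∑ i, v i ^ 2 := by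
    by_contra h
    apply hv
    have h2 : ∑ i, v i ^ 2 = 0 := le_antisymm (not_lt.1 h) (Finset.sum_nonneg fun i _ => sq_nonneg _)
    rw [Finset.sum_eq_zero_iff_of_nonneg (fun i _ => sq_nonneg _)] at h2
    funext i
    have := h2 i (Finset.mem_univ i)
    simpa using this
  have h2 := Real.sqrt_pos.2 h1
  refine ⟨√(∑ i, v i ^ 2), (√(∑ i, v i ^ 2))⁻¹ • v, h2, ?_, ?_⟩
  · rw [smul_smul, mul_inv_cancel₀ h2.ne', one_smul]
  · simp only [Pi.smul_apply, smul_eq_mul, mul_pow, ← Finset.mul_sum]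
    rw [inv_pow, Real.sq_sqrt h1.le, inv_mul_cancel₀ h1.ne']

/-- a quadratic form -/
def qf (A : Fin 3 → Fin 3 → ℝ) (v : V3) : ℝ := ∑ i, ∑ j, A i j * v i * v j

theorem qf_smul (A : Fin 3 → Fin 3 → ℝ) (t : ℝ) (v : V3) : qf A (t • v) = t ^ 2 * qf A v := by
  simp only [qf, Finset.mul_sum, Pi.smul_apply, smul_eq_mul]
  refine Finset.sum_congr rfl fun i _ => Finset.sum_congr rfl fun j _ => ?_
  ring

variable {W : Set (ℝ × V3)} {K M : Fin 3 → Fin 3 → ℝ → V3 → ℝ}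

/-- `qf` of a smooth family is continuous on `W × V3` -/
theorem continuousOn_qf {A : Fin 3 → Fin 3 → ℝ → V3 → ℝ} (hA : ∀ i j, Sm W (A i j)) :
    ContinuousOn (fun z : ℝ × (V3 × V3) => qf (fun i j => A i j z.1 z.2.1) z.2.2)
      {z | (z.1, z.2.1) ∈ W} := by
  have hm : MapsTo (fun z : ℝ × (V3 × V3) => (z.1, z.2.1)) {z | (z.1, z.2.1) ∈ W} W :=
    fun z hz => hz
  have h1 (i j : Fin 3) : ContinuousOn (fun z : ℝ × (V3 × V3) => A i j z.1 z.2.1)
      {z | (z.1, z.2.1) ∈ W} :=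
    (hA i j).continuousOn.comp (f := fun z : ℝ × (V3 × V3) => (z.1, z.2.1)) (by fun_prop) hm
  unfold qf
  refine continuousOn_finsetSum _ fun i _ => continuousOn_finsetSum _ fun j _ => ?_
  refine ((h1 i j).mul ?_).mul ?_
  · fun_prop
  · fun_prop

theorem isOpen_W' (hW : IsOpen W) : IsOpen {z : ℝ × (V3 × V3) | (z.1, z.2.1) ∈ W} :=
  hW.preimage (by fun_prop)

/-- positivity of a family of quadratic forms for small `ε` -/
theorem pos_qf (hW : IsOpen W) {A : Fin 3 → Fin 3 → ℝ → V3 → ℝ} (hA : ∀ i j, Sm W (A i j))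
    (r : ℝ) (h : ∀ x : V3, ∑ i, x i ^ 2 ≤ r → ((0 : ℝ), x) ∈ W ∧
      ∀ v : V3, v ≠ 0 → 0 < qf (fun i j => A i j 0 x) v) :
    ∀ᶠ ε in 𝓝 (0 : ℝ), ∀ x : V3, ∑ i, x i ^ 2 ≤ r → (ε, x) ∈ W ∧
      ∀ v : V3, v ≠ 0 → 0 < qf (fun i j => A i j ε x) v := by
  have hC : IsCompact ({x : V3 | ∑ i, x i ^ 2 ≤ r} ×ˢ {v : V3 | ∑ i, v i ^ 2 = 1}) :=
    (isCompact_sq r).prod (isCompact_sq_eq 1)
  have h1 := pos_near hC (isOpen_W' hW) (continuousOn_qf hA) (by
    rintro ⟨x, v⟩ ⟨hx, hv⟩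
    refine ⟨(h x hx).1, (h x hx).2 v ?_⟩
    rintro rfl
    simp at hv)
  filter_upwards [h1] with ε hε x hx
  have hone : ∑ i, (Pi.single (0 : Fin 3) (1 : ℝ) : V3) i ^ 2 = 1 := by
    simp [Fin.sum_univ_three]
  refine ⟨(hε (x, Pi.single 0 1) ⟨hx, hone⟩).1, fun v hv => ?_⟩
  obtain ⟨t, u, ht, rfl, hu⟩ := unit_vec hv
  rw [qf_smul]
  have := (hε (x, u) ⟨hx, hu⟩).2
  simp only at this
  positivity

theorem posDef_gm (hKs : ∀ i j, K i j = K j i) {ε : ℝ} {x : V3}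
    (h : ∀ v : V3, v ≠ 0 → 0 < qf (fun i j => gm K ε x i j) v) : (gm K ε x).PosDef := by
  refine Matrix.PosDef.of_dotProduct_mulVec_pos ?_ ?_
  · ext i j
    simp only [Matrix.conjTranspose_apply, star_trivial, gm_apply]
    rw [hKs j i]
    unfold kd
    simp only [eq_comm]
  · intro v hv
    have h1 := h v hv
    have h2 : star v ⬝ᵥ (gm K ε x).mulVec v = qf (fun i j => gm K ε x i j) v := by
      simp only [dotProduct, Matrix.mulVec, qf, Finset.mul_sum, Pi.star_apply, star_trivial]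
      refine Finset.sum_congr rfl fun i _ => Finset.sum_congr rfl fun j _ => ?_
      ring
    rw [h2]
    exact h1

/-- the quotient `(ρ - g) / ε` -/
noncomputable def PT (K M : Fin 3 → Fin 3 → ℝ → V3 → ℝ) (ε : ℝ) (x v : V3) : ℝ :=
  -(qf (fun k l => M k l ε x) x) * (∑ i, v i ^ 2) / (√(LL M ε x) * (1 + √(LL M ε x))) -
    (√(LL M ε x))⁻¹ * qf (fun i l => ∑ m, x m * GT K M m i l ε x) v - qf (fun i j => K i j ε x) v

theorem PT_smul (ε : ℝ) (x : V3) (t : ℝ) (v : V3) : PT K M ε x (t • v) = t ^ 2 * PT K M ε x v := by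
  unfold PT
  rw [qf_smul, qf_smul]
  have : ∑ i, (t • v) i ^ 2 = t ^ 2 * ∑ i, v i ^ 2 := by
    simp only [Pi.smul_apply, smul_eq_mul, mul_pow, Finset.mul_sum]
  rw [this]
  ring

theorem sff_sub (hW : IsOpen W) (hK : ∀ i j, Sm W (K i j)) (hM : ∀ i j, Sm W (M i j))
    (hKs : ∀ i j, K i j = K j i) (hMs : ∀ i j, M i j = M j i)
    (hinv : ∀ z ∈ W, gm K z.1 z.2 * gm M z.1 z.2 = 1) {ε : ℝ} {x : V3}
    (h : (ε, x) ∈ W) (hL : 0 < LL M ε x) (hx : ∑ i, x i ^ 2 = 1) (v : V3)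
    (T : ∑ l, x l * v l = 0) :
    sff (gm K ε) x v v - qf (fun i j => gm K ε x i j) v = ε * PT K M ε x v := by
  rw [sff_gm hW hK hM hKs hMs hinv h hL v v T]
  have hL1 : LL M ε x = 1 + ε * qf (fun k l => M k l ε x) x := by
    rw [← hx]
    simp only [LL, qf, Fin.sum_univ_three, kd]
    simp
    ring
  have hs := Real.sqrt_pos.2 hL
  have hs2 : √(LL M ε x) ^ 2 = 1 + ε * qf (fun k l => M k l ε x) x := by
    rw [Real.sq_sqrt hL.le, hL1]
  have hg : qf (fun i j => gm K ε x i j) v = ∑ i, v i ^ 2 + ε * qf (fun i j => K i j ε x) v := by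
    simp only [gm_apply, qf, Fin.sum_univ_three, kd]
    simp
    ring
  have hv : ∑ i, v i * v i = ∑ i, v i ^ 2 := Finset.sum_congr rfl fun i _ => (sq _).symm
  have hq : ∑ i, ∑ l, (∑ m, x m * GT K M m i l ε x) * v i * v l =
      qf (fun i l => ∑ m, x m * GT K M m i l ε x) v := rfl
  rw [hg, hv, hq]
  unfold PT
  set s := √(LL M ε x) with hsdef
  set a := qf (fun k l => M k l ε x) x
  set b := ∑ i, v i ^ 2
  set c := qf (fun i l => ∑ m, x m * GT K M m i l ε x) v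
  set d := qf (fun i j => K i j ε x) v
  have h1 : (1 + s) ≠ 0 := by positivity
  have h2 : s ≠ 0 := hs.ne'
  field_simp
  linear_combination (-b) * hs2

theorem continuousOn_PT (hW : IsOpen W) (hK : ∀ i j, Sm W (K i j)) (hM : ∀ i j, Sm W (M i j)) :
    ContinuousOn (fun z : ℝ × (V3 × V3) => PT K M z.1 z.2.1 z.2.2)
      {z | (z.1, z.2.1) ∈ W ∧ 0 < LL M z.1 z.2.1} := by
  have hsub : {z : ℝ × (V3 × V3) | (z.1, z.2.1) ∈ W ∧ 0 < LL M z.1 z.2.1} ⊆
      {z | (z.1, z.2.1) ∈ W} := fun z hz => hz.1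
  have hL : ContinuousOn (fun z : ℝ × (V3 × V3) => LL M z.1 z.2.1)
      {z | (z.1, z.2.1) ∈ W ∧ 0 < LL M z.1 z.2.1} :=
    (sm_LL hM).continuousOn.comp (f := fun z : ℝ × (V3 × V3) => (z.1, z.2.1)) (by fun_prop)
      (fun z hz => hz.1)
  have hs : ContinuousOn (fun z : ℝ × (V3 × V3) => √(LL M z.1 z.2.1))
      {z | (z.1, z.2.1) ∈ W ∧ 0 < LL M z.1 z.2.1} := hL.sqrt
  have hG (i l : Fin 3) : Sm W (fun ε x => ∑ m, x m * GT K M m i l ε x) :=
    Sm.sum fun m _ => (Sm.coord m).mul (sm_GT hW hK hM m i l)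
  have h1 : ContinuousOn (fun z : ℝ × (V3 × V3) => qf (fun k l => M k l z.1 z.2.1) z.2.1)
      {z | (z.1, z.2.1) ∈ W ∧ 0 < LL M z.1 z.2.1} := by
    have h2 := continuousOn_qf hM
    refine ContinuousOn.comp (f := fun z : ℝ × (V3 × V3) => (z.1, (z.2.1, z.2.1)))
      (g := fun z : ℝ × (V3 × V3) => qf (fun i j => M i j z.1 z.2.1) z.2.2) h2 (by fun_prop) ?_
    exact fun z hz => hz.1
  have h2 := (continuousOn_qf hG).mono hsub
  have h3 := (continuousOn_qf hK).mono hsub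
  have hpos : ∀ z ∈ {z : ℝ × (V3 × V3) | (z.1, z.2.1) ∈ W ∧ 0 < LL M z.1 z.2.1},
      √(LL M z.1 z.2.1) ≠ 0 := fun z hz => Real.sqrt_ne_zero'.2 hz.2
  unfold PT
  refine ((ContinuousOn.div (h1.neg.mul (by fun_prop)) (hs.mul (continuousOn_const.add hs)) ?_).sub
    ((hs.inv₀ hpos).mul h2)).sub h3
  intro z hz
  have h4 : 0 < √(LL M z.1 z.2.1) := Real.sqrt_pos.2 hz.2
  have h5 : 0 < 1 + √(LL M z.1 z.2.1) := by linarith
  exact (mul_pos h4 h5).ne'

theorem isOpen_W'' (hW : IsOpen W) (hM : ∀ i j, Sm W (M i j)) :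
    IsOpen {z : ℝ × (V3 × V3) | (z.1, z.2.1) ∈ W ∧ 0 < LL M z.1 z.2.1} := by
  have h1 : IsOpen (W ∩ (fun z : ℝ × V3 => LL M z.1 z.2) ⁻¹' (Ioi 0)) :=
    (sm_LL hM).continuousOn.isOpen_inter_preimage hW isOpen_Ioi
  exact h1.preimage (f := fun z : ℝ × (V3 × V3) => (z.1, z.2.1)) (by fun_prop)

/-- the value of `PT` at `ε = 0` -/
theorem PT_zero {x : V3} (hx : ∑ i, x i ^ 2 = 1) (v : V3) :
    PT K M 0 x v = -(1 / 2) * qf (fun k l => M k l 0 x) x * (∑ i, v i ^ 2) -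
      qf (fun i l => ∑ m, x m * GT K M m i l 0 x) v - qf (fun i j => K i j 0 x) v := by
  have hL : LL M 0 x = 1 := by
    rw [← hx]
    simp only [LL, Fin.sum_univ_three, kd]
    simp
    ring
  unfold PT
  rw [hL, Real.sqrt_one]
  ring

/-- **Main perturbation theorem.** -/
theorem perturb (hW : IsOpen W) (hK : ∀ i j, Sm W (K i j)) (hM : ∀ i j, Sm W (M i j))
    (hKs : ∀ i j, K i j = K j i) (hMs : ∀ i j, M i j = M j i)
    (hinv : ∀ z ∈ W, gm K z.1 z.2 * gm M z.1 z.2 = 1)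
    (h0 : ∀ x : V3, ((0 : ℝ), x) ∈ W)
    (hRic : ∀ x ∈ ball3, ∀ v : V3, v ≠ 0 → 0 < qf (fun i j => RT K M i j 0 x) v)
    (hP : ∀ x ∈ sph2, ∀ v : V3, v ≠ 0 → ∑ l, x l * v l = 0 → 0 < PT K M 0 x v) :
    ∀ᶠ ε in 𝓝 (0 : ℝ), 0 < ε →
      (∀ x : V3, ∑ i, x i ^ 2 ≤ 2 → (ε, x) ∈ W ∧ (gm K ε x).PosDef) ∧
      (∀ x ∈ ball3, ∀ v : V3, v ≠ 0 → 0 < ∑ i, ∑ j, Ric (gm K ε) i j x * v i * v j) ∧
      (∀ x ∈ sph2, ∀ v : V3, v ≠ 0 → ∑ i, x i * v i = 0 →
        ∑ i, ∑ j, gm K ε x i j * v i * v j < sff (gm K ε) x v v) := by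
  -- positive definiteness
  have hg (i j : Fin 3) : Sm W (fun ε x => gm K ε x i j) :=
    (Sm.const _).add (Sm.eps.mul (hK i j))
  have e1 := pos_qf hW hg 2 (fun x _ => ⟨h0 x, fun v hv => by
    obtain ⟨t, u, ht, rfl, hu⟩ := unit_vec hv
    rw [qf_smul]
    have : qf (fun i j => gm K 0 x i j) u = 1 := by
      rw [← hu]
      simp only [qf, gm_apply, Fin.sum_univ_three, kd]
      simp
      ring
    rw [this]
    positivity⟩)
  have e2 := pos_qf hW (sm_RT hW hK hM) 1 (fun x hx => ⟨h0 x, hRic x hx⟩)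
  have hC : IsCompact ({z : V3 × V3 | z ∈ {x : V3 | ∑ i, x i ^ 2 = 1} ×ˢ {v : V3 | ∑ i, v i ^ 2 = 1} ∧
      ∑ l, z.1 l * z.2 l = 0}) := by
    refine ((isCompact_sq_eq 1).prod (isCompact_sq_eq 1)).inter_right (t := {z : V3 × V3 |
      ∑ l, z.1 l * z.2 l = 0}) ?_
    exact isClosed_eq (by fun_prop) continuous_const
  have hL0 (x : V3) (hx : ∑ i, x i ^ 2 = 1) : LL M 0 x = 1 := by
    rw [← hx]
    simp only [LL, Fin.sum_univ_three, kd]
    simp
    ring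
  have e3 := pos_near hC (isOpen_W'' hW hM) (continuousOn_PT hW hK hM) (by
    rintro ⟨x, v⟩ ⟨⟨hx, hv⟩, hxv⟩
    simp only [mem_ofPred_eq] at hx hv hxv
    refine ⟨⟨h0 x, ?_⟩, hP x hx v ?_ hxv⟩
    · simp only [hL0 x hx]; norm_num
    · rintro rfl
      simp at hv)
  filter_upwards [e1, e2, e3] with ε h1 h2 h3 hε
  refine ⟨fun x hx => ⟨(h1 x hx).1, posDef_gm hKs (h1 x hx).2⟩, fun x hx v hv => ?_,
    fun x hx v hv hxv => ?_⟩
  · have h4 := (h2 x hx).2 v hv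
    have h5 : ∑ i, ∑ j, Ric (gm K ε) i j x * v i * v j = ε * qf (fun i j => RT K M i j ε x) v := by
      simp only [ric_gm hW hK hM hinv (h2 x hx).1, qf, Finset.mul_sum]
      refine Finset.sum_congr rfl fun i _ => Finset.sum_congr rfl fun j _ => ?_
      ring
    rw [h5]
    positivity
  · obtain ⟨t, u, ht, rfl, hu⟩ := unit_vec hv
    have hxu : ∑ l, x l * u l = 0 := by
      have h6 : ∑ i, x i * (t • u) i = t * ∑ l, x l * u l := by
        simp only [Pi.smul_apply, smul_eq_mul, Finset.mul_sum]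
        refine Finset.sum_congr rfl fun i _ => ?_
        ring
      rw [h6] at hxv
      exact (mul_eq_zero.1 hxv).resolve_left ht.ne'
    obtain ⟨⟨h7, h8⟩, h9⟩ := h3 (x, u) ⟨⟨hx, hu⟩, hxu⟩
    simp only at h7 h8 h9
    have h10 := sff_sub hW hK hM hKs hMs hinv h7 h8 hx (t • u) hxv
    rw [PT_smul] at h10
    have h11 : 0 < ε * (t ^ 2 * PT K M ε x u) := by positivity
    have h12 : ∑ i, ∑ j, gm K ε x i j * (t • u) i * (t • u) j =
      qf (fun i j => gm K ε x i j) (t • u) := rfl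
    rw [h12]
    linarith

end Pool.Agent.Y485
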