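import Pool.Agent.Y485.GeoDefs

/-!
# Integer polynomials in three variables as sorted lists of monomials

Used to verify polynomial identities and inequalities by computation in the kernel. The lists are
kept sorted by exponents (this is never needed for the correctness of the evaluation lemmas, only
for the checks to succeed).
-/

set_option autoImplicit false

namespace Pool.Agent.Y485

/-- A polynomial: a list of monomials `(c, a, b, d)` standing for `c x^a y^b z^d`. -/
abbrev PL : Type := List (ℤ × ℕ × ℕ × ℕ)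

namespace PL

/-- value of a monomial -/
noncomputable def mv (m : ℤ × ℕ × ℕ × ℕ) (x : Fin 3 → ℝ) : ℝ :=
  (m.1 : ℝ) * (x 0 ^ m.2.1 * x 1 ^ m.2.2.1 * x 2 ^ m.2.2.2)

/-- value of a polynomial -/
noncomputable def ev : PL → (Fin 3 → ℝ) → ℝ
  | [], _ => 0
  | m :: f, x => mv m x + ev f x

@[simp] theorem ev_nil (x : Fin 3 → ℝ) : ev [] x = 0 := rfl
theorem ev_cons (m : ℤ × ℕ × ℕ × ℕ) (f : PL) (x : Fin 3 → ℝ) :
    ev (m :: f) x = mv m x + ev f x := rfl

/-- same exponents -/
def same (m n : ℤ × ℕ × ℕ × ℕ) : Bool :=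
  Nat.beq m.2.1 n.2.1 && (Nat.beq m.2.2.1 n.2.2.1 && Nat.beq m.2.2.2 n.2.2.2)

/-- lexicographic comparison of exponents -/
def lt (m n : ℤ × ℕ × ℕ × ℕ) : Bool :=
  bif Nat.beq m.2.1 n.2.1 then
    (bif Nat.beq m.2.2.1 n.2.2.1 then Nat.blt m.2.2.2 n.2.2.2 else Nat.blt m.2.2.1 n.2.2.1)
  else Nat.blt m.2.1 n.2.1

theorem mv_same {m n : ℤ × ℕ × ℕ × ℕ} (h : same m n = true) (x : Fin 3 → ℝ) :
    mv (m.1 + n.1, n.2) x = mv m x + mv n x := by
  simp only [same, Bool.and_eq_true] at h
  have h1 := Nat.eq_of_beq_eq_true h.1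
  have h2 := Nat.eq_of_beq_eq_true h.2.1
  have h3 := Nat.eq_of_beq_eq_true h.2.2
  simp only [mv, h1, h2, h3, Int.cast_add]; ring

/-- auxiliary function for merging -/
def mrgAux (m : ℤ × ℕ × ℕ × ℕ) (r : PL → PL) : PL → PL
  | [] => m :: r []
  | n :: g => bif same m n then (m.1 + n.1, n.2) :: r g else
      bif lt m n then m :: r (n :: g) else n :: mrgAux m r g

/-- sum of two sorted lists -/
def mrg : PL → PL → PL
  | [], g => g
  | m :: f, g => mrgAux m (mrg f) g

theorem ev_mrgAux (m : ℤ × ℕ × ℕ × ℕ) (r : PL → PL) (c : ℝ) (x : Fin 3 → ℝ)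
    (hr : ∀ g, ev (r g) x = c + ev g x) (g : PL) :
    ev (mrgAux m r g) x = mv m x + c + ev g x := by
  induction g with
  | nil => rw [mrgAux, ev_cons, hr]; ring
  | cons n g ih =>
    rw [mrgAux]
    by_cases h : same m n = true
    · rw [h, cond_true, ev_cons, mv_same h, hr, ev_cons]; ring
    · rw [Bool.not_eq_true] at h
      rw [h, cond_false]
      by_cases h2 : lt m n = true
      · rw [h2, cond_true, ev_cons, hr]; ring
      · rw [Bool.not_eq_true] at h2
        rw [h2, cond_false, ev_cons, ih, ev_cons]; ring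

theorem ev_mrg (f g : PL) (x : Fin 3 → ℝ) : ev (mrg f g) x = ev f x + ev g x := by
  induction f generalizing g with
  | nil => simp [mrg]
  | cons m f ih => rw [mrg, ev_mrgAux m (mrg f) (ev f x) x ih, ev_cons]

/-- product of monomials -/
def mm (m n : ℤ × ℕ × ℕ × ℕ) : ℤ × ℕ × ℕ × ℕ :=
  (m.1 * n.1, m.2.1 + n.2.1, m.2.2.1 + n.2.2.1, m.2.2.2 + n.2.2.2)

theorem mv_mm (m n : ℤ × ℕ × ℕ × ℕ) (x : Fin 3 → ℝ) : mv (mm m n) x = mv m x * mv n x := by
  simp only [mv, mm, Int.cast_mul, pow_add]; ring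

/-- monomial times polynomial -/
def mmul (m : ℤ × ℕ × ℕ × ℕ) : PL → PL
  | [] => []
  | n :: f => mm m n :: mmul m f

theorem ev_mmul (m : ℤ × ℕ × ℕ × ℕ) (f : PL) (x : Fin 3 → ℝ) :
    ev (mmul m f) x = mv m x * ev f x := by
  induction f with
  | nil => simp [mmul]
  | cons n f ih => rw [mmul, ev_cons, ev_cons, ih, mv_mm]; ring

/-- scalar multiple -/
def smul (c : ℤ) (f : PL) : PL := mmul (c, 0, 0, 0) f

theorem ev_smul (c : ℤ) (f : PL) (x : Fin 3 → ℝ) : ev (smul c f) x = c * ev f x := by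
  rw [smul, ev_mmul]; simp [mv]

/-- product -/
def mul : PL → PL → PL
  | [], _ => []
  | m :: f, g => mrg (mmul m g) (mul f g)

theorem ev_mul (f g : PL) (x : Fin 3 → ℝ) : ev (mul f g) x = ev f x * ev g x := by
  induction f with
  | nil => simp [mul]
  | cons m f ih => rw [mul, ev_mrg, ev_mmul, ih, ev_cons]; ring

/-- power -/
def pow (f : PL) : ℕ → PL
  | 0 => [(1, 0, 0, 0)]
  | n + 1 => mul f (pow f n)

theorem ev_pow (f : PL) (n : ℕ) (x : Fin 3 → ℝ) : ev (pow f n) x = ev f x ^ n := by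
  induction n with
  | zero => simp [pow, ev_cons, mv]
  | succ n ih => rw [pow, ev_mul, ih, pow_succ]; ring

/-- all coefficients are zero -/
def isZero (f : PL) : Bool := f.all fun m => decide (m.1 = 0)

theorem ev_isZero {f : PL} (h : isZero f = true) (x : Fin 3 → ℝ) : ev f x = 0 := by
  induction f with
  | nil => simp
  | cons m f ih =>
    simp only [isZero, List.all_cons, Bool.and_eq_true, decide_eq_true_eq] at h
    rw [ev_cons, ih (by simpa [isZero] using h.2)]
    simp [mv, h.1]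

/-- `f = g` as polynomials -/
def peq (f g : PL) : Bool := isZero (mrg f (smul (-1) g))

theorem ev_peq {f g : PL} (h : peq f g = true) (x : Fin 3 → ℝ) : ev f x = ev g x := by
  have := ev_isZero h x
  rw [ev_mrg, ev_smul] at this
  push_cast at this
  linarith

/-- all coefficients are nonnegative -/
def isNN (f : PL) : Bool := f.all fun m => decide (0 ≤ m.1)

theorem ev_isNN {f : PL} (h : isNN f = true) {x : Fin 3 → ℝ} (hx : ∀ i, 0 ≤ x i) :
    0 ≤ ev f x := by
  induction f with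
  | nil => simp
  | cons m f ih =>
    simp only [isNN, List.all_cons, Bool.and_eq_true, decide_eq_true_eq] at h
    rw [ev_cons]
    have h1 := ih (by simpa [isNN] using h.2)
    have h2 : 0 ≤ mv m x := by
      unfold mv
      have := hx 0
      have := hx 1
      have := hx 2
      have : (0:ℝ) ≤ (m.1 : ℝ) := by exact_mod_cast h.1
      positivity
    linarith

/-- homogenise a polynomial in the first two variables, with `one` standing for `1` -/
def homog (one : PL) (d : ℕ) : PL → PL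
  | [] => []
  | m :: f => mrg (mmul m (pow one (d - (m.2.1 + m.2.2.1)))) (homog one d f)

theorem ev_homog (one : PL) (d : ℕ) (f : PL) (x : Fin 3 → ℝ) (h1 : ev one x = 1) :
    ev (homog one d f) x = ev f x := by
  induction f with
  | nil => simp [homog]
  | cons m f ih => rw [homog, ev_mrg, ev_mmul, ev_pow, h1, ih, ev_cons]; simp

/-- composition with three polynomials -/
def comp (g0 g1 g2 : PL) : PL → PL
  | [] => []
  | m :: f => mrg (smul m.1 (mul (pow g0 m.2.1) (mul (pow g1 m.2.2.1) (pow g2 m.2.2.2))))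
      (comp g0 g1 g2 f)

theorem ev_comp (g0 g1 g2 f : PL) (x : Fin 3 → ℝ) :
    ev (comp g0 g1 g2 f) x = ev f ![ev g0 x, ev g1 x, ev g2 x] := by
  induction f with
  | nil => simp [comp]
  | cons m f ih =>
    rw [comp, ev_mrg, ev_smul, ev_mul, ev_mul, ev_pow, ev_pow, ev_pow, ih, ev_cons]
    simp only [mv, Matrix.cons_val_zero, Matrix.cons_val_one, Matrix.cons_val]
    ring

/-- exponent of a variable -/
def ex (i : Fin 3) (m : ℤ × ℕ × ℕ × ℕ) : ℕ :=
  match i with
  | 0 => m.2.1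
  | 1 => m.2.2.1
  | 2 => m.2.2.2

/-- derivative of a monomial -/
def dm (i : Fin 3) (m : ℤ × ℕ × ℕ × ℕ) : ℤ × ℕ × ℕ × ℕ :=
  match i with
  | 0 => (m.1 * m.2.1, m.2.1 - 1, m.2.2.1, m.2.2.2)
  | 1 => (m.1 * m.2.2.1, m.2.1, m.2.2.1 - 1, m.2.2.2)
  | 2 => (m.1 * m.2.2.2, m.2.1, m.2.2.1, m.2.2.2 - 1)

/-- partial derivative -/
def der (i : Fin 3) : PL → PL
  | [] => []
  | m :: f => bif Nat.beq (ex i m) 0 then der i f else dm i m :: der i f

theorem hasFDerivAt_mv (m : ℤ × ℕ × ℕ × ℕ) (x : V3) :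
    HasFDerivAt (fun y : V3 => mv m y)
      ((m.1 : ℝ) • ((x 0 ^ m.2.1 * x 1 ^ m.2.2.1) •
          (((m.2.2.2 : ℝ) * x 2 ^ (m.2.2.2 - 1)) •
            ContinuousLinearMap.proj (R := ℝ) (φ := fun _ : Fin 3 => ℝ) 2) +
        (x 2 ^ m.2.2.2) • ((x 0 ^ m.2.1) •
          (((m.2.2.1 : ℝ) * x 1 ^ (m.2.2.1 - 1)) •
            ContinuousLinearMap.proj (R := ℝ) (φ := fun _ : Fin 3 => ℝ) 1) +
          (x 1 ^ m.2.2.1) • (((m.2.1 : ℝ) * x 0 ^ (m.2.1 - 1)) •
            ContinuousLinearMap.proj (R := ℝ) (φ := fun _ : Fin 3 => ℝ) 0)))) x := by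
  have h (i : Fin 3) (n : ℕ) : HasFDerivAt (fun y : V3 => y i ^ n)
      (((n : ℝ) * x i ^ (n - 1)) •
        ContinuousLinearMap.proj (R := ℝ) (φ := fun _ : Fin 3 => ℝ) i) x := by
    have := (hasFDerivAt_apply (𝕜 := ℝ) i x).pow n
    simpa using this
  exact (((h 0 m.2.1).mul (h 1 m.2.2.1)).mul (h 2 m.2.2.2)).const_mul (m.1 : ℝ)

theorem pd_mv (i : Fin 3) (m : ℤ × ℕ × ℕ × ℕ) (x : V3) :
    pd i (fun y => mv m y) x = mv (dm i m) x := by
  rw [pd, (hasFDerivAt_mv m x).fderiv]
  fin_cases i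
  · simp [dm, mv]
    ring
  · simp [dm, mv]
    ring
  · simp [dm, mv]
    ring

theorem contDiff_mv (m : ℤ × ℕ × ℕ × ℕ) : ContDiff ℝ ⊤ (fun y : V3 => mv m y) := by
  unfold mv
  fun_prop

theorem contDiff_ev (f : PL) : ContDiff ℝ ⊤ (fun y : V3 => ev f y) := by
  induction f with
  | nil => exact contDiff_const
  | cons m f ih => exact (contDiff_mv m).add ih

theorem differentiable_ev (f : PL) : Differentiable ℝ (fun y : V3 => ev f y) :=
  (contDiff_ev f).differentiable (by simp)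

theorem mv_dm_zero (i : Fin 3) (m : ℤ × ℕ × ℕ × ℕ) (h : Nat.beq (ex i m) 0 = true) (x : V3) :
    mv (dm i m) x = 0 := by
  have h1 := Nat.eq_of_beq_eq_true h
  fin_cases i <;> simp only [ex] at h1 <;> simp [dm, mv, h1]

theorem pd_ev (i : Fin 3) (f : PL) (x : V3) : pd i (fun y => ev f y) x = ev (der i f) x := by
  induction f with
  | nil =>
    simp [pd, der]
  | cons m f ih =>
    have h1 : DifferentiableAt ℝ (fun y : V3 => mv m y) x :=
      ((contDiff_mv m).differentiable (by simp)) x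
    have h2 : DifferentiableAt ℝ (fun y : V3 => ev f y) x := differentiable_ev f x
    have h3 : pd i (fun y => ev (m :: f) y) x = mv (dm i m) x + ev (der i f) x := by
      rw [← ih, ← pd_mv]
      unfold pd
      have : (fun y : V3 => ev (m :: f) y) = fun y => mv m y + ev f y := rfl
      rw [this, fderiv_fun_add h1 h2]
      rfl
    rw [h3, der]
    by_cases h : Nat.beq (ex i m) 0 = true
    · rw [h, cond_true, mv_dm_zero i m h x, zero_add]
    · rw [Bool.not_eq_true] at h
      rw [h, cond_false, ev_cons]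

end PL

end Pool.Agent.Y485
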