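import Pool.Agent.Y485.Perturb

/-!
# The second fundamental form of the unit sphere for the metric `1 + ε K(ε, x)`
-/

set_option autoImplicit false

namespace Pool.Agent.Y485

open scoped ContDiff Topology
open Set Filter

theorem sff_alg (g : Fin 3 → Fin 3 → ℝ) (dg : Fin 3 → Fin 3 → Fin 3 → ℝ) (X : Fin 3 → ℝ)
    (dX : Fin 3 → Fin 3 → ℝ) (Γ : Fin 3 → Fin 3 → Fin 3 → ℝ) (s : ℝ) (ds : Fin 3 → ℝ)
    (x v w : Fin 3 → ℝ) (hdg : ∀ i k l, dg i k l = dg i l k)
    (H : ∀ l, ∑ k, g k l * X k = x l)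
    (E : ∀ i l, ∑ k, g k l * dX i k = kd i l - ∑ k, X k * dg i k l)
    (G : ∀ l i j, ∑ k, g k l * Γ k i j = (1 / 2) * (dg i l j + dg j l i - dg l i j))
    (S : ∀ i l, ∑ m, x m * Γ m i l = (1 / 2) * ∑ j, X j * (dg i j l + dg l j i - dg j i l))
    (T : ∑ l, x l * w l = 0) :
    ∑ k, ∑ l, g k l * (∑ i, v i * (X k * ds i + s * dX i k) +
      ∑ i, ∑ j, Γ k i j * v i * (s * X j)) * w l =
    s * (∑ i, v i * w i - ∑ i, ∑ l, (∑ m, x m * Γ m i l) * v i * w l) := by
  have e1 : ∑ k, ∑ l, g k l * (∑ i, v i * (X k * ds i + s * dX i k) +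
      ∑ i, ∑ j, Γ k i j * v i * (s * X j)) * w l =
      ∑ l, w l * ((∑ i, v i * ds i) * (∑ k, g k l * X k) +
        s * ∑ i, v i * (∑ k, g k l * dX i k) +
        s * ∑ i, ∑ j, v i * X j * (∑ k, g k l * Γ k i j)) := by
    simp only [Fin.sum_univ_three]; ring
  rw [e1]
  simp only [H, E, G, S]
  have h10 (i : Fin 3) : dg i 1 0 = dg i 0 1 := hdg i 1 0
  have h20 (i : Fin 3) : dg i 2 0 = dg i 0 2 := hdg i 2 0
  have h21 (i : Fin 3) : dg i 2 1 = dg i 1 2 := hdg i 2 1
  simp only [Fin.sum_univ_three] at T ⊢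
  have k00 : kd 0 0 = 1 := if_pos rfl
  have k11 : kd 1 1 = 1 := if_pos rfl
  have k22 : kd 2 2 = 1 := if_pos rfl
  have k01 : kd 0 1 = 0 := if_neg (by decide)
  have k02 : kd 0 2 = 0 := if_neg (by decide)
  have k12 : kd 1 2 = 0 := if_neg (by decide)
  have k10 : kd 1 0 = 0 := if_neg (by decide)
  have k20 : kd 2 0 = 0 := if_neg (by decide)
  have k21 : kd 2 1 = 0 := if_neg (by decide)
  simp only [h10, h20, h21, k00, k11, k22, k01, k02, k12, k10, k20, k21]
  linear_combination (v 0 * ds 0 + v 1 * ds 1 + v 2 * ds 2) * T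

variable {W : Set (ℝ × V3)} {K M : Fin 3 → Fin 3 → ℝ → V3 → ℝ}

/-- the squared length of the conormal `x` -/
noncomputable def LL (M : Fin 3 → Fin 3 → ℝ → V3 → ℝ) (ε : ℝ) (x : V3) : ℝ :=
  ∑ k, ∑ l, (kd k l + ε * M k l ε x) * x k * x l

/-- the gradient direction of the conormal `x` -/
noncomputable def XX (M : Fin 3 → Fin 3 → ℝ → V3 → ℝ) (k : Fin 3) (ε : ℝ) (x : V3) : ℝ :=
  ∑ j, (kd k j + ε * M k j ε x) * x j

theorem sm_LL (hM : ∀ i j, Sm W (M i j)) : Sm W (LL M) :=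
  Sm.sum fun k _ => Sm.sum fun l _ =>
    (((Sm.const _).add (Sm.eps.mul (hM k l))).mul (Sm.coord k)).mul (Sm.coord l)

theorem sm_XX (hM : ∀ i j, Sm W (M i j)) (k : Fin 3) : Sm W (XX M k) :=
  Sm.sum fun j _ => ((Sm.const _).add (Sm.eps.mul (hM k j))).mul (Sm.coord j)

theorem nrm_gm (hinv : ∀ z ∈ W, gm K z.1 z.2 * gm M z.1 z.2 = 1) {ε : ℝ} {x : V3}
    (h : (ε, x) ∈ W) (k : Fin 3) : nrm (gm K ε) k x = XX M k ε x * (√(LL M ε x))⁻¹ := by
  rw [nrm, inv_gm hinv h]
  rfl

theorem sff_gm (hW : IsOpen W) (hK : ∀ i j, Sm W (K i j)) (hM : ∀ i j, Sm W (M i j))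
    (hKs : ∀ i j, K i j = K j i) (hMs : ∀ i j, M i j = M j i)
    (hinv : ∀ z ∈ W, gm K z.1 z.2 * gm M z.1 z.2 = 1) {ε : ℝ} {x : V3}
    (h : (ε, x) ∈ W) (hL : 0 < LL M ε x) (v w : V3) (T : ∑ l, x l * w l = 0) :
    sff (gm K ε) x v w = (√(LL M ε x))⁻¹ *
      (∑ i, v i * w i - ε * ∑ i, ∑ l, (∑ m, x m * GT K M m i l ε x) * v i * w l) := by
  have kds (i j : Fin 3) : kd i j = kd j i := by unfold kd; simp only [eq_comm]
  have gs (y : V3) (i j : Fin 3) : gm K ε y i j = gm K ε y j i := by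
    rw [gm_apply, gm_apply, hKs i j, kds]
  have ms (y : V3) (i j : Fin 3) : gm M ε y i j = gm M ε y j i := by
    rw [gm_apply, gm_apply, hMs i j, kds]
  -- differentiability
  have hLd : DifferentiableAt ℝ (LL M ε) x := (sm_LL hM).differentiableAt hW h
  have hXd (k : Fin 3) : DifferentiableAt ℝ (XX M k ε) x := (sm_XX hM k).differentiableAt hW h
  have hsd : DifferentiableAt ℝ (fun y => (√(LL M ε y))⁻¹) x := by
    have h1 : DifferentiableAt ℝ (fun y => √(LL M ε y)) x := hLd.sqrt hL.ne'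
    exact h1.inv (Real.sqrt_ne_zero'.2 hL)
  have hgd (k l : Fin 3) : DifferentiableAt ℝ (fun y => gm K ε y k l) x := by
    have h1 := (hK k l).differentiableAt hW h
    exact (h1.const_mul ε).const_add (kd k l)
  have hn (i k : Fin 3) : pd i (nrm (gm K ε) k) x =
      XX M k ε x * pd i (fun y => (√(LL M ε y))⁻¹) x + (√(LL M ε x))⁻¹ * pd i (XX M k ε) x := by
    have e : nrm (gm K ε) k =ᶠ[𝓝 x] fun y => XX M k ε y * (√(LL M ε y))⁻¹ := by
      filter_upwards [slice_mem hW h] with y hy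
      exact nrm_gm hinv hy k
    rw [pd_congr i e, pd_mul i (hXd k) hsd]
  -- the identity g X = x
  have HX (y : V3) (hy : (ε, y) ∈ W) (l : Fin 3) : ∑ k, gm K ε y k l * XX M k ε y = y l := by
    have h1 := hinv _ hy
    have h2 : (gm K ε y).mulVec ((gm M ε y).mulVec y) = y := by
      rw [Matrix.mulVec_mulVec]
      simp only at h1
      rw [h1, Matrix.one_mulVec]
    have h3 := congrFun h2 l
    rw [← h3]
    simp only [Matrix.mulVec, dotProduct]
    refine Finset.sum_congr rfl fun k _ => ?_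
    rw [gs y k l]
    rfl
  have HE (i l : Fin 3) : ∑ k, gm K ε x k l * pd i (XX M k ε) x =
      kd i l - ∑ k, XX M k ε x * pd i (fun y => gm K ε y k l) x := by
    have e : (fun y => ∑ k, gm K ε y k l * XX M k ε y) =ᶠ[𝓝 x] fun y => y l := by
      filter_upwards [slice_mem hW h] with y hy
      exact HX y hy l
    have h1 := pd_congr i e
    have h0 : pd i (fun y => ∑ k, gm K ε y k l * XX M k ε y) x =
        ∑ k, pd i (fun y => gm K ε y k l * XX M k ε y) x :=
      pd_sum (f := fun k y => gm K ε y k l * XX M k ε y) i (fun k _ => (hgd k l).mul (hXd k))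
    rw [h0, pd_coord] at h1
    simp only [fun k => pd_mul i (hgd k l) (hXd k)] at h1
    rw [Finset.sum_add_distrib] at h1
    unfold kd
    linarith
  have HG (l i j : Fin 3) : ∑ k, gm K ε x k l * Gam (gm K ε) k i j x =
      (1 / 2) * (pd i (fun y => gm K ε y l j) x + pd j (fun y => gm K ε y l i) x -
        pd l (fun y => gm K ε y i j) x) := by
    set D : Fin 3 → ℝ := fun l => pd i (fun y => gm K ε y l j) x +
      pd j (fun y => gm K ε y l i) x - pd l (fun y => gm K ε y i j) x with hD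
    have h1 := hinv _ h
    have h2 : (gm K ε x).mulVec ((gm M ε x).mulVec D) = D := by
      rw [Matrix.mulVec_mulVec]
      simp only at h1
      rw [h1, Matrix.one_mulVec]
    have h3 := congrFun h2 l
    have h4 : ∀ k, Gam (gm K ε) k i j x = (1 / 2) * (gm M ε x).mulVec D k := by
      intro k
      rw [Gam, inv_gm hinv h]
      rfl
    simp only [h4]
    change _ = (1 / 2) * D l
    rw [← h3, Matrix.mulVec, dotProduct, Finset.mul_sum]
    refine Finset.sum_congr rfl fun k _ => ?_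
    rw [gs x k l]
    ring
  have HS (i l : Fin 3) : ∑ m, x m * Gam (gm K ε) m i l x =
      (1 / 2) * ∑ j, XX M j ε x * (pd i (fun y => gm K ε y j l) x +
        pd l (fun y => gm K ε y j i) x - pd j (fun y => gm K ε y i l) x) := by
    have h4 : ∀ m, Gam (gm K ε) m i l x = (1 / 2) * ∑ j, gm M ε x m j *
        (pd i (fun y => gm K ε y j l) x + pd l (fun y => gm K ε y j i) x -
        pd j (fun y => gm K ε y i l) x) := by
      intro m
      rw [Gam, inv_gm hinv h]
    have h5 (j : Fin 3) : XX M j ε x = ∑ m, gm M ε x m j * x m := by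
      unfold XX
      refine Finset.sum_congr rfl fun m _ => ?_
      rw [ms x m j]
      rfl
    simp only [h4, h5, Fin.sum_univ_three]
    ring
  have hdg (i k l : Fin 3) : pd i (fun y => gm K ε y k l) x = pd i (fun y => gm K ε y l k) x := by
    have : (fun y => gm K ε y k l) = fun y => gm K ε y l k := by
      funext y; exact gs y k l
    rw [this]
  have key := sff_alg (fun k l => gm K ε x k l) (fun i k l => pd i (fun y => gm K ε y k l) x)
    (fun k => XX M k ε x) (fun i k => pd i (XX M k ε) x) (fun k i j => Gam (gm K ε) k i j x)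
    (√(LL M ε x))⁻¹ (fun i => pd i (fun y => (√(LL M ε y))⁻¹) x) x v w hdg (HX x h) HE HG HS T
  have e1 : sff (gm K ε) x v w = ∑ k, ∑ l, gm K ε x k l *
      (∑ i, v i * (XX M k ε x * pd i (fun y => (√(LL M ε y))⁻¹) x +
        (√(LL M ε x))⁻¹ * pd i (XX M k ε) x) +
      ∑ i, ∑ j, Gam (gm K ε) k i j x * v i * ((√(LL M ε x))⁻¹ * XX M j ε x)) * w l := by
    rw [sff]
    simp only [hn, nrm_gm hinv h, mul_comm (XX M _ ε x) (√(LL M ε x))⁻¹]
  rw [e1, key]
  congr 1
  simp only [gam_gm hW hK hinv h, Fin.sum_univ_three]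
  ring

end Pool.Agent.Y485
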